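import Pool.Agent.Run7.h853.Cg.HDefs
import Pool.Agent.Run7.h853.Cy.Defs4

/-!
# Comparison of the definitions
-/

set_option linter.unusedSectionVars false

namespace Run7.h853.Cg

open Matrix Pool.Agent.W437.CY Run7.h853.Cy

section One

variable {k N : ℕ} {V : PolHS k N}

lemma part_eq (p : Fin (k + 1)) : part V (2 * (p : ℤ) - k) = V.H p := by
  apply le_antisymm
  · refine iSup₂_le fun q hq => ?_
    have h1 : q = p := by
      apply Fin.ext
      omega
    rw [h1]
  · exact le_iSup₂ (f := fun (q : Fin (k + 1)) (_ : 2 * (q : ℤ) - k = 2 * (p : ℤ) - k) => V.H q)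
      p rfl

lemma mem_part {p : Fin (k + 1)} {x : Fin N → ℂ} (hx : x ∈ V.H p) :
    x ∈ part V (2 * (p : ℤ) - k) := by
  rw [part_eq]
  exact hx

lemma part_last : part V k = V.H (Fin.last k) := by
  rw [← part_eq]
  congr 1
  rw [Fin.val_last]
  ring

lemma part_cases (a : ℤ) : (∃ p : Fin (k + 1), 2 * (p : ℤ) - k = a) ∨ part V a = ⊥ := by
  by_cases h : ∃ p : Fin (k + 1), 2 * (p : ℤ) - k = a
  · exact Or.inl h
  · right
    rw [part, eq_bot_iff]
    refine iSup₂_le fun q hq => ?_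
    exact absurd ⟨q, hq⟩ h

lemma isEnd_iff {A : Matrix (Fin N) (Fin N) ℚ} : IsEnd V A ↔ A ∈ endHS V := by
  constructor
  · intro h p x hx
    have h1 := h _ x (mem_part hx)
    rw [part_eq] at h1
    exact h1
  · intro h a x hx
    rcases part_cases (V := V) a with ⟨p, rfl⟩ | h1
    · rw [part_eq] at hx ⊢
      exact h p x hx
    · rw [h1] at hx
      rw [(Submodule.mem_bot ℂ).1 hx, mulVec_zero]
      exact Submodule.zero_mem _

lemma degEnd_eq : degEnd V = Module.finrank ℚ (endHS V) := by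
  have h0 : {A | IsEnd V A} = (endHS V : Set (Matrix (Fin N) (Fin N) ℚ)) :=
    Set.ext fun A => isEnd_iff
  have h1 : Submodule.span ℚ {A | IsEnd V A} = endHS V := by
    rw [h0]
    exact Submodule.span_eq (endHS V)
  rw [degEnd, h1]

lemma quatSp_eq (I J : Matrix (Fin N) (Fin N) ℚ) : quatSp V I J = quatSpan V I J := by
  rw [quatSp, quatSpan]
  congr 1
  ext B
  simp only [Set.mem_ofPred_eq, isEnd_iff]
  rfl

lemma isShift_of {r : ℤ} {B : Matrix (Fin N) (Fin N) ℂ} (h : B ∈ shiftEnd V r) :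
    IsShift V r B := by
  intro a x hx
  rcases part_cases (V := V) a with ⟨p, rfl⟩ | h1
  · rw [part_eq] at hx
    refine iSup₂_le (f := fun (q : Fin (k + 1)) (_ : (q : ℤ) = p + r) => V.H q)
      (a := part V (2 * (p : ℤ) - k + 2 * r)) ?_ (h p x hx)
    intro q hq
    have h2 : 2 * (p : ℤ) - k + 2 * r = 2 * (q : ℤ) - k := by rw [hq]; ring
    rw [h2, part_eq]
  · rw [h1] at hx
    rw [(Submodule.mem_bot ℂ).1 hx, mulVec_zero]
    exact Submodule.zero_mem _

lemma isTensor_of (h : TensorE V) : IsTensor V := by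
  obtain ⟨I, J, h1, h2, h3, h4, h5, h6, h7⟩ := h
  refine ⟨I, J, fun A hA => h1 A (isEnd_iff.1 hA), isEnd_iff.2 h2, isEnd_iff.2 h3, h4, h5, h6, ?_⟩
  rw [quatSp_eq]
  refine h7.trans (iSup_le fun r => ?_)
  intro B hB
  exact Submodule.subset_span ⟨hB.1, r, isShift_of hB.2⟩

lemma NoSymFour.noQuartic (h : NoSymFour V) : NoQuartic V := by
  intro c hc hs
  refine h c hc (Submodule.span_mono ?_ hs)
  rintro _ ⟨x, p, h1, h2, rfl⟩
  refine ⟨x, fun j => 2 * (p j : ℤ) - k, fun j => mem_part (h1 j), ?_, rfl⟩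
  rw [Finset.sum_sub_distrib, ← Finset.mul_sum, Finset.sum_const, Finset.card_univ,
    Fintype.card_fin]
  have h3 : ∑ j, ((p j : ℕ) : ℤ) = 2 * k := by exact_mod_cast h2
  rw [h3]
  simp
  ring

lemma GenericCY.gen (h : GenericCY V) : CYGen V := by
  obtain ⟨h1, h2, h3⟩ := h
  rw [part_last] at h2
  refine ⟨h1, h2, ?_⟩
  rcases h3 with h3 | ⟨h3, h4, h5, h6⟩
  · exact Or.inl h3.noQuartic
  · refine Or.inr ⟨h3, fun A hA => h4 A (isEnd_iff.2 hA), fun h => h5 (isTensor_of h),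
      fun m hm => ?_⟩
    rw [← degEnd_eq]
    exact h6 m hm

end One

section Two

variable {k N w e : ℕ} {V : PolHS k N} {W : PolHS w e}

lemma NoSymTwo.noMixed (h : NoSymTwo V W) : NoMixed V W := by
  intro c hc hs
  let L : (Fin N → Fin N → Fin e → Fin e → ℂ) →ₗ[ℂ] ((Fin N × Fin N) × (Fin e × Fin e) → ℂ) :=
    { toFun := fun F I => F I.1.1 I.1.2 I.2.1 I.2.2
      map_add' := fun _ _ => rfl
      map_smul' := fun _ _ => rfl }
  have h1 := h (fun I => c I.1.1 I.1.2 I.2.1 I.2.2) (fun a b s => hc a b s.1 s.2) (by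
    have h2 := Submodule.mem_map_of_mem (f := L) hs
    rw [Submodule.map_span] at h2
    refine Submodule.span_mono ?_ h2
    rintro _ ⟨_, ⟨p, q, r, s, x, y, z, u, h3, h4, h5, h6, h7, rfl⟩, rfl⟩
    exact ⟨2 * (p : ℤ) - k, 2 * (q : ℤ) - k, 2 * (r : ℤ) - w, 2 * (s : ℤ) - w, by omega,
      x, mem_part h3, y, mem_part h4, z, mem_part h5, u, mem_part h6, rfl⟩)
  funext a b s t
  exact congrFun h1 ((a, b), (s, t))

lemma IsIndep.indep (h : IsIndep V W) : Indep V W := by
  rcases h with h | h | h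
  · refine Or.inl fun p hp => ?_
    rw [← part_eq]
    exact h _ hp
  · refine Or.inr (Or.inl ?_)
    rwa [← degEnd_eq]
  · exact Or.inr (Or.inr h.noMixed)

end Two

end Run7.h853.Cg
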