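import Pool.Agent.Run7.h853.Cg.B1
import Pool.Agent.Run7.h853.Cg.Bridge

/-!
# The final theorems
-/

set_option linter.unusedSectionVars false

open CategoryTheory AlgebraicGeometry TensorProduct

universe u

namespace Run7.h853.Cg

open Module
open Pool.Agent.H914 Pool.Agent.H914.VarClass Pool.Agent.H914.VarClass.Obj
  Pool.Agent.H914.WeilCohomology
open Pool.Agent.Y121.AHS
open Pool.Agent.Y133.Half
open Pool.Agent.Y121.AH (hodgePred CW em em_zero)
open Pool.Agent.N996.BP.Geo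
open Pool.Agent.N996.FP (hodgeConjecture_BP)
open Pool.Agent.W437.CY Run7.h853.Cy
open Run7.h38.KF (cl_mem_alg exists_cyc')

variable {k : Type u} [Field k] {𝒱 : VarClass k} {ops : CycleOps 𝒱}

section AHS

variable {T : HodgeTheory ops} {X Y : 𝒱.Obj}

lemma comb_eq {N : ℕ} (b : Fin N → T.W.H X) (x : Fin N → ℂ) :
    comb T b x = lin (T := toH T) b x := rfl

lemma IsRealised.type {w N : ℕ} {V : PolHS w N} {m : ℕ} {b : Fin N → T.W.H X}
    (h : IsRealised T X V m b) (p : Fin (w + 1)) {x : Fin N → ℂ} (hx : x ∈ V.H p) :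
    lin (T := toH T) b x ∈ (toH T).pq X (p + m) (w - p + m) := h p x hx

lemma IsRealised.deg {w N : ℕ} {V : PolHS w N} {m : ℕ} {b : Fin N → T.W.H X}
    (h : IsRealised T X V m b) (i : Fin N) : b i ∈ T.W.gr X (w + 2 * m) :=
  real_deg (T := toH T) V (fun _ _ hx => h.type _ hx) i

lemma OfType.zero {w N : ℕ} {V : PolHS w N} {m : ℕ} (h : OfType T X V m) (p q : ℤ)
    (hpq : p ≠ q) (hs : p + q ≠ ((w + 2 * m : ℕ) : ℤ)) (x : (CW (toH T)).H X)
    (hx : x ∈ (toH T).pq X p q) : x = 0 := by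
  by_contra h0
  rcases h.2 p q x hx h0 with h1 | h1
  · exact hpq h1
  · exact hs (by push_cast; exact h1)

/-! ### The generated classes -/

section Gen

variable {B : 𝒱.Obj → Prop}

lemma Gen.mem_sp {c : T.W.H Y} (h : Gen T B Y c) : c ∈ (hodgePred (toH T)).sp Y := by
  induction h with
  | hodge _ h => exact ClassPred.sp_of (Q := hodgePred (toH T)) h
  | cyc h => exact ClassPred.alg_le (Q := hodgePred (toH T)) (cl_mem_alg h)
  | add _ _ ih ih' => exact Submodule.add_mem _ ih ih'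
  | mul _ _ ih ih' => exact (hodgePred (toH T)).sys.mul ih ih'
  | pull f _ ih => exact (hodgePred (toH T)).sys.map f ih
  | push f _ ih => exact (hodgePred (toH T)).sys.push f ih

lemma Gen.one (Y : 𝒱.Obj) : Gen T B Y 1 := by
  have h := Gen.cyc (T := T) (B := B) Y.V.fundCycle_mem
  rwa [clT, T.W.cl_fund Y] at h

lemma Gen.zero (Y : 𝒱.Obj) : Gen T B Y 0 := by
  have h := Gen.cyc (T := T) (B := B) (Y := Y) (j := 0) (z := 0) (SmVar.IsCyc.zero _ _)
  rwa [clT, map_zero] at h

lemma Gen.smul (r : T.W.K) {c : T.W.H Y} (hc : Gen T B Y c) : Gen T B Y (r • c) := by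
  obtain ⟨q, rfl⟩ := T.rat r
  have h1 : Gen T B Y ((q : T.W.K) • 1) := by
    have h := Gen.cyc (T := T) (B := B) (Y := Y) (z := q • Y.V.fundCycle)
      (SmVar.IsCyc.smul q Y.V.fundCycle_mem)
    rwa [clT, T.W.cl_smul, T.W.cl_fund] at h
  have h2 := Gen.mul h1 hc
  rwa [smul_one_mul] at h2

/-- The system of the generated classes. -/
noncomputable def genSys (T : HodgeTheory ops) (B : 𝒱.Obj → Prop) : Sys (toH T).W where
  C Y :=
    { carrier := {c | Gen T B Y c}
      add_mem' := fun ha hb => Gen.add ha hb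
      zero_mem' := Gen.zero Y
      smul_mem' := fun r _ hc => Gen.smul r hc }
  even hc := ClassPred.sp_even (Q := hodgePred (toH T)) (Gen.mem_sp hc)
  one Y := Gen.one Y
  mul ha hb := Gen.mul ha hb
  map f _ hc := Gen.pull f hc
  push f _ hc := Gen.push f hc

/-- The generated classes are algebraic if the generators are. -/
lemma Gen.alg (hB : ∀ P, B P → HodgeFor T P) {c : T.W.H Y} (h : Gen T B Y c) :
    c ∈ (algSys T.W).C Y := by
  induction h with
  | hodge hb h =>
    obtain ⟨z, hz, rfl⟩ := hB _ hb _ _ h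
    exact cl_mem_alg hz
  | cyc h => exact cl_mem_alg h
  | add _ _ ih ih' => exact Submodule.add_mem _ ih ih'
  | mul _ _ ih ih' => exact (algSys T.W).mul ih ih'
  | pull f _ ih => exact (algSys T.W).map f ih
  | push f _ ih => exact (algSys T.W).push f ih

lemma sp_le_genSys {P : 𝒱.Obj} (h : B P) :
    (hodgePred (toH T)).sp P ≤ (genSys T B).C P := by
  intro c hc
  refine ClassPred.sp_ind (Q := hodgePred (toH T)) (q := fun c => Gen T B P c) ?_ ?_ ?_ hc
  · intro j x hx; exact Gen.hodge h hx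
  · exact Gen.zero P
  · intro a b ha hb; exact Gen.add ha hb

end Gen

/-! ### The theorems -/

variable {ι J : Type} [Finite ι] [Finite J] {w N m : ι → ℕ} {w' N' m' : J → ℕ} {Z : 𝒱.Obj}
  {X : ι → 𝒱.Obj} {V : ∀ i, PolHS (w i) (N i)} {W : ∀ j, PolHS (w' j) (N' j)}

/-- **The theorem for families of classes.** -/
theorem main_S [Fintype ι] [DecidableEq ι] {n : ℕ} (hw : ∀ i, Odd (w i))
    (hV : ∀ i, GenericCY (V i)) (hX : ∀ i, OfType T (X i) (V i) (m i)) (hZ : n = 0 ∨ IsSumOf T Z W m')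
    (hi : ∀ i j, IsIndep (V i) (W j)) {S : Sys (toH T).W}
    (hB : ∀ P, IsBasic Z X V n P → (hodgePred (toH T)).sp P ≤ S.C P)
    (hY : ProductOf Z X n Y) : (hodgePred (toH T)).sp Y ≤ S.C Y := by
  classical
  obtain ⟨fJ⟩ := nonempty_fintype J
  obtain ⟨bZ, hbZ, hB0⟩ : ∃ bZ : (Σ j, Fin (N' j)) → T.W.H Z,
      (∀ j, IsRealised T Z (W j) (m' j) fun i => bZ ⟨j, i⟩) ∧
      (n ≠ 0 → ∃ B0 : Basis (Σ j, Fin (N' j)) T.W.K (T.W.H Z), ∀ x, B0 x = bZ x) := by
    rcases hZ with h | ⟨b, hb, hb'⟩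
    · refine ⟨fun _ => 0, fun j p x _ => ?_, fun h' => absurd h h'⟩
      have h1 : comb T (X := Z) (fun _ : Fin (N' j) => 0) x = 0 := by
        refine Finset.sum_eq_zero fun i _ => ?_
        have h2 : (emL T.W ℂ (0 : T.W.H Z)) = 0 := em_zero
        rw [h2]
        exact smul_zero (x i)
      rw [h1]
      exact Submodule.zero_mem _
    · exact ⟨b, hb, fun _ => exists_basis_all (T := toH T) hb'⟩
  choose b0 hb using fun i => (hX i).1
  choose b hbb using fun i => exists_basis_of (T := toH T) (hb i).2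
  choose A B hB1 hB2 using fun i => exists_basis (T := toH T) (b i)
    (isCompl_sp (T := toH T) (d := w i + 2 * m i) ((hw i).add_even (even_two_mul _))
      fun p q hpq hs x hx => (hX i).zero p q hpq hs x hx)
  let C : Cfg (toH T) ι := {
    Z := Z
    X := X
    J := J
    fJ := fJ
    dJ := inferInstance
    uu := w'
    ee := N'
    tt := m'
    W := W
    ww := w
    N := N
    mm := m
    Al := A
    V := V
    BZ := bZ
    BX := B
    hZdeg := fun j i => (hbZ j).deg i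
    hZtype := fun j p x hx => (hbZ j).type p hx
    hXdeg := fun i b' => by
      rw [hB1]
      exact Subtype.mem _
    hXtype := fun i p x hx => by
      have h1 : (fun b' => B i (Sum.inl b')) = b0 i :=
        funext fun b' => (hB1 i b').trans (hbb i b')
      rw [h1]
      exact (hb i).1.type p hx
    hA := fun i a => hB2 i a
    hodd := hw }
  exact Cfg.main_sys' (C := C) (fun i => (hV i).gen) (fun i j => (hi i j).indep) (fun i => hB _ (Or.inr (Or.inl ⟨i, rfl⟩)))
    (fun m hm => hB _ (Or.inl ⟨m, hm, rfl⟩))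
    (fun i j hl => hB _ (Or.inr (Or.inr ⟨i, j, hl, rfl⟩))) (C.frame hY hB0)

/-- **The theorem for families of classes, second form.** -/
theorem main_D {n : ℕ} (hw : ∀ i, Odd (w i))
    (hV : ∀ i, GenericCY (V i)) (hX : ∀ i, OfType T (X i) (V i) (m i)) (hZ : n = 0 ∨ IsSumOf T Z W m')
    (hi : ∀ i j, IsIndep (V i) (W j)) {S : Sys (toH T).W}
    (hcyc : ∀ (Y : 𝒱.Obj) (j : ℕ) (z : Y.Cycles), Y.IsCyc j z → T.W.cl Y z ∈ S.C Y)
    (hB : ∀ P, IsBasic Z X V n P → (hodgePred (toH T)).sp P ≤ S.C P)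
    (hY : Dominated T Z X n Y) : (hodgePred (toH T)).sp Y ≤ S.C Y := by
  classical
  obtain ⟨fι⟩ := nonempty_fintype ι
  have key : ∀ P, IsProduct Z X n P → (hodgePred (toH T)).sp P ≤ S.C P := by
    rintro P ⟨r, hr, hP⟩
    refine main_S hw hV hX (hZ.imp_left fun h => by omega) hi (fun P hP => hB P ?_) hP
    rcases hP with ⟨s, hs, rfl⟩ | hP
    · exact Or.inl ⟨s, lt_of_lt_of_le hs hr, rfl⟩
    · exact Or.inr hP
  have hcorr : ∀ {Y Y' : 𝒱.Obj} (S' : Sys (toH T).W) {z : (Y.prod Y').Cycles} {c : T.W.H Y},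
      T.W.cl (Y.prod Y') z ∈ S'.C (Y.prod Y') → c ∈ S'.C Y → corrT T z c ∈ S'.C Y' := by
    intro Y Y' S' z c hz hc
    exact S'.push (snd Y Y') (S'.mul hz (S'.map (fst Y Y') hc))
  rcases hY with hY | ⟨r, P, a, b, u, v, hP, hid⟩
  · exact key Y hY
  · intro c hc
    rw [← hid c]
    refine Submodule.sum_mem _ fun i _ => ?_
    have hu : corrT T (u i) c ∈ (hodgePred (toH T)).sp (P i) :=
      hcorr (hodgePred (toH T)).sys
        (ClassPred.alg_le (Q := hodgePred (toH T)) (cl_mem_alg (hP i).2.1)) hc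
    exact hcorr S (hcyc _ _ _ (hP i).2.2) (key (P i) (hP i).1 hu)

lemma pw_product (m : ℕ) : ProductOf Z X (m + 1) (pw Z m) := by
  induction m with
  | zero => exact ProductOf.left
  | succ m ih => exact ProductOf.prod ih ProductOf.left

/-- The basic varieties are products. -/
lemma IsBasic.dominated {n : ℕ} {P : 𝒱.Obj} (h : IsBasic Z X V n P) :
    Dominated T Z X n P := by
  left
  rcases h with ⟨s, hs, rfl⟩ | ⟨i, rfl⟩ | ⟨i, j, _, rfl⟩
  · exact ⟨s + 1, hs, pw_product s⟩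
  · exact ⟨0, Nat.zero_le _, ProductOf.right i⟩
  · exact ⟨0, Nat.zero_le _, ProductOf.prod (n := 0) (m := 0) (ProductOf.right i)
      (ProductOf.right j)⟩

/-- **The final theorem.** -/
theorem final {n : ℕ} (hw : ∀ i, Odd (w i))
    (hV : ∀ i, GenericCY (V i)) (hX : ∀ i, OfType T (X i) (V i) (m i)) (hZ : n = 0 ∨ IsSumOf T Z W m')
    (hi : ∀ i j, IsIndep (V i) (W j)) :
    (∀ Y, Dominated T Z X n Y → ∀ (j : ℕ) (c : T.W.H Y), IsHodge T Y j c →
      Gen T (IsBasic Z X V n) Y c) ∧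
    ((∀ Y, Dominated T Z X n Y → HodgeFor T Y) ↔
      ∀ P, IsBasic Z X V n P → HodgeFor T P) := by
  have h1 : ∀ Y, Dominated T Z X n Y → ∀ (j : ℕ) (c : T.W.H Y), IsHodge T Y j c →
      Gen T (IsBasic Z X V n) Y c := fun Y hY j c hc =>
    main_D hw hV hX hZ hi (S := genSys T (IsBasic Z X V n)) (fun _ _ _ hz => Gen.cyc hz)
      (fun P hP => sp_le_genSys hP) hY (ClassPred.sp_of (Q := hodgePred (toH T)) hc)
  refine ⟨h1, fun h P hP => h P hP.dominated, fun h Y hY => ?_⟩
  intro j c hc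
  exact exists_cyc' T Y j c (Gen.alg h (h1 Y hY j c hc)) hc.1

end AHS

end Run7.h853.Cg
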