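import Mathlib
import Pool.Agent.W437.CY.Defs

/-!
# Hodge structures of Calabi-Yau type: definitions
-/

set_option linter.unusedSectionVars false

namespace Run7.h853.Cg

open Matrix Pool.Agent.W437.CY

/-- The rational matrix as a complex matrix. -/
def cx {a b : Type} (A : Matrix a b ℚ) : Matrix a b ℂ := A.map fun t : ℚ => (t : ℂ)

/-- The part of the complexification of `V` where `p - q = a`. -/
def part {k N : ℕ} (V : PolHS k N) (a : ℤ) : Submodule ℂ (Fin N → ℂ) :=
  ⨆ (p : Fin (k + 1)) (_ : 2 * (p : ℤ) - k = a), V.H p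

section Two

variable {k N w e : ℕ} (V : PolHS k N) (W : PolHS w e)

/-- The rational linear map with the matrix `A` is a morphism of Hodge structures from `V` to `W`,
up to a Tate twist: it preserves the decompositions by `p - q`. -/
def IsMor (A : Matrix (Fin e) (Fin N) ℚ) : Prop := ∀ a, ∀ x ∈ part V a, cx A *ᵥ x ∈ part W a

/-- The rational linear map with the matrix `A` is an endomorphism of the Hodge structure `V`. -/
def IsEnd (A : Matrix (Fin N) (Fin N) ℚ) : Prop := IsMor V V A

/-- The dimension of the algebra of the endomorphisms of `V` over the rational numbers. -/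
noncomputable def degEnd : ℕ := Module.finrank ℚ (Submodule.span ℚ {A | IsEnd V A})

/-- All the endomorphisms of the Hodge structure are self-adjoint for the polarization. (For a
simple Hodge structure: the endomorphisms are a totally real number field.) -/
def RealEnd : Prop := ∀ A, IsEnd V A → Aᵀ * V.Q = V.Q * A

/-- The complex endomorphism `B` is of type `(r, -r)`. -/
def IsShift (r : ℤ) (B : Matrix (Fin N) (Fin N) ℂ) : Prop :=
  ∀ a, ∀ x ∈ part V a, B *ᵥ x ∈ part V (a + 2 * r)

/-- The complexification of the space `E I + E J + E I J`, where `E` is the algebra of the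
endomorphisms of the Hodge structure. -/
def quatSp (I J : Matrix (Fin N) (Fin N) ℚ) : Submodule ℂ (Matrix (Fin N) (Fin N) ℂ) :=
  Submodule.span ℂ {B | ∃ A, IsEnd V A ∧ (B = cx (A * I) ∨ B = cx (A * J) ∨ B = cx (A * (I * J)))}

/-- The Hodge structure is of tensor type over its algebra of endomorphisms `E`: among the
`E`-linear endomorphisms of the rational vector space there are `I` and `J` which generate a
quaternion algebra over `E` (`I²` and `J²` are nonzero elements of `E`, and `J I = - I J`), such
that `E I + E J + E I J` is a sub-Hodge structure of the Hodge structure of all the endomorphisms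
of the rational vector space: its complexification is spanned by elements of types `(r, -r)`. -/
def IsTensor : Prop :=
  ∃ I J : Matrix (Fin N) (Fin N) ℚ, (∀ A, IsEnd V A → A * I = I * A ∧ A * J = J * A) ∧
    IsEnd V (I * I) ∧ IsEnd V (J * J) ∧ I * I ≠ 0 ∧ J * J ≠ 0 ∧ J * I = -(I * J) ∧
    quatSp V I J ≤ Submodule.span ℂ {B | B ∈ quatSp V I J ∧ ∃ r, IsShift V r B}

/-- There are no nonzero Hodge classes in `Sym⁴ V`: a symmetric rational tensor in `V^{⊗ 4}`, with
coefficients `c`, which is a complex linear combination of products of four vectors in the parts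
`a 0`, ..., `a 3` with sum zero, is zero. -/
def NoSymFour : Prop :=
  ∀ c : (Fin 4 → Fin N) → ℚ, (∀ (e : Equiv.Perm (Fin 4)) I, c (fun j => I (e j)) = c I) →
    (fun I => (c I : ℂ)) ∈ Submodule.span ℂ {F | ∃ (x : Fin 4 → Fin N → ℂ)
      (a : Fin 4 → ℤ), (∀ j, x j ∈ part V (a j)) ∧ ∑ j, a j = 0 ∧
      F = fun I => ∏ j, x j (I j)} → c = 0

/-- The Hodge structure `V` of weight `k` is simple with `H^{k,0}` of dimension one, and

* there are no nonzero Hodge classes in `Sym⁴ V`; or
* the weight is three, the endomorphisms are self-adjoint (they are a totally real number field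
  `E`), `V` is not of tensor type over `E`, and the dimension of `V` over `E` is not 4, 8, 14, 20,
  32, 56. -/
def GenericCY : Prop :=
  V.IsSimple ∧ Module.finrank ℂ (part V k) = 1 ∧
    (NoSymFour V ∨ k = 3 ∧ RealEnd V ∧ ¬IsTensor V ∧
      ∀ m ∈ ({4, 8, 14, 20, 32, 56} : Finset ℕ), N ≠ m * degEnd V)

/-- There are no nonzero Hodge classes in `Sym² V ⊗ W ⊗ W`: a rational tensor in `V ⊗ V ⊗ W ⊗ W`,
with coefficients `c`, symmetric in the first two factors, is zero if it is a complex linear
combination of products `x ⊗ y ⊗ z ⊗ u` of vectors in the parts `a`, `b`, `c`, `d` with sum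
zero. -/
def NoSymTwo : Prop :=
  ∀ f : (Fin N × Fin N) × (Fin e × Fin e) → ℚ, (∀ i j s, f ((i, j), s) = f ((j, i), s)) →
    (fun I => (f I : ℂ)) ∈ Submodule.span ℂ {F | ∃ (a b c d : ℤ), a + b + c + d = 0 ∧
      ∃ x ∈ part V a, ∃ y ∈ part V b, ∃ z ∈ part W c, ∃ u ∈ part W d,
      F = fun I => x I.1.1 * y I.1.2 * z I.2.1 * u I.2.2} → f = 0

/-- `W` is independent of `V`: the level of `W` (the maximal `|p - q|`) is less than the weight `k`
of `V`, or the dimension of `W` is less than the dimension of `V` over its algebra of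
endomorphisms, or there are no nonzero Hodge classes in `Sym² V ⊗ W ⊗ W`. -/
def IsIndep : Prop :=
  (∀ a : ℤ, k ≤ |a| → part W a = ⊥) ∨ e * degEnd V < N ∨ NoSymTwo V W

end Two

/-- The Hodge structures `V i` and `V j` are linked: if `i` and `j` are different, there is a
nonzero morphism from `V i` to `V j` (up to a Tate twist), and if `i = j`, there is an endomorphism
of the Hodge structure `V i` which is not a rational number. -/
def Linked {ι : Type} {k N : ι → ℕ} (V : ∀ i, PolHS (k i) (N i)) (i j : ι) : Prop :=
  (i = j ∧ ∃ A, IsEnd (V i) A ∧ ∀ t : ℚ, A ≠ t • 1) ∨ (i ≠ j ∧ ∃ A, A ≠ 0 ∧ IsMor (V i) (V j) A)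

end Run7.h853.Cg
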