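import Pool.Agent.Y121.AHS.Defs
import Pool.Agent.Y133.Half.PwDefs
import Pool.Agent.Run7.h853.Cg.HDefs

/-!
# Varieties of Calabi-Yau type and generated classes: definitions

In the intended use the varieties are the smooth projective ones over the field of complex numbers
and `T` is the theory `X ↦ H(X, ℚ)`.
-/

open CategoryTheory AlgebraicGeometry

universe u

namespace Run7.h853.Cg

open Module
open Pool.Agent.H914 Pool.Agent.H914.VarClass Pool.Agent.H914.VarClass.Obj
  Pool.Agent.H914.WeilCohomology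
open Pool.Agent.Y121.AHS
open Pool.Agent.Y133.Half (pw)
open Pool.Agent.W437.CY

section Algebra

variable {K A B : Type} [Field K] [Ring A] [Algebra K A] [Ring B] [Algebra K B]

/-- The value of a linear map. -/
def app (l : A →ₗ[K] B) (x : A) : B := l x

/-- The elements `b i` are a basis of the subspace `U`. -/
def IsBasisOf {I : Type} (U : Submodule K A) (b : I → A) : Prop :=
  LinearIndependent K b ∧ Submodule.span K (Set.range b) = U

/-- The elements `b i` are a basis of the space. -/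
def IsBasisAll (K : Type) {A I : Type} [Field K] [Ring A] [Algebra K A] (b : I → A) : Prop :=
  IsBasisOf (⊤ : Submodule K A) b

end Algebra

variable {k : Type u} [Field k] {𝒱 : VarClass k} {ops : CycleOps 𝒱}

/-- The class `∑ x i ⊗ b i`. -/
noncomputable def comb (T : HodgeTheory ops) {X : 𝒱.Obj} {N : ℕ} (b : Fin N → T.W.H X)
    (x : Fin N → ℂ) : HL T.W ℂ X :=
  ∑ i, smL (x i) (emL T.W ℂ (b i))

/-- The rational classes `b i` on `X` define a morphism of Hodge structures `V(-m) → H(X)`: the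
class `∑ x i ⊗ b i` is of type `(p + m, w - p + m)` for all `x` in `H^{p, w - p}`. -/
def IsRealised (T : HodgeTheory ops) (X : 𝒱.Obj) {w N : ℕ} (V : PolHS w N) (m : ℕ)
    (b : Fin N → T.W.H X) : Prop :=
  ∀ p, ∀ x ∈ V.H p, IsType T.pq (p + m) (w - p + m) (comb T b x)

/-- The variety `X` is of type `V(-m)`: `H^{w + 2 m}(X)` is isomorphic to the Hodge structure
`V(-m)`, and the Hodge numbers `h^{p, q}` with `p ≠ q` in all other degrees are zero. (For a
Calabi-Yau threefold: `V = H^3(X)`, `m = 0`.) -/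
def OfType (T : HodgeTheory ops) (X : 𝒱.Obj) {w N : ℕ} (V : PolHS w N) (m : ℕ) : Prop :=
  (∃ b : Fin N → T.W.H X, IsRealised T X V m b ∧ IsBasisOf (T.W.gr X (w + 2 * m)) b) ∧
    ∀ (p q : ℤ) (x : HL T.W ℂ X), IsType T.pq p q x → x ≠ 0 → p = q ∨ p + q = w + 2 * m

/-- The cohomology of `Z` is isomorphic to the direct sum of the Hodge structures `W j (-t j)`. -/
def IsSumOf (T : HodgeTheory ops) (Z : 𝒱.Obj) {J : Type} {w e : J → ℕ}
    (W : ∀ j, PolHS (w j) (e j)) (t : J → ℕ) : Prop :=
  ∃ b : (Σ j, Fin (e j)) → T.W.H Z, (∀ j, IsRealised T Z (W j) (t j) fun i => b ⟨j, i⟩) ∧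
    IsBasisAll T.W.K b

/-- The pull-back. -/
noncomputable def pull (T : HodgeTheory ops) {X Y : 𝒱.Obj} (f : X ⟶ Y) (c : T.W.H Y) : T.W.H X :=
  app (T.W.map f).toLinearMap c

/-- The push-forward. -/
noncomputable def push (T : HodgeTheory ops) {X Y : 𝒱.Obj} (f : X ⟶ Y) (c : T.W.H X) : T.W.H Y :=
  app (T.W.push f) c

/-- The class of the cycle `z`. -/
noncomputable def clT (T : HodgeTheory ops) (Y : 𝒱.Obj) (z : Y.Cycles) : T.W.H Y := T.W.cl Y z

/-- The correspondence `H(X) → H(Y)`, `x ↦ pr₂_* (cl z · pr₁^* x)`, given by the cycle `z` on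
`X × Y`. -/
noncomputable def corrT (T : HodgeTheory ops) {X Y : 𝒱.Obj} (z : (X.prod Y).Cycles)
    (x : T.W.H X) : T.W.H Y :=
  push T (snd X Y) (clT T (X.prod Y) z * pull T (fst X Y) x)

/-- The Hodge conjecture for `Y`: every Hodge class on `Y` is the class of an algebraic cycle (with
rational coefficients). -/
def HodgeFor (T : HodgeTheory ops) (Y : 𝒱.Obj) : Prop :=
  ∀ (j : ℕ) (c : T.W.H Y), IsHodge T Y j c → ∃ z, Y.IsCyc j z ∧ clT T Y z = c

section Products

variable {ι : Type}

/-- `Y` is a product of `n` copies of `Z` and of any number of copies of the `X i`. -/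
inductive ProductOf (Z : 𝒱.Obj) (X : ι → 𝒱.Obj) : ℕ → 𝒱.Obj → Prop
  | left : ProductOf Z X 1 Z
  | right (i : ι) : ProductOf Z X 0 (X i)
  | prod {n m : ℕ} {Y Y' : 𝒱.Obj} : ProductOf Z X n Y → ProductOf Z X m Y' →
      ProductOf Z X (n + m) (Y.prod Y')

/-- `Y` is a product of at most `n` copies of `Z` and of any number of copies of the `X i`. -/
def IsProduct (Z : 𝒱.Obj) (X : ι → 𝒱.Obj) (n : ℕ) (Y : 𝒱.Obj) : Prop :=
  ∃ m ≤ n, ProductOf Z X m Y

/-- `Y` is a product of at most `n` copies of `Z` and of any number of copies of the `X i`, or the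
cohomology of `Y` comes from such products by algebraic correspondences: the identity of `H(Y)` is
a finite sum of compositions `H(Y) → H(P) → H(Y)` of correspondences given by algebraic cycles,
where the `P` are such products. -/
def Dominated (T : HodgeTheory ops) (Z : 𝒱.Obj) (X : ι → 𝒱.Obj) (n : ℕ) (Y : 𝒱.Obj) : Prop :=
  IsProduct Z X n Y ∨
    ∃ (r : ℕ) (P : Fin r → 𝒱.Obj) (a b : Fin r → ℕ) (u : ∀ i, (Y.prod (P i)).Cycles)
      (v : ∀ i, ((P i).prod Y).Cycles), (∀ i, IsProduct Z X n (P i) ∧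
      (Y.prod (P i)).IsCyc (a i) (u i) ∧ ((P i).prod Y).IsCyc (b i) (v i)) ∧
      ∀ y : T.W.H Y, ∑ i, corrT T (v i) (corrT T (u i) y) = y

/-- The basic varieties: the powers `Z ^ (m + 1)` with `m < n`, the varieties `X i`, and the
products `X i × X j` for the linked pairs `(i, j)`. -/
def IsBasic (Z : 𝒱.Obj) (X : ι → 𝒱.Obj) {w N : ι → ℕ} (V : ∀ i, PolHS (w i) (N i)) (n : ℕ)
    (Y : 𝒱.Obj) : Prop :=
  (∃ m < n, Y = pw Z m) ∨ (∃ i, Y = X i) ∨ ∃ i j, Linked V i j ∧ Y = (X i).prod (X j)

end Products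

/-- The classes generated by the Hodge classes on the varieties with the property `B` and by the
classes of algebraic cycles: the smallest system of classes on all varieties which contains these
classes and is stable under sums, cup products, pull-backs and push-forwards. (It is stable under
linear combinations, since the multiples of the unit are classes of cycles.) -/
inductive Gen (T : HodgeTheory ops) (B : 𝒱.Obj → Prop) : ∀ Y : 𝒱.Obj, T.W.H Y → Prop
  | hodge {Y : 𝒱.Obj} {j : ℕ} {c : T.W.H Y} : B Y → IsHodge T Y j c → Gen T B Y c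
  | cyc {Y : 𝒱.Obj} {j : ℕ} {z : Y.Cycles} : Y.IsCyc j z → Gen T B Y (clT T Y z)
  | add {Y : 𝒱.Obj} {c d : T.W.H Y} : Gen T B Y c → Gen T B Y d → Gen T B Y (c + d)
  | mul {Y : 𝒱.Obj} {c d : T.W.H Y} : Gen T B Y c → Gen T B Y d → Gen T B Y (c * d)
  | pull {Y Y' : 𝒱.Obj} (f : Y ⟶ Y') {c : T.W.H Y'} : Gen T B Y' c →
      Gen T B Y (pull T f c)
  | push {Y Y' : 𝒱.Obj} (f : Y ⟶ Y') {c : T.W.H Y} : Gen T B Y c →
      Gen T B Y' (push T f c)

end Run7.h853.Cg
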