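import Pool.Agent.Run7.h853.Cg.A9
import Pool.Agent.Run7.h853.Cg.Defs
import Pool.Agent.Run7.h38.KF.Fin

/-!
# The construction of the data
-/

set_option linter.unusedSectionVars false

open CategoryTheory AlgebraicGeometry TensorProduct

universe u

namespace Run7.h853.Cg

open Module
open Pool.Agent.H914 Pool.Agent.H914.VarClass Pool.Agent.H914.VarClass.Obj
  Pool.Agent.H914.WeilCohomology
open Pool.Agent.Y133.Half Pool.Agent.Y121.AH Pool.Agent.N996.BP.Geo
open Pool.Agent.W437.HP (cK)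
open Pool.Agent.W437.CY Run7.h853.Cy

variable {k : Type u} [Field k] {𝒱 : VarClass k} {ops : CycleOps 𝒱}

section AH

variable {T : HodgeTheory ops} {X : 𝒱.Obj}

/-- The classes of the other degrees. -/
lemma gr_le_sp {d : ℕ} (h : ∀ p q : ℤ, p ≠ q → p + q = d → ∀ x ∈ T.pq X p q, x = 0) :
    T.W.gr X d ≤ (hodgePred T).sp X := by
  intro c hc
  apply sp_of_dop
  refine Submodule.iSup_induction (fun r : {r : ℤ × ℤ // r.1 + r.2 = d} => T.pq X r.1.1 r.1.2)
    (motive := fun x => dop T X x = 0) (T.dec.span hc) ?_ ?_ ?_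
  · rintro ⟨⟨p, q⟩, hr⟩ x hx
    have hr' : p + q = d := hr
    by_cases h1 : p = q
    · subst h1
      have h2 : x ∈ T.pq X p p := hx
      rw [dop_pq h2, sub_self, Int.cast_zero, zero_smul]
    · rw [h p q h1 hr' x hx, map_zero]
  · exact map_zero _
  · intro x y hx hy
    rw [map_add, hx, hy, add_zero]

lemma disj_par {x : T.W.H X} (h0 : x ∈ PH T.W X 0) (h1 : x ∈ PH T.W X 1) : x = 0 := by
  have h3 := PH.par h1
  rw [PH.par h0, pow_zero, pow_one, one_smul, neg_smul, one_smul] at h3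
  have h4 : (2 : T.W.K) • x = 0 := by
    rw [two_smul]
    nth_rewrite 1 [h3]
    exact neg_add_cancel _
  exact (smul_eq_zero.1 h4).resolve_left two_ne_zero

/-- The decomposition of the cohomology. -/
lemma isCompl_sp {d : ℕ} (hd : Odd d)
    (h : ∀ p q : ℤ, p ≠ q → p + q ≠ d → ∀ x ∈ T.pq X p q, x = 0) :
    IsCompl (T.W.gr X d) ((hodgePred T).sp X) := by
  constructor
  · rw [Submodule.disjoint_def]
    intro x hx hx'
    refine disj_par (ClassPred.sp_even (Q := hodgePred T) hx') (PH.of' ?_ hx)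
    obtain ⟨r, hr⟩ := hd
    omega
  · rw [codisjoint_iff, eq_top_iff]
    intro x _
    refine gr_induction (T.W.isInternal X) (p := fun x => x ∈ T.W.gr X d ⊔ (hodgePred T).sp X)
      ?_ ?_ x
    · intro j x hx
      by_cases hj : j = d
      · subst hj
        exact Submodule.mem_sup_left hx
      · refine Submodule.mem_sup_right (gr_le_sp (fun p q hpq hs y hy => ?_) hx)
        refine h p q hpq (fun h' => hj ?_) y hy
        have h'' : (j : ℤ) = d := by rw [← hs, h']
        exact_mod_cast h''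
    · intro x y hx hy
      exact Submodule.add_mem _ hx hy

/-- The basis of the cohomology. -/
lemma exists_basis {d N : ℕ} (b : Basis (Fin N) T.W.K (T.W.gr X d))
    (h : IsCompl (T.W.gr X d) ((hodgePred T).sp X)) :
    ∃ (A : ℕ) (B : Basis (Fin N ⊕ Fin A) T.W.K (T.W.H X)),
      (∀ i, B (Sum.inl i) = (b i : T.W.H X)) ∧ ∀ a, B (Sum.inr a) ∈ (hodgePred T).sp X := by
  refine ⟨_, (b.prod (finBasis T.W.K ((hodgePred T).sp X))).map
    (Submodule.prodEquivOfIsCompl _ _ h), ?_, ?_⟩
  · intro i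
    rw [Basis.map_apply, Submodule.coe_prodEquivOfIsCompl', Basis.prod_apply_inl_fst,
      Basis.prod_apply_inl_snd]
    exact add_zero _
  · intro a
    rw [Basis.map_apply, Submodule.coe_prodEquivOfIsCompl', Basis.prod_apply_inr_fst,
      Basis.prod_apply_inr_snd]
    refine Submodule.add_mem _ ?_ (Subtype.mem _)
    exact Submodule.zero_mem _

/-- The degrees of the classes of a realisation. -/
lemma real_deg {w N m : ℕ} (V : PolHS w N) {b : Fin N → T.W.H X}
    (h : ∀ p, ∀ x ∈ V.H p, lin b x ∈ T.pq X (p + m) (w - p + m)) (i : Fin N) :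
    b i ∈ T.W.gr X (w + 2 * m) := by
  have h1 : ∀ x : Fin N → ℂ, lin b x ∈ (CW T).gr X (w + 2 * m) := by
    intro x
    rw [← V.pl_sum x, lin_sum]
    refine Submodule.sum_mem _ fun p _ => ?_
    refine T.dec.le X (p := ((p : ℕ) : ℤ) + m) (q := w - ((p : ℕ) : ℤ) + m) (i := w + 2 * m) ?_
      (h p _ (V.pl_mem p x))
    push_cast
    ring
  have h2 := h1 (Pi.single i 1)
  rw [lin_single] at h2
  exact mem_of_em_mem (L := ℂ) h2

lemma exists_basis_of {I : Type} {U : Submodule T.W.K (T.W.H X)} {b : I → T.W.H X}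
    (h : IsBasisOf U b) : ∃ B : Basis I T.W.K U, ∀ i, (B i : T.W.H X) = b i := by
  obtain ⟨h1, h2⟩ := h
  subst h2
  exact ⟨Basis.span h1, fun i => congrArg Subtype.val (Basis.span_apply h1 i)⟩

lemma exists_basis_all {I : Type} {b : I → T.W.H X}
    (h : IsBasisAll T.W.K b) : ∃ B : Basis I T.W.K (T.W.H X), ∀ i, B i = b i :=
  ⟨Basis.mk h.1 h.2.ge, fun i => Basis.mk_apply h.1 h.2.ge i⟩

variable {ι : Type} [Fintype ι] [DecidableEq ι]

/-- The frame of a product. -/
lemma Cfg.frame (C : Cfg T ι) {n : ℕ} {Y : 𝒱.Obj} (hY : ProductOf C.Z C.X n Y)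
    (hB : n ≠ 0 → ∃ B0 : Basis (Σ j, Fin (C.ee j)) T.W.K (T.W.H C.Z), ∀ x, B0 x = C.BZ x) :
    HasFrame C.rr C.vt none n Y := by
  induction hY with
  | left =>
    obtain ⟨B0, hB0⟩ := hB one_ne_zero
    obtain ⟨B, hB⟩ := C.basis_none hB0
    exact HasFrame.base (XX := C.XX) none (fun _ => le_rfl) B hB
  | right i =>
    obtain ⟨B, hB⟩ := C.basis_some i
    exact HasFrame.base (XX := C.XX) (some i) (fun h => by cases h) B hB
  | prod _ _ ih ih' =>
    exact (ih fun h => hB (by omega)).prod (ih' fun h => hB (by omega))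

end AH

end Run7.h853.Cg
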