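import Pool.Agent.Run7.h853.Cg.Defs

/-!
# Absolutely Hodge classes: definitions
-/

open CategoryTheory AlgebraicGeometry

universe u

namespace Run7.h853.Cg

open Pool.Agent.H914 Pool.Agent.H914.VarClass Pool.Agent.H914.VarClass.Obj
  Pool.Agent.H914.WeilCohomology
open Pool.Agent.Y121.AHS

variable {k : Type u} [Field k] {𝒱 : VarClass k} {ops : CycleOps 𝒱}

/-- Every Hodge class on `Y` is absolutely Hodge. -/
def AbsHodgeFor {T : HodgeTheory ops} (D : Conjugates T) (Y : 𝒱.Obj) : Prop :=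
  ∀ (j : ℕ) (c : T.W.H Y), IsHodge T Y j c → IsAbsHodge D Y j c

end Run7.h853.Cg
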