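import Pool.Agent.Run7.h38.KF.Prod

/-!
# The derivation `p - q` of the cohomology with complex coefficients
-/

set_option linter.unusedSectionVars false

open CategoryTheory AlgebraicGeometry TensorProduct

universe u

namespace Run7.h853.Cg

open Module
open Pool.Agent.H914 Pool.Agent.H914.VarClass Pool.Agent.H914.VarClass.Obj
  Pool.Agent.H914.WeilCohomology
open Pool.Agent.Y133.Half Pool.Agent.Y121.AH Pool.Agent.N996.BP.Geo

section Alg

variable {K V : Type*} [Field K] [AddCommGroup V] [Module K V] {ι : Type} [DecidableEq ι]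
  {gr : ι → Submodule K V}

lemma dia_of_dia (h : DirectSum.IsInternal gr) {f g : ι → K} (hfg : ∀ i, f i = 0 → g i = 1)
    {a : V} (ha : dia h f a = 0) : dia h g a = a := by
  obtain ⟨x, hx⟩ : ∃ x : DirectSum ι fun i => gr i, DirectSum.coeLinearMap gr x = a := h.2 a
  classical
  have e1 : ∀ (f : ι → K) (x : DirectSum ι fun i => gr i),
      dia h f (DirectSum.coeLinearMap gr x) = DirectSum.coeLinearMap gr
        (DirectSum.lmap (fun i => (f i • LinearMap.id : gr i →ₗ[K] gr i)) x) := by
    intro f x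
    rw [dia, LinearMap.comp_apply, LinearMap.comp_apply]
    congr 2
    change (LinearEquiv.ofBijective (DirectSum.coeLinearMap gr) h).symm
      (LinearEquiv.ofBijective (DirectSum.coeLinearMap gr) h x) = x
    exact LinearEquiv.symm_apply_apply _ _
  rw [← hx, e1] at ha
  have h0 : DirectSum.lmap (fun i => (f i • LinearMap.id : gr i →ₗ[K] gr i)) x = 0 := by
    apply h.1
    change DirectSum.coeLinearMap gr _ = DirectSum.coeLinearMap gr 0
    rw [ha, map_zero]
  rw [← hx, e1]
  congr 1
  ext i
  have h2 : (DirectSum.lmap (fun i => (g i • LinearMap.id : gr i →ₗ[K] gr i)) x) i =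
      g i • x i := rfl
  have h3 : (DirectSum.lmap (fun i => (f i • LinearMap.id : gr i →ₗ[K] gr i)) x) i =
      f i • x i := rfl
  have h4 : f i • x i = 0 := by
    rw [← h3, h0]
    rfl
  rw [h2]
  rcases smul_eq_zero.1 h4 with h5 | h5
  · rw [hfg i h5, one_smul]
  · rw [h5, smul_zero]

end Alg

variable {k : Type u} [Field k] {𝒱 : VarClass k} {ops : CycleOps 𝒱} (T : HodgeTheory ops)
  {X Y : 𝒱.Obj}

/-- The derivation `p - q`. -/
noncomputable def dop (X : 𝒱.Obj) : Module.End (CW T).K ((CW T).H X) :=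
  dia (isInternal T X) fun r => ((r.1 - r.2 : ℤ) : (CW T).K)

variable {T}

lemma dop_pq {p q : ℤ} {x : (CW T).H X} (hx : x ∈ T.pq X p q) :
    dop T X x = ((p - q : ℤ) : (CW T).K) • x :=
  dia_apply (isInternal T X) _ (i := (p, q)) hx

lemma dop_mul (x y : (CW T).H X) : dop T X (x * y) = dop T X x * y + x * dop T X y := by
  refine pq_ind T (p := fun x => dop T X (x * y) = dop T X x * y + x * dop T X y) ?_ ?_ ?_ x
  · intro a b x hx
    refine pq_ind T (p := fun y => dop T X (x * y) = dop T X x * y + x * dop T X y) ?_ ?_ ?_ y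
    · intro c d y hy
      rw [dop_pq hx, dop_pq hy, dop_pq (T.dec.mul hx hy), smul_mul_assoc, mul_smul_comm,
        ← add_smul]
      congr 1
      push_cast
      ring
    · intro y z hy hz
      rw [mul_add, map_add, hy, hz, map_add, mul_add, mul_add]
      abel
    · rw [mul_zero, map_zero, mul_zero, mul_zero, add_zero]
  · intro x z hx hz
    rw [add_mul, map_add, hx, hz, map_add, add_mul, add_mul]
    abel
  · rw [zero_mul, map_zero, zero_mul, zero_mul, add_zero]

lemma dop_map (f : X ⟶ Y) (y : (CW T).H Y) :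
    dop T X ((CW T).map f y) = (CW T).map f (dop T Y y) := by
  refine pq_ind T (p := fun y => dop T X ((CW T).map f y) = (CW T).map f (dop T Y y))
    ?_ ?_ ?_ y
  · intro a b y hy
    rw [dop_pq hy, dop_pq (T.dec.map f hy), map_smul]
  · intro y z hy hz; rw [map_add, map_add, hy, hz, map_add, map_add]
  · rw [map_zero, map_zero, map_zero, map_zero]

lemma dop_hodge {j : ℕ} {c : T.W.H X} (hc : IsHodge T X j c) :
    dop T X (em T.W ℂ c) = 0 := by
  rw [dop_pq hc.2, sub_self, Int.cast_zero, zero_smul]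

lemma dop_one : dop T X (1 : (CW T).H X) = 0 := by
  rw [← em_one]
  exact dop_hodge isHodge_one

/-- The Hodge classes are killed by the derivation. -/
lemma dop_sp {c : T.W.H X} (hc : c ∈ (hodgePred T).sp X) : dop T X (em T.W ℂ c) = 0 := by
  refine ClassPred.sp_ind (Q := hodgePred T) (q := fun c => dop T X (em T.W ℂ c) = 0)
    ?_ ?_ ?_ hc
  · intro j x hx; exact dop_hodge hx
  · rw [em_zero, map_zero]
  · intro a b ha hb; rw [em_add, map_add, ha, hb, add_zero]

/-- The classes killed by the derivation are Hodge classes. -/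
lemma sp_of_dop {c : T.W.H X} (hc : dop T X (em T.W ℂ c) = 0) : c ∈ (hodgePred T).sp X := by
  rw [← inv_iff]
  intro t _
  refine dia_of_dia (isInternal T X) ?_ hc
  intro r hr
  have h1 : r.1 - r.2 = 0 := by exact_mod_cast hr
  rw [h1, zpow_zero]

lemma dop_iff {c : T.W.H X} : dop T X (em T.W ℂ c) = 0 ↔ c ∈ (hodgePred T).sp X :=
  ⟨sp_of_dop, dop_sp⟩

end Run7.h853.Cg
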