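import Pool.Agent.Run7.h853.Cg.A1
import Pool.Agent.W437.HC.Act

/-!
# The classes of tensors
-/

set_option linter.unusedSectionVars false

open CategoryTheory AlgebraicGeometry TensorProduct

universe u

namespace Run7.h853.Cg

open Module
open Pool.Agent.H914 Pool.Agent.H914.VarClass Pool.Agent.H914.VarClass.Obj
  Pool.Agent.H914.WeilCohomology
open Pool.Agent.Y133.Half Pool.Agent.Y121.AH Pool.Agent.N996.BP.Geo
open Pool.Agent.W437.HC (actk)

variable {k : Type u} [Field k] {𝒱 : VarClass k} {ops : CycleOps 𝒱}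

section W

variable {W : WeilCohomology.{u, 0} ops} {Y Y' : 𝒱.Obj} {β κ κ' : Type} [Fintype β]
  [Fintype κ] [DecidableEq κ] [Fintype κ'] [DecidableEq κ']

/-- The class of a word. -/
noncomputable def wd (ev : κ → β → W.H Y) (L : List κ) (I : κ → β) : W.H Y :=
  (L.map fun a => ev a (I a)).prod

/-- The class of a tensor. -/
noncomputable def wcl (ev : κ → β → W.H Y) (L : List κ) (c : (κ → β) → ℚ) : W.H Y :=
  ∑ I, ((c I : ℚ) : W.K) • wd ev L I

lemma wd_cons (ev : κ → β → W.H Y) (a : κ) (L : List κ) (I : κ → β) :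
    wd ev (a :: L) I = ev a (I a) * wd ev L I := by
  rw [wd, wd, List.map_cons, List.prod_cons]

lemma wd_nil (ev : κ → β → W.H Y) (I : κ → β) : wd ev [] I = 1 := rfl

lemma wcl_add (ev : κ → β → W.H Y) (L : List κ) (c d : (κ → β) → ℚ) :
    wcl ev L (c + d) = wcl ev L c + wcl ev L d := by
  rw [wcl, wcl, wcl, ← Finset.sum_add_distrib]
  refine Finset.sum_congr rfl fun I _ => ?_
  rw [Pi.add_apply, Rat.cast_add, add_smul]

lemma wcl_smul (ev : κ → β → W.H Y) (L : List κ) (r : ℚ) (c : (κ → β) → ℚ) :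
    wcl ev L (r • c) = (r : W.K) • wcl ev L c := by
  rw [wcl, wcl, Finset.smul_sum]
  refine Finset.sum_congr rfl fun I _ => ?_
  rw [Pi.smul_apply, smul_eq_mul, Rat.cast_mul, mul_smul]

lemma wcl_zero (ev : κ → β → W.H Y) (L : List κ) : wcl ev L (0 : (κ → β) → ℚ) = 0 := by
  rw [wcl]
  exact Finset.sum_eq_zero fun I _ => by rw [Pi.zero_apply, Rat.cast_zero, zero_smul]

lemma wcl_sum (ev : κ → β → W.H Y) (L : List κ) {α : Type*} (s : Finset α)
    (f : α → (κ → β) → ℚ) : wcl ev L (∑ i ∈ s, f i) = ∑ i ∈ s, wcl ev L (f i) := by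
  classical
  induction s using Finset.induction_on with
  | empty => rw [Finset.sum_empty, Finset.sum_empty, wcl_zero]
  | insert a s ha ih => rw [Finset.sum_insert ha, Finset.sum_insert ha, wcl_add, ih]

lemma map_wd (f : Y ⟶ Y') (ev : κ → β → W.H Y') (L : List κ) (I : κ → β) :
    W.map f (wd ev L I) = wd (fun a b => W.map f (ev a b)) L I := by
  rw [wd, wd, map_list_prod, List.map_map]
  rfl

lemma map_wcl (f : Y ⟶ Y') (ev : κ → β → W.H Y') (L : List κ) (c : (κ → β) → ℚ) :
    W.map f (wcl ev L c) = wcl (fun a b => W.map f (ev a b)) L c := by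
  rw [wcl, wcl, map_sum]
  refine Finset.sum_congr rfl fun I _ => ?_
  rw [map_smul, map_wd]

/-- The part of a tensor with a given pattern. -/
def prt {γ : Type} [DecidableEq γ] {R : Type*} [Zero R] (p : β → γ) (ε : κ → γ)
    (c : (κ → β) → R) : (κ → β) → R :=
  fun I => if p ∘ I = ε then c I else 0

lemma sum_prt {γ : Type} [Fintype γ] [DecidableEq γ] {R : Type*} [AddCommMonoid R] (p : β → γ)
    (c : (κ → β) → R) : ∑ ε : κ → γ, prt p ε c = c := by
  funext I
  rw [Finset.sum_apply, Finset.sum_eq_single (p ∘ I)]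
  · exact if_pos rfl
  · intro ε _ hε
    exact if_neg (Ne.symm hε)
  · intro h; exact absurd (Finset.mem_univ _) h

lemma prod_perm (Z : 𝒱.Obj) (a : κ → ℕ) {l l' : List κ} (h : l.Perm l') :
    ∃ s : W.K, s ≠ 0 ∧ ∀ f : κ → W.H Z, (∀ i, f i ∈ PH W Z (a i)) →
      (l.map f).prod = s • (l'.map f).prod := by
  induction h with
  | nil => exact ⟨1, one_ne_zero, fun f _ => (one_smul _ _).symm⟩
  | cons x _ ih =>
    obtain ⟨s, hs, e⟩ := ih
    refine ⟨s, hs, fun f hf => ?_⟩
    rw [List.map_cons, List.prod_cons, List.map_cons, List.prod_cons, e f hf, mul_smul_comm]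
  | swap x y l =>
    refine ⟨(-1) ^ (a y * a x), pow_ne_zero _ (neg_ne_zero.2 one_ne_zero), fun f hf => ?_⟩
    rw [List.map_cons, List.map_cons, List.map_cons, List.map_cons, List.prod_cons,
      List.prod_cons, List.prod_cons, List.prod_cons, ← mul_assoc, PH.comm (hf y) (hf x),
      smul_mul_assoc, mul_assoc]
  | trans h1 _ ih1 ih2 =>
    obtain ⟨s, hs, e⟩ := ih1
    obtain ⟨s', hs', e'⟩ := ih2
    exact ⟨s * s', mul_ne_zero hs hs', fun f hf => by rw [e f hf, e' f hf, smul_smul]⟩

/-- Permutations of the factors. -/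
lemma wcl_perm {p : β → Fin 2} {ev : κ → β → W.H Y} (hp : ∀ a b, ev a b ∈ PH W Y (p b : ℕ))
    {L L' : List κ} (h : L.Perm L') (ε : κ → Fin 2) : ∃ s : W.K, s ≠ 0 ∧
      ∀ c : (κ → β) → ℚ, wcl ev L (prt p ε c) = s • wcl ev L' (prt p ε c) := by
  obtain ⟨s, hs, e⟩ := prod_perm (W := W) Y (fun a => (ε a : ℕ)) h
  refine ⟨s, hs, fun c => ?_⟩
  rw [wcl, wcl, Finset.smul_sum]
  refine Finset.sum_congr rfl fun I _ => ?_
  by_cases hI : p ∘ I = ε
  · have h1 := e (fun a => ev a (I a)) fun a => by
      have h2 : (ε a : ℕ) = (p (I a) : ℕ) := by rw [← hI]; rfl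
      rw [h2]
      exact hp _ _
    have h3 : wd ev L I = s • wd ev L' I := h1
    rw [h3, smul_comm]
  · rw [prt, if_neg hI, Rat.cast_zero, zero_smul, zero_smul, smul_zero]

lemma wd_sum (ev : κ → β → W.H Y) (ev' : κ' → β → W.H Y) (L : List κ) (L' : List κ')
    (I : κ ⊕ κ' → β) : wd (Sum.elim ev ev') (L.map Sum.inl ++ L'.map Sum.inr) I =
      wd ev L (fun a => I (Sum.inl a)) * wd ev' L' (fun a => I (Sum.inr a)) := by
  rw [wd, wd, wd, List.map_append, List.prod_append, List.map_map, List.map_map]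
  rfl

/-- Products of tensors. -/
lemma wcl_mul (ev : κ → β → W.H Y) (ev' : κ' → β → W.H Y) (L : List κ) (L' : List κ')
    (c : (κ → β) → ℚ) (c' : (κ' → β) → ℚ) :
    wcl (Sum.elim ev ev') (L.map Sum.inl ++ L'.map Sum.inr)
      (fun I => c (fun a => I (Sum.inl a)) * c' (fun a => I (Sum.inr a))) =
      wcl ev L c * wcl ev' L' c' := by
  rw [wcl, wcl, wcl, Finset.sum_mul_sum,
    ← (Equiv.sumArrowEquivProdArrow κ κ' β).symm.sum_comp, Fintype.sum_prod_type]
  refine Finset.sum_congr rfl fun I _ => Finset.sum_congr rfl fun I' _ => ?_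
  rw [wd_sum, smul_mul_smul_comm, Rat.cast_mul]
  rfl

/-- The part of a tensor with a given letter in a given place. -/
def res [DecidableEq β] {R : Type*} [Zero R] (a : κ) (b : β) (c : (κ → β) → R) : (κ → β) → R :=
  fun I => if I a = b then c I else 0

lemma wcl_cons [DecidableEq β] (ev : κ → β → W.H Y) (a : κ) (L : List κ) (c : (κ → β) → ℚ) :
    wcl ev (a :: L) c = ∑ b, ev a b * wcl ev L (res a b c) := by
  have h1 : ∀ b, ev a b * wcl ev L (res a b c) =
      ∑ I, if I a = b then ((c I : ℚ) : W.K) • wd ev (a :: L) I else 0 := by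
    intro b
    rw [wcl, Finset.mul_sum]
    refine Finset.sum_congr rfl fun I _ => ?_
    rw [res]
    by_cases h : I a = b
    · rw [if_pos h, if_pos h, wd_cons, mul_smul_comm, h]
    · rw [if_neg h, if_neg h, Rat.cast_zero, zero_smul, mul_zero]
  rw [Finset.sum_congr rfl fun b _ => h1 b, Finset.sum_comm, wcl]
  refine Finset.sum_congr rfl fun I _ => ?_
  rw [Finset.sum_ite_eq, if_pos (Finset.mem_univ _)]

/-- Reindexing of the factors. -/
lemma wcl_reindex (e : κ ≃ κ') (ev : κ' → β → W.H Y) (L : List κ) (c : (κ → β) → ℚ) :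
    wcl ev (L.map e) (fun I => c (fun a => I (e a))) = wcl (fun a => ev (e a)) L c := by
  rw [wcl, wcl, ← (Equiv.arrowCongr e (Equiv.refl β)).sum_comp]
  refine Finset.sum_congr rfl fun I _ => ?_
  have h1 : (fun a => (Equiv.arrowCongr e (Equiv.refl β)) I (e a)) = I := by
    funext a
    simp [Equiv.arrowCongr]
  rw [h1]
  congr 1
  rw [wd, wd, List.map_map]
  congr 1
  refine List.map_congr_left fun a _ => ?_
  change ev (e a) ((Equiv.arrowCongr e (Equiv.refl β)) I (e a)) = _
  have h2 := congrFun h1 a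
  rw [h2]

end W

section T

variable {T : HodgeTheory ops} {Y : 𝒱.Obj} {β κ : Type} [Fintype β] [DecidableEq β]
  [Fintype κ] [DecidableEq κ]

/-- The class of a complex tensor. -/
noncomputable def wclC (ev : κ → β → T.W.H Y) (L : List κ) (z : (κ → β) → ℂ) : (CW T).H Y :=
  ∑ I, cc T (z I) • em T.W ℂ (wd ev L I)

lemma em_wcl (ev : κ → β → T.W.H Y) (L : List κ) (c : (κ → β) → ℚ) :
    em T.W ℂ (wcl ev L c) = wclC ev L (fun I => (c I : ℂ)) := by
  rw [wcl, em_sum, wclC]
  refine Finset.sum_congr rfl fun I _ => ?_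
  rw [em_smul, ex_rat]
  rfl

/-- The operator is compatible with the evaluation. -/
def Comp (D : Matrix β β ℂ) (ev : β → T.W.H Y) : Prop :=
  ∀ b, dop T Y (em T.W ℂ (ev b)) = ∑ b', cc T (D b' b) • em T.W ℂ (ev b')

lemma Comp.map {Y' : 𝒱.Obj} {D : Matrix β β ℂ} {ev : β → T.W.H Y'} (h : Comp D ev)
    (f : Y ⟶ Y') : Comp D fun b => T.W.map f (ev b) := by
  intro b
  rw [← em_map]
  refine (dop_map f _).trans ?_
  rw [h b, map_sum]
  refine Finset.sum_congr rfl fun b' _ => ?_
  rw [map_smul, em_map]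

lemma dop_wd {D : Matrix β β ℂ} {ev : κ → β → T.W.H Y} (h : ∀ a, Comp D (ev a)) (L : List κ)
    (hL : L.Nodup) (I : κ → β) : dop T Y (em T.W ℂ (wd ev L I)) =
      ∑ a ∈ L.toFinset, ∑ b, cc T (D b (I a)) • em T.W ℂ (wd ev L (Function.update I a b)) := by
  induction L with
  | nil =>
    rw [wd_nil, List.toFinset_nil, Finset.sum_empty]
    exact dop_one
  | cons a L ih =>
    rw [List.nodup_cons] at hL
    rw [wd_cons, em_mul]
    refine (dop_mul _ _).trans ?_
    rw [h a, ih hL.2, List.toFinset_cons, Finset.sum_insert (by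
      rw [List.mem_toFinset]; exact hL.1)]
    congr 1
    · rw [Finset.sum_mul]
      refine Finset.sum_congr rfl fun b _ => ?_
      have h1 : wd ev L (Function.update I a b) = wd ev L I := by
        rw [wd, wd]
        congr 1
        refine List.map_congr_left fun a' ha' => ?_
        have h2 : a' ≠ a := fun h => hL.1 (h ▸ ha')
        rw [Function.update_of_ne h2]
      rw [smul_mul_assoc, wd_cons, Function.update_self, em_mul, h1]
    · rw [Finset.mul_sum]
      refine Finset.sum_congr rfl fun a' ha' => ?_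
      rw [Finset.mul_sum]
      refine Finset.sum_congr rfl fun b _ => ?_
      have h2 : a ≠ a' := fun h => hL.1 (h ▸ List.mem_toFinset.1 ha')
      rw [mul_smul_comm, wd_cons, Function.update_of_ne h2, em_mul]

/-- The involution. -/
def swp (a : κ) : (κ → β) × β ≃ (κ → β) × β where
  toFun x := (Function.update x.1 a x.2, x.1 a)
  invFun x := (Function.update x.1 a x.2, x.1 a)
  left_inv x := by simp
  right_inv x := by simp

lemma dop_wclC {D : Matrix β β ℂ} {ev : κ → β → T.W.H Y} (h : ∀ a, Comp D (ev a)) (L : List κ)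
    (hL : L.Nodup) (z : (κ → β) → ℂ) : dop T Y (wclC ev L z) =
      wclC ev L (∑ a ∈ L.toFinset, actk D.transpose a z) := by
  rw [wclC, map_sum]
  have h1 : ∀ I, dop T Y (cc T (z I) • em T.W ℂ (wd ev L I)) = ∑ a ∈ L.toFinset, ∑ b,
      cc T (z I * D b (I a)) • em T.W ℂ (wd ev L (Function.update I a b)) := by
    intro I
    rw [map_smul, dop_wd h L hL, Finset.smul_sum]
    refine Finset.sum_congr rfl fun a _ => ?_
    rw [Finset.smul_sum]
    refine Finset.sum_congr rfl fun b _ => ?_
    rw [smul_smul]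
    rfl
  rw [Finset.sum_congr rfl fun I _ => h1 I, Finset.sum_comm, wclC]
  have h2 : ∀ I : κ → β, cc T ((∑ a ∈ L.toFinset, actk D.transpose a z) I) •
      em T.W ℂ (wd ev L I) = ∑ a ∈ L.toFinset, cc T (actk D.transpose a z I) •
        em T.W ℂ (wd ev L I) := by
    intro I
    rw [← Finset.sum_smul, Finset.sum_apply]
    congr 1
  rw [Finset.sum_congr rfl fun I _ => h2 I, Finset.sum_comm (s := Finset.univ)]
  refine Finset.sum_congr rfl fun a _ => ?_
  have h3 : ∀ I : κ → β, cc T (actk D.transpose a z I) • em T.W ℂ (wd ev L I) =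
      ∑ b, cc T (D (I a) b * z (Function.update I a b)) • em T.W ℂ (wd ev L I) := by
    intro I
    rw [← Finset.sum_smul]
    congr 1
  rw [Finset.sum_congr rfl fun I _ => h3 I]
  have h4 := (swp (β := β) a).sum_comp fun x : (κ → β) × β =>
    cc T (D (x.1 a) x.2 * z (Function.update x.1 a x.2)) • em T.W ℂ (wd ev L x.1)
  rw [Fintype.sum_prod_type, Fintype.sum_prod_type] at h4
  rw [← h4]
  refine Finset.sum_congr rfl fun I _ => Finset.sum_congr rfl fun b _ => ?_
  simp only [swp, Equiv.coe_fn_mk, Function.update_self, Function.update_idem,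
    Function.update_eq_self]
  rw [mul_comm]

/-- Tensors killed by the operator have Hodge classes. -/
lemma wcl_hodge {D : Matrix β β ℂ} {ev : κ → β → T.W.H Y} (h : ∀ a, Comp D (ev a)) (L : List κ)
    (hL : L.Nodup) {c : (κ → β) → ℚ}
    (hc : ∑ a ∈ L.toFinset, actk D.transpose a (fun I => (c I : ℂ)) = 0) :
    wcl ev L c ∈ (hodgePred T).sp Y := by
  apply sp_of_dop
  rw [em_wcl, dop_wclC h L hL, hc, wclC]
  exact Finset.sum_eq_zero fun I _ => zero_smul _ _

lemma actk_res {D : Matrix β β ℂ} {a : κ} {b : β} (hb : ∀ j, D b j = 0) {s : Finset κ}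
    (ha : a ∉ s) {z : (κ → β) → ℂ} (hz : ∑ a' ∈ insert a s, actk D.transpose a' z = 0) :
    ∑ a' ∈ s, actk D.transpose a' (res a b z) = 0 := by
  funext I
  rw [Finset.sum_insert ha] at hz
  have h1 := congrFun hz I
  rw [Pi.add_apply, Finset.sum_apply, Pi.zero_apply] at h1
  rw [Finset.sum_apply, Pi.zero_apply]
  have h2 : ∀ a' ∈ s, actk D.transpose a' (res a b z) I =
      if I a = b then actk D.transpose a' z I else 0 := by
    intro a' ha'
    have h3 : a ≠ a' := fun h => ha (h ▸ ha')
    rw [actk, actk]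
    have h4 : ∀ j, res a b z (Function.update I a' j) =
        if I a = b then z (Function.update I a' j) else 0 := by
      intro j
      rw [res, Function.update_of_ne h3]
    by_cases h : I a = b
    · rw [if_pos h]
      exact Finset.sum_congr rfl fun j _ => by rw [h4, if_pos h]
    · rw [if_neg h]
      exact Finset.sum_eq_zero fun j _ => by rw [h4, if_neg h, mul_zero]
  rw [Finset.sum_congr rfl h2]
  by_cases h : I a = b
  · simp only [if_pos h]
    have h5 : actk D.transpose a z I = 0 := by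
      rw [actk]
      refine Finset.sum_eq_zero fun j _ => ?_
      rw [Matrix.transpose_apply, h, hb, zero_mul]
    rwa [h5, zero_add] at h1
  · simp only [if_neg h, Finset.sum_const_zero]

lemma actk_prt {γ : Type} [DecidableEq γ] {D : Matrix β β ℂ} {p : β → γ}
    (hD : ∀ b b', p b ≠ p b' → D b b' = 0) (ε : κ → γ) (a : κ) (z : (κ → β) → ℂ) :
    actk D.transpose a (prt p ε z) = prt p ε (actk D.transpose a z) := by
  funext I
  rw [prt, actk, actk]
  have h1 : ∀ j, D.transpose j (I a) * prt p ε z (Function.update I a j) =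
      if p ∘ I = ε then D.transpose j (I a) * z (Function.update I a j) else 0 := by
    intro j
    rw [Matrix.transpose_apply]
    by_cases hj : p (I a) = p j
    · have h2 : p ∘ Function.update I a j = p ∘ I := by
        funext a'
        by_cases h : a' = a
        · subst h; rw [Function.comp_apply, Function.comp_apply, Function.update_self, hj]
        · rw [Function.comp_apply, Function.comp_apply, Function.update_of_ne h]
      rw [prt, h2]
      split_ifs
      · rfl
      · rw [mul_zero]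
    · rw [hD _ _ hj, zero_mul, zero_mul, ite_self]
  rw [Finset.sum_congr rfl fun j _ => h1 j]
  split_ifs
  · rfl
  · rw [Finset.sum_const_zero]

lemma cast_prt {γ : Type} [DecidableEq γ] (p : β → γ) (ε : κ → γ) (c : (κ → β) → ℚ) :
    (fun I => ((prt p ε c I : ℚ) : ℂ)) = prt p ε fun I => (c I : ℂ) := by
  funext I
  rw [prt, prt]
  split_ifs
  · rfl
  · exact Rat.cast_zero

lemma cast_res (a : κ) (b : β) (c : (κ → β) → ℚ) :
    (fun I => ((res a b c I : ℚ) : ℂ)) = res a b fun I => (c I : ℂ) := by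
  funext I
  rw [res, res]
  split_ifs
  · rfl
  · exact Rat.cast_zero

/-- The parts of tensors killed by the operator. -/
lemma sum_actk_prt {γ : Type} [DecidableEq γ] {D : Matrix β β ℂ} {p : β → γ}
    (hD : ∀ b b', p b ≠ p b' → D b b' = 0) (ε : κ → γ) (s : Finset κ) {c : (κ → β) → ℚ}
    (hc : ∑ a ∈ s, actk D.transpose a (fun I => (c I : ℂ)) = 0) :
    ∑ a ∈ s, actk D.transpose a (fun I => ((prt p ε c I : ℚ) : ℂ)) = 0 := by
  rw [cast_prt, Finset.sum_congr rfl fun a _ => actk_prt hD ε a _]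
  have h1 : ∑ a ∈ s, prt p ε (actk D.transpose a fun I => (c I : ℂ)) =
      prt p ε (∑ a ∈ s, actk D.transpose a fun I => (c I : ℂ)) := by
    funext I
    rw [Finset.sum_apply, prt, Finset.sum_apply]
    by_cases h : p ∘ I = ε
    · simp only [prt, if_pos h]
    · simp only [prt, if_neg h, Finset.sum_const_zero]
  rw [h1, hc]
  funext I
  rw [prt]
  split_ifs <;> rfl

end T

end Run7.h853.Cg
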