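import Pool.Agent.Run7.h853.Cg.A2

/-!
# The tensors whose classes are contained in a system
-/

set_option linter.unusedSectionVars false

open CategoryTheory AlgebraicGeometry TensorProduct

universe u

namespace Run7.h853.Cg

open Module
open Pool.Agent.H914 Pool.Agent.H914.VarClass Pool.Agent.H914.VarClass.Obj
  Pool.Agent.H914.WeilCohomology
open Pool.Agent.Y133.Half Pool.Agent.Y121.AH Pool.Agent.N996.BP.Geo
open Pool.Agent.W437.HC (actk)

variable {k : Type u} [Field k] {𝒱 : VarClass k} {ops : CycleOps 𝒱}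

section W

variable {W : WeilCohomology.{u, 0} ops} {Y Y' : 𝒱.Obj} {Vt β : Type} [DecidableEq Vt]
  [Fintype β] [DecidableEq β] {XX : Vt → 𝒱.Obj}

/-- The evaluation of letters. -/
noncomputable def evl (rr : ∀ v, β → W.H (XX v)) {κ : Type} {ν : κ → Vt}
    (F : ∀ a, Y ⟶ XX (ν a)) (a : κ) (b : β) : W.H Y := W.map (F a) (rr (ν a) b)

/-- The tensors whose classes are contained in the system, if at most `n` places belong to the
vertex `zv`. -/
def Fam (S : Sys W) (rr : ∀ v, β → W.H (XX v)) (p : β → Fin 2) (zv : Vt) (n : ℕ) (κ : Type) :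
    Submodule ℚ ((κ → β) → ℚ) where
  carrier := {c | ∀ (_ : Fintype κ) (_ : DecidableEq κ) (ν : κ → Vt),
    (Finset.univ.filter fun a => ν a = zv).card ≤ n → ∀ (Y : 𝒱.Obj) (F : ∀ a, Y ⟶ XX (ν a))
      (L : List κ), L.Nodup → (∀ a, a ∈ L) → ∀ ε : κ → Fin 2,
        wcl (evl rr F) L (prt p ε c) ∈ S.C Y}
  zero_mem' := by
    intro _ _ ν _ Y F L _ _ ε
    have h : prt p ε (0 : (κ → β) → ℚ) = 0 := by
      funext I
      rw [prt, Pi.zero_apply, ite_self]
    rw [h, wcl_zero]
    exact Submodule.zero_mem _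
  add_mem' := by
    intro c d hc hd _ _ ν hν Y F L h1 h2 ε
    have h : prt p ε (c + d) = prt p ε c + prt p ε d := by
      funext I
      rw [Pi.add_apply, prt, prt, prt]
      split_ifs
      · rfl
      · rw [add_zero]
    rw [h, wcl_add]
    exact Submodule.add_mem _ (hc _ _ ν hν Y F L h1 h2 ε) (hd _ _ ν hν Y F L h1 h2 ε)
  smul_mem' := by
    intro r c hc _ _ ν hν Y F L h1 h2 ε
    have h : prt p ε (r • c) = r • prt p ε c := by
      funext I
      rw [Pi.smul_apply, prt, prt]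
      split_ifs
      · rfl
      · rw [smul_zero]
    rw [h, wcl_smul]
    exact Submodule.smul_mem _ _ (hc _ _ ν hν Y F L h1 h2 ε)

variable {S : Sys W} {rr : ∀ v, β → W.H (XX v)} {p : β → Fin 2} {zv : Vt} {n : ℕ}

lemma evl_par (hp : ∀ v b, rr v b ∈ PH W (XX v) (p b : ℕ)) {κ : Type} {ν : κ → Vt}
    (F : ∀ a, Y ⟶ XX (ν a)) (a : κ) (b : β) : evl rr F a b ∈ PH W Y (p b : ℕ) :=
  PH.map _ (hp _ _)

lemma perm_of {κ : Type} {L L' : List κ} (h : L.Nodup) (h' : L'.Nodup) (h1 : ∀ a, a ∈ L)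
    (h2 : ∀ a, a ∈ L') : L.Perm L' := by
  rw [List.perm_ext_iff_of_nodup h h']
  intro a
  exact ⟨fun _ => h2 a, fun _ => h1 a⟩

/-- Products. -/
lemma fam_mul (hp : ∀ v b, rr v b ∈ PH W (XX v) (p b : ℕ)) {κ κ' : Type} [Finite κ] [Finite κ']
    {c : (κ → β) → ℚ} {c' : (κ' → β) → ℚ} (hc : c ∈ Fam S rr p zv n κ)
    (hc' : c' ∈ Fam S rr p zv n κ') :
    (fun I : κ ⊕ κ' → β => c (fun a => I (Sum.inl a)) * c' (fun a => I (Sum.inr a))) ∈
      Fam S rr p zv n (κ ⊕ κ') := by
  classical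
  have : Fintype κ := Fintype.ofFinite κ
  have : Fintype κ' := Fintype.ofFinite κ'
  intro i1 i2 ν hν Y F L hL1 hL2 ε
  obtain rfl : i1 = instFintypeSum κ κ' := Subsingleton.elim _ _
  obtain rfl : i2 = instDecidableEqSum := Subsingleton.elim _ _
  have hn1 : (Finset.univ.filter fun a : κ => ν (Sum.inl a) = zv).card ≤ n := by
    refine le_trans ?_ hν
    rw [← Finset.card_map (Function.Embedding.inl (β := κ'))]
    refine Finset.card_le_card fun x hx => ?_
    rw [Finset.mem_map] at hx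
    obtain ⟨a, ha, rfl⟩ := hx
    rw [Finset.mem_filter] at ha ⊢
    exact ⟨Finset.mem_univ _, ha.2⟩
  have hn2 : (Finset.univ.filter fun a : κ' => ν (Sum.inr a) = zv).card ≤ n := by
    refine le_trans ?_ hν
    rw [← Finset.card_map (Function.Embedding.inr (α := κ))]
    refine Finset.card_le_card fun x hx => ?_
    rw [Finset.mem_map] at hx
    obtain ⟨a, ha, rfl⟩ := hx
    rw [Finset.mem_filter] at ha ⊢
    exact ⟨Finset.mem_univ _, ha.2⟩
  have hL' : ((Finset.univ : Finset κ).toList.map Sum.inl ++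
      (Finset.univ : Finset κ').toList.map Sum.inr : List (κ ⊕ κ')).Nodup := by
    refine List.Nodup.append ((Finset.nodup_toList _).map Sum.inl_injective)
      ((Finset.nodup_toList _).map Sum.inr_injective) ?_
    intro x hx hx'
    rw [List.mem_map] at hx hx'
    obtain ⟨a, _, rfl⟩ := hx
    obtain ⟨b, _, hb⟩ := hx'
    cases hb
  have hL'' : ∀ a, a ∈ ((Finset.univ : Finset κ).toList.map Sum.inl ++
      (Finset.univ : Finset κ').toList.map Sum.inr : List (κ ⊕ κ')) := by
    rintro (a | a)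
    · exact List.mem_append_left _ (List.mem_map.2 ⟨a, Finset.mem_toList.2 (Finset.mem_univ _),
        rfl⟩)
    · exact List.mem_append_right _ (List.mem_map.2 ⟨a, Finset.mem_toList.2 (Finset.mem_univ _),
        rfl⟩)
  obtain ⟨s, -, hs⟩ := wcl_perm (evl_par hp F) (perm_of hL1 hL' hL2 hL'') ε
  rw [hs]
  refine Submodule.smul_mem _ _ ?_
  have h1 : prt p ε (fun I : κ ⊕ κ' → β =>
      c (fun a => I (Sum.inl a)) * c' (fun a => I (Sum.inr a))) =
      fun I => prt p (fun a => ε (Sum.inl a)) c (fun a => I (Sum.inl a)) *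
        prt p (fun a => ε (Sum.inr a)) c' (fun a => I (Sum.inr a)) := by
    funext I
    rw [prt, prt, prt]
    by_cases h : p ∘ I = ε
    · rw [if_pos h, if_pos (by rw [← h]; rfl), if_pos (by rw [← h]; rfl)]
    · rw [if_neg h]
      by_cases h1 : (p ∘ fun a => I (Sum.inl a)) = fun a => ε (Sum.inl a)
      · rw [if_neg (c := (p ∘ fun a => I (Sum.inr a)) = fun a => ε (Sum.inr a)), mul_zero]
        intro h2
        apply h
        funext x
        rcases x with a | a
        · exact congrFun h1 a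
        · exact congrFun h2 a
      · rw [if_neg h1, zero_mul]
  have h2 : (evl rr F : κ ⊕ κ' → β → W.H Y) =
      Sum.elim (evl rr fun a => F (Sum.inl a)) (evl rr fun a => F (Sum.inr a)) := by
    funext x
    rcases x with a | a <;> rfl
  rw [h1, h2, wcl_mul]
  exact S.mul (hc _ _ _ hn1 _ _ _ (Finset.nodup_toList _) (fun a => Finset.mem_toList.2
    (Finset.mem_univ _)) _) (hc' _ _ _ hn2 _ _ _ (Finset.nodup_toList _)
      (fun a => Finset.mem_toList.2 (Finset.mem_univ _)) _)

/-- Permutations. -/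
lemma fam_perm {κ κ' : Type} [Finite κ] (e : κ ≃ κ') {c : (κ → β) → ℚ}
    (hc : c ∈ Fam S rr p zv n κ) : (fun I : κ' → β => c (fun a => I (e a))) ∈
      Fam S rr p zv n κ' := by
  classical
  have : Fintype κ := Fintype.ofFinite κ
  intro i1 i2 ν hν Y F L hL1 hL2 ε
  have hν' : (Finset.univ.filter fun a : κ => ν (e a) = zv).card ≤ n := by
    refine le_trans (le_of_eq ?_) hν
    rw [← Finset.card_map e.toEmbedding]
    congr 1
    ext x
    simp only [Finset.mem_map, Finset.mem_filter, Finset.mem_univ, true_and,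
      Equiv.coe_toEmbedding]
    constructor
    · rintro ⟨a, ha, rfl⟩; exact ha
    · intro h; exact ⟨e.symm x, by simpa using h, by simp⟩
  have h1 := hc inferInstance (Classical.decEq κ) (fun a => ν (e a)) hν' Y (fun a => F (e a))
    (L.map e.symm) (hL1.map e.symm.injective) (fun a => List.mem_map.2 ⟨e a, hL2 _, by simp⟩)
    (fun a => ε (e a))
  have h2 : prt p ε (fun I : κ' → β => c (fun a => I (e a))) =
      fun I => prt p (fun a => ε (e a)) c (fun a => I (e a)) := by
    funext I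
    rw [prt, prt]
    congr 1
    apply propext
    constructor
    · intro h; rw [← h]; rfl
    · intro h
      funext x
      have h3 := congrFun h (e.symm x)
      simpa using h3
  rw [h2]
  have h3 := wcl_reindex e (evl rr F) (L.map e.symm) (prt p (fun a => ε (e a)) c)
  have h4 : (L.map e.symm).map e = L := by
    rw [List.map_map]
    simp
  rw [h4] at h3
  rw [h3]
  exact h1

end W

section T

variable {T : HodgeTheory ops} {Y Y' : 𝒱.Obj} {Vt β : Type} [DecidableEq Vt]
  [Fintype β] [DecidableEq β] {XX : Vt → 𝒱.Obj}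
  {S : Sys T.W} {rr : ∀ v, β → T.W.H (XX v)} {p : β → Fin 2} {zv : Vt} {n : ℕ}
  {D : Matrix β β ℂ}

lemma wcl_congr {κ : Type} [Fintype κ] [DecidableEq κ] {ev ev' : κ → β → T.W.H Y} {L : List κ}
    (h : ∀ a ∈ L, ∀ b, ev a b = ev' a b) (c : (κ → β) → ℚ) : wcl ev L c = wcl ev' L c := by
  rw [wcl, wcl]
  refine Finset.sum_congr rfl fun I _ => ?_
  rw [wd, wd, List.map_congr_left fun a ha => h a ha _]

lemma exists_cast {v v' : Vt} (h : v = v') (F : Y ⟶ XX v) : ∃ G : Y ⟶ XX v',
    ∀ b, T.W.map G (rr v' b) = T.W.map F (rr v b) := by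
  subst h
  exact ⟨F, fun _ => rfl⟩

/-- Tensors whose places belong to the vertex `zv`. -/
lemma low_base (hcomp : ∀ v, Comp D (rr v))
    (hZ : ∀ m < n, (hodgePred T).sp (pw (XX zv) m) ≤ S.C (pw (XX zv) m))
    {κ : Type} [Fintype κ] [DecidableEq κ] {ν : κ → Vt} (F : ∀ a, Y ⟶ XX (ν a)) {L : List κ}
    (hL : L.Nodup) (hν : ∀ a ∈ L, ν a = zv) (hn : L.length ≤ n) {c : (κ → β) → ℚ}
    (hc : ∑ a ∈ L.toFinset, actk D.transpose a (fun I => (c I : ℂ)) = 0) :
    wcl (evl rr F) L c ∈ S.C Y := by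
  rcases L with _ | ⟨a0, L0⟩
  · rw [wcl]
    refine Submodule.sum_mem _ fun I _ => Submodule.smul_mem _ _ ?_
    rw [wd_nil]
    exact S.one _
  · obtain ⟨L, hLd⟩ : ∃ L, L = a0 :: L0 := ⟨_, rfl⟩
    rw [← hLd] at hL hν hn hc ⊢
    have ha0 : a0 ∈ L := by rw [hLd]; exact List.mem_cons_self
    have hlen : L.length = L0.length + 1 := by rw [hLd, List.length_cons]
    obtain ⟨G0, -⟩ := exists_cast (T := T) (rr := rr) (hν a0 ha0) (F a0)
    have hG : ∀ a : κ, ∃ G : Y ⟶ XX zv, ν a = zv → ∀ b, T.W.map G (rr zv b) =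
        T.W.map (F a) (rr (ν a) b) := by
      intro a
      by_cases h : ν a = zv
      · obtain ⟨G, hG⟩ := exists_cast (T := T) (rr := rr) h (F a)
        exact ⟨G, fun _ => hG⟩
      · exact ⟨G0, fun h' => absurd h' h⟩
    choose G hG using hG
    obtain ⟨N, hN⟩ : ∃ N, N = L0.length := ⟨_, rfl⟩
    have hidx : ∀ a ∈ L, L.idxOf a < N + 1 := by
      intro a ha
      rw [hN, ← hlen]
      exact List.idxOf_lt_length_of_mem ha
    let idx : κ → Fin (N + 1) := fun a => Fin.ofNat (N + 1) (L.idxOf a)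
    let f : Y ⟶ pw (XX zv) N := liftN (XX zv) N fun i => G (L.getD i a0)
    have hf : ∀ a ∈ L, f ≫ prj (XX zv) N (idx a) = G a := by
      intro a ha
      rw [liftN_prj]
      have h1 : ((idx a : Fin (N + 1)) : ℕ) = L.idxOf a := Nat.mod_eq_of_lt (hidx a ha)
      have h2 : L.getD (idx a : Fin (N + 1)) a0 = a := by
        rw [h1, List.getD_eq_getElem _ _ (List.idxOf_lt_length_of_mem ha)]
        exact List.getElem_idxOf _
      rw [h2]
    have h1 : wcl (evl rr F) L c = T.W.map f (wcl (fun a b =>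
        T.W.map (prj (XX zv) N (idx a)) (rr zv b)) L c) := by
      rw [map_wcl]
      refine wcl_congr (fun a ha b => ?_) c
      rw [← T.W.map_comp, hf a ha, hG a (hν a ha)]
      rfl
    rw [h1]
    refine S.map _ (hZ N (by omega) ?_)
    exact wcl_hodge (fun a => (hcomp zv).map _) L hL hc

/-- Tensors in letters of the first type. -/
lemma low_step (hcomp : ∀ v, Comp D (rr v))
    (hZ : ∀ m < n, (hodgePred T).sp (pw (XX zv) m) ≤ S.C (pw (XX zv) m))
    {Ml Al : β → Prop} (hMA : ∀ v b, Ml b → ¬Al b → v ≠ zv → rr v b = 0)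
    (hA : ∀ b, Al b → (∀ j, D b j = 0) ∧ ∀ v, rr v b ∈ S.C (XX v))
    {κ : Type} [Fintype κ] [DecidableEq κ] {ν : κ → Vt} (F : ∀ a, Y ⟶ XX (ν a)) {Lz : List κ}
    (hν : ∀ a ∈ Lz, ν a = zv) (hn : Lz.length ≤ n) (La : List κ) (hνa : ∀ a ∈ La, ν a ≠ zv)
    (hL : (La ++ Lz).Nodup) : ∀ {c : (κ → β) → ℚ},
    (∀ I, c I ≠ 0 → ∀ a, Ml (I a)) →
    ∑ a ∈ (La ++ Lz).toFinset, actk D.transpose a (fun I => (c I : ℂ)) = 0 →
    wcl (evl rr F) (La ++ Lz) c ∈ S.C Y := by
  induction La with
  | nil =>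
    intro c _ hc
    exact low_base hcomp hZ F hL hν hn hc
  | cons a La ih =>
    intro c hM hc
    rw [List.cons_append, List.nodup_cons] at hL
    rw [List.cons_append, List.toFinset_cons] at hc
    have ha : a ∉ (La ++ Lz).toFinset := by rw [List.mem_toFinset]; exact hL.1
    rw [List.cons_append, wcl_cons]
    refine Submodule.sum_mem _ fun b _ => ?_
    by_cases hb : Al b
    · obtain ⟨h1, h2⟩ := hA b hb
      refine S.mul (S.map _ (h2 _)) (ih (fun a' ha' => hνa a' (List.mem_cons_of_mem _ ha')) hL.2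
        ?_ ?_)
      · intro I hI
        apply hM I
        intro h0
        apply hI
        rw [res, h0, ite_self]
      · rw [cast_res]
        exact actk_res h1 ha hc
    · by_cases hb' : Ml b
      · have h1 : evl rr F a b = 0 := by
          rw [evl, hMA _ b hb' hb (hνa a List.mem_cons_self), map_zero]
        rw [h1, zero_mul]
        exact Submodule.zero_mem _
      · have h1 : res a b c = 0 := by
          funext I
          rw [res]
          by_cases hI : I a = b
          · rw [if_pos hI]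
            by_contra h0
            exact hb' (hI ▸ hM I h0 a)
          · rw [if_neg hI]; rfl
        rw [h1, wcl_zero, mul_zero]
        exact Submodule.zero_mem _

/-- Tensors in letters of the first type are contained in the family. -/
lemma fam_low (hp : ∀ v b, rr v b ∈ PH T.W (XX v) (p b : ℕ)) (hcomp : ∀ v, Comp D (rr v))
    (hDp : ∀ b b', p b ≠ p b' → D b b' = 0)
    (hZ : ∀ m < n, (hodgePred T).sp (pw (XX zv) m) ≤ S.C (pw (XX zv) m))
    {Ml Al : β → Prop} (hMA : ∀ v b, Ml b → ¬Al b → v ≠ zv → rr v b = 0)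
    (hA : ∀ b, Al b → (∀ j, D b j = 0) ∧ ∀ v, rr v b ∈ S.C (XX v))
    {κ : Type} [Fintype κ] {c : (κ → β) → ℚ} (hM : ∀ I, c I ≠ 0 → ∀ a, Ml (I a))
    (hc : ∀ [DecidableEq κ], ∑ a, actk D.transpose a (fun I => (c I : ℂ)) = 0) :
    c ∈ Fam S rr p zv n κ := by
  classical
  intro i1 i2 ν hν Y F L hL1 hL2 ε
  rename_i i3
  obtain rfl : i1 = i3 := Subsingleton.elim _ _
  obtain ⟨La, hLa⟩ : ∃ La, La = (Finset.univ.filter fun a : κ => ν a ≠ zv).toList := ⟨_, rfl⟩
  obtain ⟨Lz, hLz⟩ : ∃ Lz, Lz = (Finset.univ.filter fun a : κ => ν a = zv).toList := ⟨_, rfl⟩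
  have h1 : ∀ a ∈ La, ν a ≠ zv := by
    intro a ha
    rw [hLa, Finset.mem_toList, Finset.mem_filter] at ha
    exact ha.2
  have h2 : ∀ a ∈ Lz, ν a = zv := by
    intro a ha
    rw [hLz, Finset.mem_toList, Finset.mem_filter] at ha
    exact ha.2
  have h3 : (La ++ Lz).Nodup := by
    refine List.Nodup.append (hLa ▸ Finset.nodup_toList _) (hLz ▸ Finset.nodup_toList _) ?_
    intro x hx hx'
    exact h1 x hx (h2 x hx')
  have h4 : ∀ a, a ∈ La ++ Lz := by
    intro a
    rw [List.mem_append]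
    by_cases h : ν a = zv
    · right
      rw [hLz, Finset.mem_toList, Finset.mem_filter]
      exact ⟨Finset.mem_univ _, h⟩
    · left
      rw [hLa, Finset.mem_toList, Finset.mem_filter]
      exact ⟨Finset.mem_univ _, h⟩
  obtain ⟨s, -, hs⟩ := wcl_perm (evl_par hp F) (perm_of hL1 h3 hL2 h4) ε
  rw [hs]
  refine Submodule.smul_mem _ _ (low_step hcomp hZ hMA hA F h2 ?_ La h1 h3 ?_ ?_)
  · rw [hLz, Finset.length_toList]
    exact hν
  · intro I hI
    apply hM I
    intro h0
    apply hI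
    rw [prt, h0, ite_self]
  · have h5 : (La ++ Lz).toFinset = Finset.univ := by
      ext a
      rw [List.mem_toFinset]
      exact ⟨fun _ => Finset.mem_univ _, fun _ => h4 a⟩
    rw [h5]
    exact sum_actk_prt hDp ε _ hc

/-- Tensors with two places. -/
lemma fam_two {v0 v1 : Vt} {c : (Fin 2 → β) → ℚ}
    (hc0 : ∀ I, c I ≠ 0 → ∀ v, v ≠ v0 → rr v (I 0) = 0)
    (hc1 : ∀ I, c I ≠ 0 → ∀ v, v ≠ v1 → rr v (I 1) = 0)
    (hP : ∀ (L : List (Fin 2)) (ε : Fin 2 → Fin 2), L.Nodup → (∀ a, a ∈ L) →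
      wcl (fun a b => if a = 0 then T.W.map (fst (XX v0) (XX v1)) (rr v0 b) else
        T.W.map (snd (XX v0) (XX v1)) (rr v1 b)) L (prt p ε c) ∈ S.C ((XX v0).prod (XX v1))) :
    c ∈ Fam S rr p zv n (Fin 2) := by
  intro i1 i2 ν hν Y F L hL1 hL2 ε
  obtain rfl : i1 = Fin.fintype 2 := Subsingleton.elim _ _
  obtain rfl : i2 = instDecidableEqFin 2 := Subsingleton.elim _ _
  have key : ∀ (a : Fin 2), (∀ I, prt p ε c I ≠ 0 → ∀ b, b = I a →
      T.W.map (F a) (rr (ν a) b) = 0) → wcl (evl rr F) L (prt p ε c) = 0 := by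
    intro a h
    rw [wcl]
    refine Finset.sum_eq_zero fun I _ => ?_
    by_cases h0 : prt p ε c I = 0
    · rw [h0, Rat.cast_zero, zero_smul]
    · have h1 : wd (evl rr F) L I = 0 := by
        rw [wd]
        refine List.prod_eq_zero (List.mem_map.2 ⟨a, hL2 a, ?_⟩)
        exact h I h0 _ rfl
      rw [h1, smul_zero]
  have hsup : ∀ I, prt p ε c I ≠ 0 → c I ≠ 0 := by
    intro I hI h0
    apply hI
    rw [prt, h0, ite_self]
  by_cases h0 : ν 0 = v0
  · by_cases h1 : ν 1 = v1
    · obtain ⟨G0, hG0⟩ := exists_cast (T := T) (rr := rr) h0 (F 0)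
      obtain ⟨G1, hG1⟩ := exists_cast (T := T) (rr := rr) h1 (F 1)
      have h2 : wcl (evl rr F) L (prt p ε c) = T.W.map (Obj.lift G0 G1)
          (wcl (fun a b => if a = 0 then T.W.map (fst (XX v0) (XX v1)) (rr v0 b) else
            T.W.map (snd (XX v0) (XX v1)) (rr v1 b)) L (prt p ε c)) := by
        rw [map_wcl]
        refine wcl_congr (fun a _ b => ?_) _
        fin_cases a
        · change T.W.map (F 0) (rr (ν 0) b) = T.W.map (Obj.lift G0 G1)
            (if (0 : Fin 2) = 0 then _ else _)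
          rw [if_pos rfl, ← T.W.map_comp, Obj.lift_fst, hG0]
        · change T.W.map (F 1) (rr (ν 1) b) = T.W.map (Obj.lift G0 G1)
            (if (1 : Fin 2) = 0 then _ else _)
          rw [if_neg (by decide), ← T.W.map_comp, Obj.lift_snd, hG1]
      rw [h2]
      exact S.map _ (hP L ε hL1 hL2)
    · rw [key 1 fun I hI b hb => by rw [hb, hc1 I (hsup I hI) _ h1, map_zero]]
      exact Submodule.zero_mem _
  · rw [key 0 fun I hI b hb => by rw [hb, hc0 I (hsup I hI) _ h0, map_zero]]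
    exact Submodule.zero_mem _

end T

end Run7.h853.Cg
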