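import Pool.Agent.Run7.h853.Cg.A3

/-!
# Frames of the cohomology of products
-/

set_option linter.unusedSectionVars false

open CategoryTheory AlgebraicGeometry TensorProduct

universe u

namespace Run7.h853.Cg

open Module
open Pool.Agent.H914 Pool.Agent.H914.VarClass Pool.Agent.H914.VarClass.Obj
  Pool.Agent.H914.WeilCohomology
open Pool.Agent.Y133.Half Pool.Agent.Y121.AH Pool.Agent.N996.BP.Geo
open Pool.Agent.W437.HC (actk)

variable {k : Type u} [Field k] {𝒱 : VarClass k} {ops : CycleOps 𝒱}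

section W

variable {W : WeilCohomology.{u, 0} ops} {Y Y' : 𝒱.Obj} {Vt β : Type} [DecidableEq Vt]
  [Fintype β] [DecidableEq β] {XX : Vt → 𝒱.Obj} (rr : ∀ v, β → W.H (XX v)) (vt : β → Vt)
  (zv : Vt)

/-- The words with letters of given types are a basis of the cohomology. -/
def HasFrame (n : ℕ) (Y : 𝒱.Obj) : Prop :=
  ∃ (κ : Type) (_ : Fintype κ) (_ : DecidableEq κ) (ν : κ → Vt) (F : ∀ a, Y ⟶ XX (ν a))
    (L : List κ) (B : Basis {I : κ → β // vt ∘ I = ν} W.K (W.H Y)), L.Nodup ∧ (∀ a, a ∈ L) ∧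
    (Finset.univ.filter fun a => ν a = zv).card ≤ n ∧ ∀ I, B I = wd (evl rr F) L I

variable {rr vt zv}

lemma HasFrame.mono {n m : ℕ} (h : n ≤ m) (hY : HasFrame rr vt zv n Y) :
    HasFrame rr vt zv m Y := by
  obtain ⟨κ, i1, i2, ν, F, L, B, h1, h2, h3, h4⟩ := hY
  exact ⟨κ, i1, i2, ν, F, L, B, h1, h2, h3.trans h, h4⟩

/-- The frame of a vertex. -/
lemma HasFrame.base (v : Vt) {n : ℕ} (hn : v = zv → 1 ≤ n)
    (B : Basis {b : β // vt b = v} W.K (W.H (XX v))) (hB : ∀ b, B b = rr v b) :
    HasFrame rr vt zv n (XX v) := by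
  let e : {I : Unit → β // vt ∘ I = fun _ => v} ≃ {b : β // vt b = v} :=
    { toFun := fun I => ⟨I.1 (), congrFun I.2 ()⟩
      invFun := fun b => ⟨fun _ => b.1, funext fun _ => b.2⟩
      left_inv := fun I => rfl
      right_inv := fun b => rfl }
  refine ⟨Unit, inferInstance, inferInstance, fun _ => v, fun _ => 𝟙 _, [()], B.reindex e.symm,
    List.nodup_singleton _, fun a => by cases a; exact List.mem_cons_self, ?_, ?_⟩
  · by_cases h : v = zv
    · refine le_trans (Finset.card_le_univ _) ?_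
      rw [Fintype.card_unit]
      exact hn h
    · rw [Finset.filter_false_of_mem fun a _ => h]
      exact Nat.zero_le _
  · intro I
    rw [Basis.reindex_apply, Equiv.symm_symm, hB, wd_cons, wd_nil, mul_one, evl, W.map_id]
    rfl

/-- The frame of a product. -/
lemma HasFrame.prod {n m : ℕ} (hY : HasFrame rr vt zv n Y) (hY' : HasFrame rr vt zv m Y') :
    HasFrame rr vt zv (n + m) (Y.prod Y') := by
  obtain ⟨κ, i1, i2, ν, F, L, B, h1, h2, h3, h4⟩ := hY
  obtain ⟨κ', i1', i2', ν', F', L', B', h1', h2', h3', h4'⟩ := hY'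
  let e : {I : κ ⊕ κ' → β // vt ∘ I = Sum.elim ν ν'} ≃
      {I : κ → β // vt ∘ I = ν} × {I : κ' → β // vt ∘ I = ν'} :=
    { toFun := fun I => (⟨fun a => I.1 (Sum.inl a), funext fun a => congrFun I.2 (Sum.inl a)⟩,
        ⟨fun a => I.1 (Sum.inr a), funext fun a => congrFun I.2 (Sum.inr a)⟩)
      invFun := fun I => ⟨Sum.elim I.1.1 I.2.1, by
        funext a
        rcases a with a | a
        · exact congrFun I.1.2 a
        · exact congrFun I.2.2 a⟩
      left_inv := fun I => by
        apply Subtype.ext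
        funext a
        rcases a with a | a <;> rfl
      right_inv := fun I => rfl }
  let F'' : ∀ a : κ ⊕ κ', Y.prod Y' ⟶ XX (Sum.elim ν ν' a) := fun a =>
    match a with
    | Sum.inl a => fst Y Y' ≫ F a
    | Sum.inr a => snd Y Y' ≫ F' a
  refine ⟨κ ⊕ κ', inferInstance, inferInstance, Sum.elim ν ν', F'',
    L.map Sum.inl ++ L'.map Sum.inr, ((B.tensorProduct B').map (kappa W Y Y')).reindex e.symm,
    ?_, ?_, ?_, ?_⟩
  · refine List.Nodup.append (h1.map Sum.inl_injective) (h1'.map Sum.inr_injective) ?_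
    intro x hx hx'
    rw [List.mem_map] at hx hx'
    obtain ⟨a, _, rfl⟩ := hx
    obtain ⟨b, _, hb⟩ := hx'
    cases hb
  · rintro (a | a)
    · exact List.mem_append_left _ (List.mem_map.2 ⟨a, h2 a, rfl⟩)
    · exact List.mem_append_right _ (List.mem_map.2 ⟨a, h2' a, rfl⟩)
  · refine le_trans (le_of_eq ?_) (Nat.add_le_add h3 h3')
    have h5 : (Finset.univ.filter fun a : κ ⊕ κ' => Sum.elim ν ν' a = zv) =
        (Finset.univ.filter fun a => ν a = zv).disjSum
          (Finset.univ.filter fun a => ν' a = zv) := by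
      ext x
      rcases x with a | a <;> simp
    rw [h5, Finset.card_disjSum]
  · intro I
    rw [Basis.reindex_apply, Equiv.symm_symm, Basis.map_apply]
    have h5 : (B.tensorProduct B') (e I) = B (e I).1 ⊗ₜ[W.K] B' (e I).2 :=
      Basis.tensorProduct_apply _ _ _ _
    rw [h5, kappa_tmul, h4, h4', map_wd, map_wd]
    have h6 : (evl rr F'' : κ ⊕ κ' → β → W.H (Y.prod Y')) =
        Sum.elim (fun a b => W.map (fst Y Y') (evl rr F a b))
          (fun a b => W.map (snd Y Y') (evl rr F' a b)) := by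
      funext x b
      rcases x with a | a
      · change W.map (fst Y Y' ≫ F a) (rr (ν a) b) = W.map (fst Y Y') (W.map (F a) (rr (ν a) b))
        rw [W.map_comp]
      · change W.map (snd Y Y' ≫ F' a) (rr (ν' a) b) =
          W.map (snd Y Y') (W.map (F' a) (rr (ν' a) b))
        rw [W.map_comp]
    rw [h6, wd_sum]
    rfl

end W

section T

variable {T : HodgeTheory ops} {Y Y' : 𝒱.Obj} {Vt β : Type} [DecidableEq Vt]
  [Fintype β] [DecidableEq β] {XX : Vt → 𝒱.Obj}
  {S : Sys T.W} {rr : ∀ v, β → T.W.H (XX v)} {vt : β → Vt} {p : β → Fin 2} {zv : Vt} {n : ℕ}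
  {D : Matrix β β ℂ}

/-- Hodge classes on products. -/
theorem frame_hodge (hY : HasFrame rr vt zv n Y) (hcomp : ∀ v, Comp D (rr v))
    (hDv : ∀ b b', vt b ≠ vt b' → D b b' = 0)
    (hmain : ∀ (κ : Type) [Fintype κ] [DecidableEq κ] (c : (κ → β) → ℚ),
      ∑ a, actk D.transpose a (fun I => (c I : ℂ)) = 0 → c ∈ Fam S rr p zv n κ) :
    (hodgePred T).sp Y ≤ S.C Y := by
  obtain ⟨κ, i1, i2, ν, F, L, B, h1, h2, h3, h4⟩ := hY
  intro y hy
  choose q hq using fun I : {I : κ → β // vt ∘ I = ν} => T.rat (B.repr y I)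
  obtain ⟨c, hcd⟩ : ∃ c : (κ → β) → ℚ, c = fun I => if h : vt ∘ I = ν then q ⟨I, h⟩ else 0 :=
    ⟨_, rfl⟩
  have hsub : ∀ {M : Type} [AddCommMonoid M] (f : (κ → β) → M),
      (∀ I, ¬vt ∘ I = ν → f I = 0) → ∑ I, f I = ∑ I : {I : κ → β // vt ∘ I = ν}, f I := by
    intro M _ f hf
    rw [← Finset.sum_subtype (Finset.univ.filter fun I : κ → β => vt ∘ I = ν)
      (fun I => by simp) f, Finset.sum_filter]
    refine Finset.sum_congr rfl fun I _ => ?_
    split_ifs with h
    · rfl
    · exact hf I h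
  have hy1 : wcl (evl rr F) L c = y := by
    rw [wcl, hsub]
    · conv_rhs => rw [← B.sum_repr y]
      refine Finset.sum_congr rfl fun I _ => ?_
      rw [hcd]
      simp only
      rw [dif_pos I.2, hq, h4]
    · intro I hI
      rw [hcd]
      simp only
      rw [dif_neg hI, Rat.cast_zero, zero_smul]
  have hinj : ∀ z : (κ → β) → ℂ, (∀ I, ¬vt ∘ I = ν → z I = 0) →
      wclC (evl rr F) L z = 0 → z = 0 := by
    intro z hz h0
    rw [wclC, hsub _ fun I hI => by
      rw [hz I hI]; exact zero_smul (CW T).K (em T.W ℂ (wd (evl rr F) L I))] at h0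
    have h5 : (∑ I : {I : κ → β // vt ∘ I = ν}, z I.1 • (B.baseChange ℂ) I :
        ℂ ⊗[T.W.K] T.W.H Y) = 0 := by
      refine (Finset.sum_congr rfl fun I _ => ?_).trans h0
      rw [Basis.baseChange_apply, h4]
      rfl
    have h6 := Fintype.linearIndependent_iff.1 (B.baseChange ℂ).linearIndependent
      (fun I => z I.1) h5
    funext I
    by_cases hI : vt ∘ I = ν
    · exact h6 ⟨I, hI⟩
    · exact hz I hI
  have hact : ∑ a, actk D.transpose a (fun I => (c I : ℂ)) = 0 := by
    apply hinj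
    · intro I hI
      rw [Finset.sum_apply]
      refine Finset.sum_eq_zero fun a _ => ?_
      rw [actk]
      refine Finset.sum_eq_zero fun j _ => ?_
      rw [Matrix.transpose_apply]
      by_cases hj : vt (I a) = vt j
      · have h5 : ¬vt ∘ Function.update I a j = ν := by
          intro h6
          apply hI
          rw [← h6]
          funext a'
          by_cases ha : a' = a
          · subst ha; rw [Function.comp_apply, Function.comp_apply, Function.update_self, hj]
          · rw [Function.comp_apply, Function.comp_apply, Function.update_of_ne ha]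
        have h7 : c (Function.update I a j) = 0 := by
          rw [hcd]
          simp only
          rw [dif_neg h5]
        rw [h7, Rat.cast_zero, mul_zero]
      · rw [hDv _ _ hj, zero_mul]
    · have h5 := dop_sp hy
      have h7 : dop T Y (wclC (evl rr F) L fun I => (c I : ℂ)) = wclC (evl rr F) L
          (∑ a ∈ L.toFinset, actk D.transpose a fun I => (c I : ℂ)) :=
        dop_wclC (ev := evl rr F) (D := D) (fun a => (hcomp (ν a)).map (F a)) L h1 _
      rw [← hy1, em_wcl, h7] at h5
      have h6 : L.toFinset = Finset.univ := by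
        ext a
        rw [List.mem_toFinset]
        exact ⟨fun _ => Finset.mem_univ _, fun _ => h2 a⟩
      rwa [h6] at h5
  have hfam := hmain κ c hact
  have h5 : y = ∑ ε : κ → Fin 2, wcl (evl rr F) L (prt p ε c) := by
    rw [← wcl_sum, sum_prt, hy1]
  rw [h5]
  exact Submodule.sum_mem _ fun ε _ => hfam i1 i2 ν h3 Y F L h1 h2 ε

end T

end Run7.h853.Cg
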