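import Pool.Agent.Run7.h853.Cy.Fin2

/-!
# The sum of polarized Hodge structures
-/

set_option linter.unusedSectionVars false

namespace Run7.h853.Cg

open Matrix ComplexOrder Pool.Agent.W437.HC Pool.Agent.W437.HD Pool.Agent.W437.HP
  Pool.Agent.W437.HR Pool.Agent.W437.CY Run7.h853.Cy

variable {J : Type} [Fintype J] [DecidableEq J] {w e : J → ℕ} (W : ∀ j, PolHS (w j) (e j))

/-- The dimension of the sum. -/
noncomputable def sl (e : J → ℕ) : ℕ := Fintype.card (Σ j, Fin (e j))

/-- The indices of the basis. -/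
noncomputable def sg (e : J → ℕ) : (Σ j, Fin (e j)) ≃ Fin (sl e) := Fintype.equivFin _

/-- The bound of the weights. -/
def sd (w : J → ℕ) : ℕ := ∑ j, w j

lemma le_sd (w : J → ℕ) (j : J) : w j ≤ sd w :=
  Finset.single_le_sum (f := w) (fun _ _ => Nat.zero_le _) (Finset.mem_univ j)

/-- The operator. -/
noncomputable def sD : Matrix (Fin (sl e)) (Fin (sl e)) ℂ :=
  (blockDiagonal' fun j => (W j).D).submatrix (sg e).symm (sg e).symm

/-- The form. -/
noncomputable def sS : Matrix (Fin (sl e)) (Fin (sl e)) ℚ :=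
  (blockDiagonal' fun j => (W j).Q).submatrix (sg e).symm (sg e).symm

/-- The component. -/
noncomputable def sb (j : J) (x : Fin (sl e) → ℂ) : Fin (e j) → ℂ := fun i => x (sg e ⟨j, i⟩)

lemma sS_unit : IsUnit (sS W) := by
  have h1 : (blockDiagonal' fun j => (W j).Q) * (blockDiagonal' fun j => (W j).Q⁻¹) = 1 := by
    rw [← blockDiagonal'_mul]
    have h2 : (fun j => (W j).Q * (W j).Q⁻¹) = fun j => 1 := by
      funext j
      exact mul_nonsing_inv _ ((isUnit_iff_isUnit_det _).1 (W j).unit)
    rw [h2]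
    exact blockDiagonal'_one
  have h3 : sS W * (blockDiagonal' fun j => (W j).Q⁻¹).submatrix (sg e).symm (sg e).symm = 1 := by
    rw [sS, submatrix_mul_equiv, h1, submatrix_one_equiv]
  exact ⟨⟨_, _, h3, mul_eq_one_comm.1 h3⟩, rfl⟩

lemma sum_sg {M : Type*} [AddCommMonoid M] (f : Fin (sl e) → M) :
    ∑ z, f z = ∑ j, ∑ i : Fin (e j), f (sg e ⟨j, i⟩) := by
  rw [← (sg e).sum_comp, Fintype.sum_sigma]

lemma sb_mulVec (x : Fin (sl e) → ℂ) (j : J) : sb j (sD W *ᵥ x) = (W j).D *ᵥ sb j x := by
  funext i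
  rw [sb, mulVec, dotProduct, sum_sg, Finset.sum_eq_single j]
  · rw [mulVec, dotProduct]
    refine Finset.sum_congr rfl fun i' _ => ?_
    rw [sD, submatrix_apply, Equiv.symm_apply_apply, Equiv.symm_apply_apply,
      blockDiagonal'_apply_eq]
    rfl
  · intro j' _ hj'
    refine Finset.sum_eq_zero fun i' _ => ?_
    rw [sD, submatrix_apply, Equiv.symm_apply_apply, Equiv.symm_apply_apply,
      blockDiagonal'_apply_ne _ _ _ (Ne.symm hj'), zero_mul]
  · intro h; exact absurd (Finset.mem_univ _) h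

lemma sb_ext {x y : Fin (sl e) → ℂ} (h : ∀ j, sb j x = sb j y) : x = y := by
  funext z
  obtain ⟨⟨j, i⟩, rfl⟩ := (sg e).surjective z
  exact congrFun (h j) i

/-- The vector with one component. -/
noncomputable def si (j : J) (x : Fin (e j) → ℂ) : Fin (sl e) → ℂ := fun z =>
  if h : ((sg e).symm z).1 = j then x (h ▸ ((sg e).symm z).2) else 0

lemma sb_si_same (j : J) (x : Fin (e j) → ℂ) : sb j (si j x) = x := by
  funext i
  have h : (sg e).symm (sg e ⟨j, i⟩) = ⟨j, i⟩ := Equiv.symm_apply_apply _ _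
  rw [sb, si]
  have h1 : ((sg e).symm (sg e ⟨j, i⟩)).1 = j := by rw [h]
  rw [dif_pos h1]
  congr 1
  have key : ∀ (z : Σ j, Fin (e j)) (h0 : z = ⟨j, i⟩) (h1 : z.1 = j), (h1 ▸ z.2 : Fin (e j)) = i := by
    rintro z rfl h1
    rfl
  exact key _ h h1

lemma sb_si_ne {j j' : J} (hj : j' ≠ j) (x : Fin (e j) → ℂ) : sb j' (si j x) = 0 := by
  funext i
  have h : (sg e).symm (sg e ⟨j', i⟩) = ⟨j', i⟩ := Equiv.symm_apply_apply _ _
  rw [sb, si, dif_neg]
  · rfl
  · rw [h]; exact hj

lemma sum_si (x : Fin (sl e) → ℂ) : ∑ j, si j (sb j x) = x := by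
  apply sb_ext
  intro j
  have h1 : sb j (∑ j', si j' (sb j' x)) = ∑ j', sb j (si j' (sb j' x)) := by
    funext i
    rw [sb, Finset.sum_apply, Finset.sum_apply]
    rfl
  rw [h1, Finset.sum_eq_single j]
  · exact sb_si_same j _
  · intro j' _ hj'
    exact sb_si_ne (Ne.symm hj') _
  · intro h; exact absurd (Finset.mem_univ _) h

/-- The eigenspaces. -/
noncomputable def sH (a : ℤ) : Submodule ℂ (Fin (sl e) → ℂ) :=
  Module.End.eigenspace (Matrix.toLin' (sD W)) (a : ℂ)

lemma mem_sH {a : ℤ} {x : Fin (sl e) → ℂ} : x ∈ sH W a ↔ sD W *ᵥ x = (a : ℂ) • x := by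
  rw [sH, Module.End.mem_eigenspace_iff, Matrix.toLin'_apply]

lemma sb_mem {a : ℤ} {x : Fin (sl e) → ℂ} (hx : x ∈ sH W a) (j : J) :
    sb j x = 0 ∨ ∃ p : Fin (w j + 1), 2 * (p : ℤ) - w j = a ∧ sb j x ∈ (W j).H p := by
  by_cases h : sb j x = 0
  · exact Or.inl h
  · right
    refine (W j).eig_mem ?_ h
    rw [← sb_mulVec, (mem_sH W).1 hx]
    rfl

lemma si_mem {j : J} {p : Fin (w j + 1)} {x : Fin (e j) → ℂ} (hx : x ∈ (W j).H p) :
    si j x ∈ sH W (2 * (p : ℤ) - w j) := by
  rw [mem_sH]
  apply sb_ext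
  intro j'
  rw [sb_mulVec]
  have h1 : ∀ (c : ℂ) (y : Fin (sl e) → ℂ), sb j' (c • y) = c • sb j' y := fun _ _ => rfl
  rw [h1]
  by_cases h : j' = j
  · subst h
    rw [sb_si_same, (W j').D_vec hx]
  · rw [sb_si_ne h, mulVec_zero, smul_zero]

/-- The sum. -/
noncomputable def sumHS : LowHS (sd w) (sl e) where
  H a := sH W ((a : ℤ) - sd w)
  S := sS W
  dec := by
    apply DirectSum.isInternal_submodule_of_iSupIndep_of_iSup_eq_top
    · have h1 := Module.End.eigenspaces_iSupIndep (Matrix.toLin' (sD W))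
      refine h1.comp (f := fun a : Fin (2 * sd w + 1) => (((a : ℤ) - sd w : ℤ) : ℂ)) ?_
      intro a b hab
      have h2 : ((a : ℤ) - sd w : ℤ) = (b : ℤ) - sd w := Int.cast_injective (α := ℂ) hab
      apply Fin.ext
      omega
    · rw [eq_top_iff]
      intro x _
      rw [← sum_si x]
      refine Submodule.sum_mem _ fun j _ => ?_
      have h1 : sb j x ∈ ⨆ p, (W j).H p := by
        rw [(W j).dec.submodule_iSup_eq_top]; trivial
      generalize sb j x = y at h1
      induction h1 using Submodule.iSup_induction' with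
      | mem p y hy =>
        have h2 := si_mem W hy
        have hp := p.2
        have hw := le_sd w j
        have h3 : ((⟨2 * (p : ℕ) + sd w - w j, by omega⟩ : Fin (2 * sd w + 1)) : ℤ) - sd w =
            2 * (p : ℤ) - w j := by
          push_cast [show w j ≤ 2 * (p : ℕ) + sd w by omega]
          ring
        rw [← h3] at h2
        exact Submodule.mem_iSup_of_mem
          (⟨2 * (p : ℕ) + sd w - w j, by omega⟩ : Fin (2 * sd w + 1)) h2
      | zero =>
        have h2 : si j (0 : Fin (e j) → ℂ) = 0 := by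
          funext z
          rw [si]
          split_ifs <;> rfl
        rw [h2]
        exact Submodule.zero_mem _
      | add y y' _ _ hy hy' =>
        have h2 : si j (y + y') = si j y + si j y' := by
          funext z
          rw [Pi.add_apply, si, si, si]
          split_ifs
          · rfl
          · rw [add_zero]
        rw [h2]
        exact Submodule.add_mem _ hy hy'
  unit := sS_unit W
  orth := by
    intro a b hab x hx y hy
    rw [sum_sg]
    refine Finset.sum_eq_zero fun j _ => ?_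
    have h1 : ∀ i : Fin (e j), ∑ z, x (sg e ⟨j, i⟩) * ((sS W (sg e ⟨j, i⟩) z : ℚ) : ℂ) * y z =
        ∑ i', sb j x i * (((W j).Q i i' : ℚ) : ℂ) * sb j y i' := by
      intro i
      rw [sum_sg, Finset.sum_eq_single j]
      · refine Finset.sum_congr rfl fun i' _ => ?_
        rw [sS, submatrix_apply, Equiv.symm_apply_apply, Equiv.symm_apply_apply,
          blockDiagonal'_apply_eq]
        rfl
      · intro j' _ hj'
        refine Finset.sum_eq_zero fun i' _ => ?_
        rw [sS, submatrix_apply, Equiv.symm_apply_apply, Equiv.symm_apply_apply,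
          blockDiagonal'_apply_ne _ _ _ (Ne.symm hj'), Rat.cast_zero, mul_zero, zero_mul]
      · intro h; exact absurd (Finset.mem_univ _) h
    rw [Finset.sum_congr rfl fun i _ => h1 i]
    rcases sb_mem W hx j with h2 | ⟨p, hp, h2⟩
    · rw [h2]
      simp
    · rcases sb_mem W hy j with h3 | ⟨q, hq, h3⟩
      · rw [h3]
        simp
      · refine (W j).orth p q ?_ _ h2 _ h3
        intro hpq
        apply hab
        omega

lemma sumHS_D : (sumHS W).D = sD W := by
  refine (sumHS W).ext_mat fun p x hx => ?_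
  rw [(sumHS W).D_vec hx]
  exact ((mem_sH W).1 hx).symm

/-- The matrix of the component. -/
noncomputable def sp (e : J → ℕ) (j : J) : Matrix (Fin (e j)) (Fin (sl e)) ℚ :=
  Matrix.of fun i z => if z = sg e ⟨j, i⟩ then 1 else 0

lemma sumHS_isSum : IsSum (sumHS W) W := by
  refine ⟨sp e, ?_, ?_, ?_⟩
  · intro x hx
    funext z
    obtain ⟨⟨j, i⟩, rfl⟩ := (sg e).surjective z
    have h1 := congrFun (hx j) i
    rw [mulVec, dotProduct, Finset.sum_eq_single (sg e ⟨j, i⟩)] at h1
    · rw [sp, of_apply, if_pos rfl, one_mul] at h1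
      exact h1
    · intro z _ hz
      rw [sp, of_apply, if_neg hz, zero_mul]
    · intro h; exact absurd (Finset.mem_univ _) h
  · rw [sl, Fintype.card_sigma]
    exact Finset.sum_congr rfl fun j _ => (Fintype.card_fin _).symm
  · intro j a x hx
    have h1 : ((sp e j).map fun t : ℚ => (t : ℂ)) *ᵥ x = sb j x := by
      funext i
      rw [mulVec, dotProduct, Finset.sum_eq_single (sg e ⟨j, i⟩)]
      · rw [map_apply, sp, of_apply, if_pos rfl, Rat.cast_one, one_mul]
        rfl
      · intro z _ hz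
        rw [map_apply, sp, of_apply, if_neg hz, Rat.cast_zero, zero_mul]
      · intro h; exact absurd (Finset.mem_univ _) h
    rw [h1]
    rcases sb_mem W hx j with h2 | ⟨p, hp, h2⟩
    · rw [h2]
      exact Submodule.zero_mem _
    · exact Submodule.mem_iSup_of_mem p (Submodule.mem_iSup_of_mem hp h2)

/-- The trivial Hodge structure. -/
noncomputable def triv : PolHS 0 1 where
  H _ := ⊤
  Q := 1
  dec := by
    apply DirectSum.isInternal_submodule_of_iSupIndep_of_iSup_eq_top
    · have : Subsingleton (Fin (0 + 1)) := inferInstanceAs (Subsingleton (Fin 1))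
      exact iSupIndep_subsingleton _
    · exact iSup_const
  conj _ _ _ := trivial
  sym := by rw [transpose_one, pow_zero, one_smul]
  orth p q h := by
    exfalso
    have h1 := p.2
    have h2 := q.2
    omega
  pos p x _ hx := by
    have h1 : (p : ℤ) = 0 := by have := p.2; omega
    rw [h1]
    have h2 : ∑ i, ∑ j, x i * (((1 : Matrix (Fin 1) (Fin 1) ℚ) i j : ℚ) : ℂ) *
        starRingEnd ℂ (x j) = x 0 * starRingEnd ℂ (x 0) := by
      simp
    rw [h2]
    have h3 : x 0 ≠ 0 := by
      intro h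
      apply hx
      funext i
      rw [Subsingleton.elim i 0, h]
      rfl
    have h4 : Complex.I ^ (2 * (0 : ℤ) - ((0 : ℕ) : ℤ)) = 1 := by simp
    rw [h4, one_mul, Complex.mul_conj]
    have h5 : 0 < Complex.normSq (x 0) := Complex.normSq_pos.2 h3
    exact_mod_cast h5

lemma triv_D : triv.D = 0 := by
  refine triv.ext_mat fun p x hx => ?_
  rw [triv.D_vec hx, zero_mulVec]
  have h1 : (p : ℤ) = 0 := by have := p.2; omega
  rw [h1]
  simp

lemma triv_indep {k N : ℕ} (V : PolHS k N) (hk : Odd k) : Indep V triv := by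
  refine Or.inl fun p hp => ?_
  exfalso
  have h1 : (p : ℤ) = 0 := by have := p.2; omega
  rw [h1] at hp
  obtain ⟨r, hr⟩ := hk
  simp at hp
  omega

end Run7.h853.Cg
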