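import Pool.Agent.Run7.h853.Cg.A4
import Pool.Agent.Run7.h853.Cg.A5

/-!
# The letters
-/

set_option linter.unusedSectionVars false

open CategoryTheory AlgebraicGeometry TensorProduct

universe u

namespace Run7.h853.Cg

open Module
open Pool.Agent.H914 Pool.Agent.H914.VarClass Pool.Agent.H914.VarClass.Obj
  Pool.Agent.H914.WeilCohomology
open Pool.Agent.Y133.Half Pool.Agent.Y121.AH Pool.Agent.N996.BP.Geo
open Pool.Agent.W437.HC (actk)
open Pool.Agent.W437.HP (cK)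
open Pool.Agent.W437.CY

variable {k : Type u} [Field k] {𝒱 : VarClass k} {ops : CycleOps 𝒱}

section Lin

variable {T : HodgeTheory ops} {Y : 𝒱.Obj} {N : ℕ}

/-- The complex class with given coordinates. -/
noncomputable def lin (f : Fin N → T.W.H Y) (x : Fin N → ℂ) : (CW T).H Y :=
  ∑ i, cc T (x i) • em T.W ℂ (f i)

lemma lin_add (f : Fin N → T.W.H Y) (x y : Fin N → ℂ) : lin f (x + y) = lin f x + lin f y := by
  rw [lin, lin, lin, ← Finset.sum_add_distrib]
  refine Finset.sum_congr rfl fun i _ => ?_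
  exact add_smul (cc T (x i)) (cc T (y i)) (em T.W ℂ (f i))

lemma lin_smul (f : Fin N → T.W.H Y) (c : ℂ) (x : Fin N → ℂ) :
    lin f (c • x) = cc T c • lin f x := by
  rw [lin, lin, Finset.smul_sum]
  refine Finset.sum_congr rfl fun i _ => ?_
  exact mul_smul (cc T c) (cc T (x i)) (em T.W ℂ (f i))

lemma lin_zero (f : Fin N → T.W.H Y) : lin f 0 = 0 :=
  Finset.sum_eq_zero fun i _ => zero_smul (CW T).K (em T.W ℂ (f i))

lemma lin_sum (f : Fin N → T.W.H Y) {α : Type*} (s : Finset α) (x : α → Fin N → ℂ) :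
    lin f (∑ a ∈ s, x a) = ∑ a ∈ s, lin f (x a) := by
  classical
  induction s using Finset.induction_on with
  | empty => rw [Finset.sum_empty, Finset.sum_empty, lin_zero]
  | insert a s ha ih => rw [Finset.sum_insert ha, Finset.sum_insert ha, lin_add, ih]

lemma lin_single (f : Fin N → T.W.H Y) (i : Fin N) :
    lin f (Pi.single i 1) = em T.W ℂ (f i) := by
  rw [lin, Finset.sum_eq_single i]
  · rw [Pi.single_eq_same]
    exact one_smul (CW T).K _
  · intro j _ hj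
    rw [Pi.single_eq_of_ne hj]
    exact zero_smul (CW T).K _
  · intro h; exact absurd (Finset.mem_univ _) h

/-- The action of the derivation on a block. -/
lemma lin_comp {w : ℕ} (V : PolHS w N) (f : Fin N → T.W.H Y)
    (hf : ∀ p, ∀ x ∈ V.H p, dop T Y (lin f x) = cc T ((2 * (p : ℤ) - w : ℤ) : ℂ) • lin f x)
    (i : Fin N) : dop T Y (em T.W ℂ (f i)) = ∑ i', cc T (V.D i' i) • em T.W ℂ (f i') := by
  have key : ∀ x, dop T Y (lin f x) = lin f (V.D.mulVec x) := by
    intro x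
    rw [← V.pl_sum x, lin_sum, map_sum, Matrix.mulVec_sum, lin_sum]
    refine Finset.sum_congr rfl fun p _ => ?_
    rw [hf p _ (V.pl_mem p x), V.D_vec (V.pl_mem p x), lin_smul]
  have h1 := key (Pi.single i 1)
  rw [lin_single, Matrix.mulVec_single_one] at h1
  exact h1

end Lin

section Gd

variable {ι : Type} [Fintype ι] [DecidableEq ι] {ww N : ι → ℕ} (V : ∀ i, PolHS (ww i) (N i))

lemma gD_apply (i : ι) (c : Fin (N i)) (z : Σ i, Fin (N i)) :
    gD V ⟨i, c⟩ z = ∑ c', (V i).D c c' * (if z = ⟨i, c'⟩ then 1 else 0) := by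
  have h1 := congrFun (congrFun (pm_glue (K := ℂ) (fun i => (V i).D) i) c) z
  rw [Matrix.mul_apply, Matrix.mul_apply, Finset.sum_eq_single (⟨i, c⟩ : Σ i, Fin (N i))] at h1
  · have h2 : cK ℂ (pm N i) c ⟨i, c⟩ = 1 := by
      change ((pm N i c ⟨i, c⟩ : ℚ) : ℂ) = 1
      rw [pm_apply, if_pos rfl, Rat.cast_one]
    rw [h2, one_mul] at h1
    refine Eq.trans h1 (Finset.sum_congr rfl fun c' _ => ?_)
    congr 1
    change ((pm N i c' z : ℚ) : ℂ) = _
    rw [pm_apply]
    split_ifs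
    · exact Rat.cast_one
    · exact Rat.cast_zero
  · intro z' _ hz'
    have h2 : cK ℂ (pm N i) c z' = 0 := by
      change ((pm N i c z' : ℚ) : ℂ) = 0
      rw [pm_apply, if_neg hz', Rat.cast_zero]
    rw [h2, zero_mul]
  · intro h; exact absurd (Finset.mem_univ _) h

lemma gD_block (z z' : Σ i, Fin (N i)) :
    gD V z z' = Matrix.blockDiagonal' (fun i => (V i).D) z z' := by
  obtain ⟨i, c⟩ := z
  obtain ⟨i', c'⟩ := z'
  rw [gD_apply]
  by_cases h : i = i'
  · subst h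
    rw [Matrix.blockDiagonal'_apply_eq, Finset.sum_eq_single c', if_pos rfl, mul_one]
    · intro c'' _ hc''
      rw [if_neg, mul_zero]
      intro h
      apply hc''
      simpa using h.symm
    · intro h; exact absurd (Finset.mem_univ _) h
  · rw [Matrix.blockDiagonal'_apply_ne _ _ _ h]
    refine Finset.sum_eq_zero fun c'' _ => ?_
    rw [if_neg, mul_zero]
    intro h'
    exact h (congrArg Sigma.fst h').symm

end Gd

/-- The data. -/
structure Cfg (T : HodgeTheory ops) (ι : Type) [Fintype ι] [DecidableEq ι] where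
  /-- a variety -/
  Z : 𝒱.Obj
  /-- varieties -/
  X : ι → 𝒱.Obj
  /-- index set -/
  J : Type
  /-- finite -/
  fJ : Fintype J
  /-- decidable -/
  dJ : DecidableEq J
  /-- weights -/
  uu : J → ℕ
  /-- dimensions -/
  ee : J → ℕ
  /-- twists -/
  tt : J → ℕ
  /-- structures -/
  W : ∀ j, PolHS (uu j) (ee j)
  /-- weights -/
  ww : ι → ℕ
  /-- dimensions -/
  N : ι → ℕ
  /-- twists -/
  mm : ι → ℕ
  /-- numbers -/
  Al : ι → ℕ
  /-- structures -/
  V : ∀ i, PolHS (ww i) (N i)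
  /-- classes -/
  BZ : (Σ j, Fin (ee j)) → T.W.H Z
  /-- basis -/
  BX : ∀ i, Basis (Fin (N i) ⊕ Fin (Al i)) T.W.K (T.W.H (X i))
  hZdeg : ∀ j i, BZ ⟨j, i⟩ ∈ T.W.gr Z (uu j + 2 * tt j)
  hZtype : ∀ j p, ∀ x ∈ (W j).H p, lin (fun i => BZ ⟨j, i⟩) x ∈
    T.pq Z (p + tt j) (uu j - p + tt j)
  hXdeg : ∀ i b, BX i (Sum.inl b) ∈ T.W.gr (X i) (ww i + 2 * mm i)
  hXtype : ∀ i p, ∀ x ∈ (V i).H p, lin (fun b => BX i (Sum.inl b)) x ∈
    T.pq (X i) (p + mm i) (ww i - p + mm i)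
  hA : ∀ i a, BX i (Sum.inr a) ∈ (hodgePred T).sp (X i)
  hodd : ∀ i, Odd (ww i)

namespace Cfg

variable {T : HodgeTheory ops} {ι : Type} [Fintype ι] [DecidableEq ι] (C : Cfg T ι)

instance : Fintype C.J := C.fJ
instance : DecidableEq C.J := C.dJ

/-- The index set of the summands. -/
abbrev J' : Type := C.J ⊕ (Σ i, Fin (C.Al i))

/-- The weights. -/
def u' : C.J' → ℕ := Sum.elim C.uu fun _ => 0

/-- The dimensions. -/
def e' : C.J' → ℕ := Sum.elim C.ee fun _ => 1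

/-- The summands. -/
noncomputable def W' : ∀ j : C.J', PolHS (C.u' j) (C.e' j)
  | Sum.inl j => C.W j
  | Sum.inr _ => triv

/-- The sum. -/
noncomputable def M : LowHS (sd C.u') (sl C.e') := sumHS C.W'

/-- The vertices. -/
def XX : Option ι → 𝒱.Obj := fun v => v.elim C.Z C.X

/-- The letters, first form. -/
abbrev L1 : Type := (Σ j : C.J', Fin (C.e' j)) ⊕ (Σ i, Fin (C.N i))

/-- The letters. -/
abbrev β : Type := Bas (sl C.e') C.N

/-- The comparison of the letters. -/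
noncomputable def φ : C.L1 ≃ C.β := Equiv.sumCongr (sg C.e') (Equiv.refl _)

/-- The vertices of the letters. -/
def vt1 : C.L1 → Option ι
  | Sum.inl ⟨Sum.inl _, _⟩ => none
  | Sum.inl ⟨Sum.inr a, _⟩ => some a.1
  | Sum.inr b => some b.1

/-- The parities of the letters. -/
def p1 : C.L1 → Fin 2
  | Sum.inl ⟨Sum.inl j, _⟩ => Fin.ofNat 2 (C.uu j)
  | Sum.inl ⟨Sum.inr _, _⟩ => 0
  | Sum.inr _ => 1

/-- The classes of the letters. -/
noncomputable def rr1 : ∀ v : Option ι, C.L1 → T.W.H (C.XX v)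
  | none, Sum.inl ⟨Sum.inl j, i⟩ => (C.BZ ⟨j, i⟩ : T.W.H C.Z)
  | none, Sum.inl ⟨Sum.inr _, _⟩ => 0
  | none, Sum.inr _ => 0
  | some _, Sum.inl ⟨Sum.inl _, _⟩ => 0
  | some i, Sum.inl ⟨Sum.inr a, _⟩ =>
    if h : a.1 = i then (C.BX i (Sum.inr (Fin.cast (congrArg C.Al h) a.2)) : T.W.H (C.X i))
    else (0 : T.W.H (C.X i))
  | some i, Sum.inr b =>
    if h : b.1 = i then (C.BX i (Sum.inl (Fin.cast (congrArg C.N h) b.2)) : T.W.H (C.X i))
    else (0 : T.W.H (C.X i))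

/-- The vertices of the letters. -/
noncomputable def vt (b : C.β) : Option ι := C.vt1 (C.φ.symm b)

/-- The parities of the letters. -/
noncomputable def p (b : C.β) : Fin 2 := C.p1 (C.φ.symm b)

/-- The classes of the letters. -/
noncomputable def rr (v : Option ι) (b : C.β) : T.W.H (C.XX v) := C.rr1 v (C.φ.symm b)

lemma vt_φ (b : C.L1) : C.vt (C.φ b) = C.vt1 b := by rw [vt, Equiv.symm_apply_apply]
lemma p_φ (b : C.L1) : C.p (C.φ b) = C.p1 b := by rw [p, Equiv.symm_apply_apply]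
lemma rr_φ (v : Option ι) (b : C.L1) : C.rr v (C.φ b) = C.rr1 v b := by
  rw [rr, Equiv.symm_apply_apply]

/-- The operator. -/
noncomputable def D : Matrix C.β C.β ℂ := DM C.M C.V

/-- The operator, first form. -/
noncomputable def D1 : Matrix C.L1 C.L1 ℂ :=
  Matrix.fromBlocks (Matrix.blockDiagonal' fun j => (C.W' j).D) 0 0
    (Matrix.blockDiagonal' fun i => (C.V i).D)

lemma D_φ (b b' : C.L1) : C.D (C.φ b) (C.φ b') = C.D1 b b' := by
  rcases b with b | b
  · rcases b' with b' | b'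
    · change C.M.D (sg C.e' b) (sg C.e' b') = _
      rw [M, sumHS_D, sD, Matrix.submatrix_apply, Equiv.symm_apply_apply,
        Equiv.symm_apply_apply]
      rfl
    · rfl
  · rcases b' with b' | b'
    · rfl
    · change gD C.V b b' = _
      exact gD_block C.V b b'

/-- The entries of the operator. -/
lemma D1_cases {b b' : C.L1} (h : C.D1 b b' ≠ 0) :
    (∃ (j : C.J) (i i' : Fin (C.ee j)), b = Sum.inl ⟨Sum.inl j, i⟩ ∧
      b' = Sum.inl ⟨Sum.inl j, i'⟩) ∨
    ∃ (i : ι) (c c' : Fin (C.N i)), b = Sum.inr ⟨i, c⟩ ∧ b' = Sum.inr ⟨i, c'⟩ := by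
  rcases b with ⟨j, i⟩ | ⟨i, c⟩
  · rcases b' with ⟨j', i'⟩ | b'
    · left
      have h1 : Matrix.blockDiagonal' (fun j => (C.W' j).D) ⟨j, i⟩ ⟨j', i'⟩ ≠ 0 := h
      by_cases hj : j = j'
      · subst hj
        rw [Matrix.blockDiagonal'_apply_eq] at h1
        rcases j with j | a
        · exact ⟨j, i, i', rfl, rfl⟩
        · exfalso
          apply h1
          have h2 : (C.W' (Sum.inr a)).D = 0 := triv_D
          exact congrFun (congrFun h2 i) i'
      · exact absurd (Matrix.blockDiagonal'_apply_ne _ _ _ hj) h1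
    · exact absurd rfl h
  · rcases b' with b' | ⟨i', c'⟩
    · exact absurd rfl h
    · right
      have h1 : Matrix.blockDiagonal' (fun i => (C.V i).D) ⟨i, c⟩ ⟨i', c'⟩ ≠ 0 := h
      by_cases hi : i = i'
      · subst hi
        exact ⟨i, c, c', rfl, rfl⟩
      · exact absurd (Matrix.blockDiagonal'_apply_ne _ _ _ hi) h1

lemma D_vt {b b' : C.β} (h : C.vt b ≠ C.vt b') : C.D b b' = 0 := by
  by_contra h0
  obtain ⟨b, rfl⟩ := C.φ.surjective b
  obtain ⟨b', rfl⟩ := C.φ.surjective b'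
  rw [D_φ] at h0
  rw [vt_φ, vt_φ] at h
  rcases C.D1_cases h0 with ⟨j, i, i', rfl, rfl⟩ | ⟨i, c, c', rfl, rfl⟩
  · exact h rfl
  · exact h rfl

lemma D_p {b b' : C.β} (h : C.p b ≠ C.p b') : C.D b b' = 0 := by
  by_contra h0
  obtain ⟨b, rfl⟩ := C.φ.surjective b
  obtain ⟨b', rfl⟩ := C.φ.surjective b'
  rw [D_φ] at h0
  rw [p_φ, p_φ] at h
  rcases C.D1_cases h0 with ⟨j, i, i', rfl, rfl⟩ | ⟨i, c, c', rfl, rfl⟩
  · exact h rfl
  · exact h rfl

/-- The algebraic letters. -/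
def Alg (b : C.β) : Prop := ∃ (a : Σ i, Fin (C.Al i)) (i : Fin (C.e' (Sum.inr a))),
  b = C.φ (Sum.inl ⟨Sum.inr a, i⟩)

lemma D_alg {b : C.β} (h : C.Alg b) (b' : C.β) : C.D b b' = 0 := by
  by_contra h0
  obtain ⟨a, i, rfl⟩ := h
  obtain ⟨b', rfl⟩ := C.φ.surjective b'
  rw [D_φ] at h0
  rcases C.D1_cases h0 with ⟨j, i, i', h1, -⟩ | ⟨i, c, c', h1, -⟩
  · exact Sum.inr_ne_inl (congrArg Sigma.fst (Sum.inl.inj h1))
  · exact Sum.inl_ne_inr h1

lemma rr_alg {S : Sys T.W} (hS : ∀ i, (hodgePred T).sp (C.X i) ≤ S.C (C.X i)) {b : C.β}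
    (h : C.Alg b) (v : Option ι) : C.rr v b ∈ S.C (C.XX v) := by
  obtain ⟨a, i, rfl⟩ := h
  rw [rr_φ]
  rcases v with _ | i'
  · exact Submodule.zero_mem _
  · change (if h : a.1 = i' then (C.BX i' (Sum.inr (Fin.cast (congrArg C.Al h) a.2)) :
      T.W.H (C.X i')) else (0 : T.W.H (C.X i'))) ∈ S.C (C.X i')
    split_ifs with h
    · exact hS i' (C.hA i' _)
    · exact Submodule.zero_mem _

lemma rr_low {b : C.β} (hM : b.isLeft = true) (h : ¬C.Alg b) {v : Option ι} (hv : v ≠ none) :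
    C.rr v b = 0 := by
  obtain ⟨b, rfl⟩ := C.φ.surjective b
  rw [rr_φ]
  rcases v with _ | i'
  · exact absurd rfl hv
  · rcases b with ⟨j | a, i⟩ | b
    · rfl
    · exact absurd ⟨a, i, rfl⟩ h
    · exact absurd hM (by simp [φ])

lemma rr_par (v : Option ι) (b : C.β) : C.rr v b ∈ PH T.W (C.XX v) (C.p b : ℕ) := by
  obtain ⟨b, rfl⟩ := C.φ.surjective b
  rw [rr_φ, p_φ]
  rcases v with _ | i'
  · rcases b with ⟨j | a, i⟩ | b
    · change C.BZ ⟨j, i⟩ ∈ PH T.W C.Z ((Fin.ofNat 2 (C.uu j) : Fin 2) : ℕ)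
      refine PH.of' ?_ (C.hZdeg j i)
      have h1 : ((Fin.ofNat 2 (C.uu j) : Fin 2) : ℕ) = C.uu j % 2 := rfl
      rw [h1]
      omega
    · exact Submodule.zero_mem _
    · exact Submodule.zero_mem _
  · rcases b with ⟨j | a, i⟩ | b
    · exact Submodule.zero_mem _
    · change (if h : a.1 = i' then (C.BX i' (Sum.inr (Fin.cast (congrArg C.Al h) a.2)) :
        T.W.H (C.X i')) else (0 : T.W.H (C.X i'))) ∈ PH T.W (C.X i') 0
      split_ifs with h
      · exact ClassPred.sp_even (Q := hodgePred T) (C.hA i' _)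
      · exact Submodule.zero_mem _
    · change (if h : b.1 = i' then (C.BX i' (Sum.inl (Fin.cast (congrArg C.N h) b.2)) :
        T.W.H (C.X i')) else (0 : T.W.H (C.X i'))) ∈ PH T.W (C.X i') 1
      split_ifs with h
      · refine PH.of' ?_ (C.hXdeg i' _)
        obtain ⟨r, hr⟩ := C.hodd i'
        omega
      · exact Submodule.zero_mem _

/-- The sum over a block. -/
lemma sum_block {E : Type*} [AddCommGroup E] [Module (CW T).K E] (f : C.L1 → E) (b : C.L1) :
    ∑ b', cc T (C.D1 b' b) • f b' = match b with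
      | Sum.inl ⟨j, i⟩ => ∑ i', cc T ((C.W' j).D i' i) • f (Sum.inl ⟨j, i'⟩)
      | Sum.inr ⟨i, c⟩ => ∑ c', cc T ((C.V i).D c' c) • f (Sum.inr ⟨i, c'⟩) := by
  rw [Fintype.sum_sum_type, Fintype.sum_sigma, Fintype.sum_sigma]
  rcases b with ⟨j, i⟩ | ⟨i, c⟩
  · have h1 : ∑ i', ∑ c' : Fin (C.N i'), cc T (C.D1 (Sum.inr ⟨i', c'⟩) (Sum.inl ⟨j, i⟩)) •
        f (Sum.inr ⟨i', c'⟩) = 0 :=
      Finset.sum_eq_zero fun i' _ => Finset.sum_eq_zero fun c' _ =>
        zero_smul (CW T).K (f (Sum.inr ⟨i', c'⟩))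
    rw [h1, add_zero, Finset.sum_eq_single j]
    · refine Finset.sum_congr rfl fun i' _ => ?_
      have h2 : C.D1 (Sum.inl ⟨j, i'⟩) (Sum.inl ⟨j, i⟩) = (C.W' j).D i' i :=
        Matrix.blockDiagonal'_apply_eq (fun j => (C.W' j).D) _ _ _
      rw [h2]
    · intro j' _ hj'
      refine Finset.sum_eq_zero fun i' _ => ?_
      have h2 : C.D1 (Sum.inl ⟨j', i'⟩) (Sum.inl ⟨j, i⟩) = 0 :=
        Matrix.blockDiagonal'_apply_ne (fun j => (C.W' j).D) _ _ hj'
      rw [h2]
      exact zero_smul (CW T).K _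
    · intro h; exact absurd (Finset.mem_univ _) h
  · have h1 : ∑ j', ∑ i' : Fin (C.e' j'), cc T (C.D1 (Sum.inl ⟨j', i'⟩) (Sum.inr ⟨i, c⟩)) •
        f (Sum.inl ⟨j', i'⟩) = 0 :=
      Finset.sum_eq_zero fun j' _ => Finset.sum_eq_zero fun i' _ =>
        zero_smul (CW T).K (f (Sum.inl ⟨j', i'⟩))
    rw [h1, zero_add, Finset.sum_eq_single i]
    · refine Finset.sum_congr rfl fun c' _ => ?_
      have h2 : C.D1 (Sum.inr ⟨i, c'⟩) (Sum.inr ⟨i, c⟩) = (C.V i).D c' c :=
        Matrix.blockDiagonal'_apply_eq (fun i => (C.V i).D) _ _ _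
      rw [h2]
    · intro i' _ hi'
      refine Finset.sum_eq_zero fun c' _ => ?_
      have h2 : C.D1 (Sum.inr ⟨i', c'⟩) (Sum.inr ⟨i, c⟩) = 0 :=
        Matrix.blockDiagonal'_apply_ne (fun i => (C.V i).D) _ _ hi'
      rw [h2]
      exact zero_smul (CW T).K _
    · intro h; exact absurd (Finset.mem_univ _) h

/-- The compatibility of the letters with the operator. -/
lemma comp (v : Option ι) : Comp C.D (C.rr v) := by
  intro b
  obtain ⟨b, rfl⟩ := C.φ.surjective b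
  rw [rr_φ, ← C.φ.sum_comp]
  simp only [D_φ, rr_φ]
  rw [C.sum_block (fun b' => em T.W ℂ (C.rr1 v b')) b]
  have hzero : ∀ {s : Type} [Fintype s] (g : s → (CW T).K),
      dop T (C.XX v) (em T.W ℂ (0 : T.W.H (C.XX v))) =
        ∑ i', g i' • em T.W ℂ (0 : T.W.H (C.XX v)) := by
    intro s _ g
    rw [em_zero, map_zero]
    exact (Finset.sum_eq_zero fun i' _ => smul_zero (g i')).symm
  rcases v with _ | i'
  · rcases b with ⟨j | a, i⟩ | ⟨i, c⟩
    · refine lin_comp (C.W j) (fun i => (C.BZ ⟨j, i⟩ : T.W.H C.Z)) (fun p x hx => ?_) i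
      have h1 := dop_pq (C.hZtype j p x hx)
      have h2 : ((p : ℤ) + C.tt j - (C.uu j - p + C.tt j)) = 2 * (p : ℤ) - C.uu j := by ring
      rw [h2] at h1
      exact h1
    · exact hzero _
    · exact hzero _
  · rcases b with ⟨j | a, i⟩ | ⟨i, c⟩
    · exact hzero _
    · have h0 : ∀ i'', (C.W' (Sum.inr a)).D i'' i = 0 := fun i'' =>
        congrFun (congrFun (triv_D : (C.W' (Sum.inr a)).D = 0) i'') i
      simp only [h0]
      have h1 : ∑ i'' : Fin (C.e' (Sum.inr a)), cc T 0 •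
          em T.W ℂ (C.rr1 (some i') (Sum.inl ⟨Sum.inr a, i''⟩)) = 0 :=
        Finset.sum_eq_zero fun i'' _ => zero_smul (CW T).K _
      rw [h1]
      have h2 : C.rr1 (some i') (Sum.inl ⟨Sum.inr a, i⟩) ∈ (hodgePred T).sp (C.X i') := by
        change (if h : a.1 = i' then (C.BX i' (Sum.inr (Fin.cast (congrArg C.Al h) a.2)) :
          T.W.H (C.X i')) else (0 : T.W.H (C.X i'))) ∈ _
        split_ifs with h
        · exact C.hA i' _
        · exact Submodule.zero_mem _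
      exact dop_sp h2
    · by_cases h : i = i'
      · subst h
        have h3 : ∀ c, C.rr1 (some i) (Sum.inr ⟨i, c⟩) = (C.BX i (Sum.inl c) : T.W.H (C.X i)) :=
          fun c => dif_pos rfl
        simp only [h3]
        refine lin_comp (C.V i) (fun c => (C.BX i (Sum.inl c) : T.W.H (C.X i)))
          (fun p x hx => ?_) c
        have h1 := dop_pq (C.hXtype i p x hx)
        have h2 : ((p : ℤ) + C.mm i - (C.ww i - p + C.mm i)) = 2 * (p : ℤ) - C.ww i := by ring
        rw [h2] at h1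
        exact h1
      · have h3 : ∀ c, C.rr1 (some i') (Sum.inr ⟨i, c⟩) = (0 : T.W.H (C.XX (some i'))) :=
          fun c => dif_neg h
        simp only [h3]
        exact hzero _

lemma rr1_V (i : ι) (c : Fin (C.N i)) : C.rr1 (some i) (Sum.inr ⟨i, c⟩) =
    (C.BX i (Sum.inl c) : T.W.H (C.X i)) := dif_pos rfl

lemma rr1_A (i : ι) (a : Fin (C.Al i)) (j : Fin (C.e' (Sum.inr ⟨i, a⟩))) :
    C.rr1 (some i) (Sum.inl ⟨Sum.inr ⟨i, a⟩, j⟩) = (C.BX i (Sum.inr a) : T.W.H (C.X i)) :=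
  dif_pos rfl

lemma reindex_self {ι' κ' K E : Type} [Field K] [AddCommGroup E] [Module K E]
    (B : Basis ι' K E) (e : ι' ≃ κ') (x : ι') : (B.reindex e) (e x) = B x := by
  rw [Basis.reindex_apply, Equiv.symm_apply_apply]

/-- The basis of the first vertex. -/
lemma basis_none {B0 : Basis (Σ j, Fin (C.ee j)) T.W.K (T.W.H C.Z)} (hB0 : ∀ x, B0 x = C.BZ x) :
    ∃ B : Basis {b : C.β // C.vt b = none} T.W.K (T.W.H (C.XX none)),
      ∀ b, B b = C.rr none b := by
  let f : (Σ j, Fin (C.ee j)) → {b : C.β // C.vt b = none} := fun x =>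
    ⟨C.φ (Sum.inl ⟨Sum.inl x.1, x.2⟩), by rw [vt_φ]; rfl⟩
  have hf : Function.Bijective f := by
    constructor
    · intro x y hxy
      have h1 := Sum.inl.inj (C.φ.injective (congrArg Subtype.val hxy))
      obtain ⟨j, i⟩ := x
      obtain ⟨j', i'⟩ := y
      have h2 : j = j' := Sum.inl.inj (congrArg Sigma.fst h1)
      subst h2
      have h3 : i = i' := by
        have h4 := (Sigma.mk.inj h1).2
        exact eq_of_heq h4
      rw [h3]
    · rintro ⟨b, hb⟩
      obtain ⟨b, rfl⟩ := C.φ.surjective b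
      rw [vt_φ] at hb
      rcases b with ⟨j | a, i⟩ | b
      · exact ⟨⟨j, i⟩, rfl⟩
      · cases hb
      · cases hb
  refine ⟨B0.reindex (Equiv.ofBijective f hf), fun b => ?_⟩
  obtain ⟨x, rfl⟩ := (Equiv.ofBijective f hf).surjective b
  refine Eq.trans (reindex_self B0 (Equiv.ofBijective f hf) x) ?_
  refine Eq.trans (hB0 x) ?_
  change (C.BZ x : T.W.H C.Z) = C.rr none (C.φ (Sum.inl ⟨Sum.inl x.1, x.2⟩))
  rw [rr_φ]
  rfl

/-- The bases of the other vertices. -/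
lemma basis_some (i : ι) : ∃ B : Basis {b : C.β // C.vt b = some i} T.W.K
    (T.W.H (C.XX (some i))), ∀ b, B b = C.rr (some i) b := by
  have h0 : ∀ a : Fin (C.Al i), (0 : ℕ) < C.e' (Sum.inr ⟨i, a⟩) := fun a => Nat.one_pos
  let f : Fin (C.N i) ⊕ Fin (C.Al i) → {b : C.β // C.vt b = some i} := fun x =>
    match x with
    | Sum.inl c => ⟨C.φ (Sum.inr ⟨i, c⟩), by rw [vt_φ]; rfl⟩
    | Sum.inr a => ⟨C.φ (Sum.inl ⟨Sum.inr ⟨i, a⟩, ⟨0, h0 a⟩⟩), by rw [vt_φ]; rfl⟩
  have hf : Function.Bijective f := by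
    constructor
    · rintro (x | x) (y | y) hxy
      · have h1 := Sum.inr.inj (C.φ.injective (congrArg Subtype.val hxy))
        rw [eq_of_heq (Sigma.mk.inj h1).2]
      · exact absurd (C.φ.injective (congrArg Subtype.val hxy)) (fun h => by cases h)
      · exact absurd (C.φ.injective (congrArg Subtype.val hxy)) (fun h => by cases h)
      · have h1 := Sum.inl.inj (C.φ.injective (congrArg Subtype.val hxy))
        have h2 := Sum.inr.inj (congrArg Sigma.fst h1)
        rw [eq_of_heq (Sigma.mk.inj h2).2]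
    · rintro ⟨b, hb⟩
      obtain ⟨b, rfl⟩ := C.φ.surjective b
      rw [vt_φ] at hb
      rcases b with ⟨j | ⟨i', a⟩, c⟩ | ⟨i', c⟩
      · cases hb
      · have h1 : i' = i := Option.some.inj hb
        subst h1
        refine ⟨Sum.inr a, Subtype.ext ?_⟩
        change C.φ (Sum.inl ⟨Sum.inr ⟨i', a⟩, ⟨0, h0 a⟩⟩) = C.φ (Sum.inl ⟨Sum.inr ⟨i', a⟩, c⟩)
        have h2 : (⟨0, h0 a⟩ : Fin (C.e' (Sum.inr ⟨i', a⟩))) = c := by
          apply Fin.ext
          have h3 : (c : ℕ) < 1 := c.2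
          change 0 = (c : ℕ)
          omega
        rw [h2]
      · have h1 : i' = i := Option.some.inj hb
        subst h1
        exact ⟨Sum.inl c, rfl⟩
  refine ⟨(C.BX i).reindex (Equiv.ofBijective f hf), fun b => ?_⟩
  obtain ⟨x, rfl⟩ := (Equiv.ofBijective f hf).surjective b
  refine Eq.trans (reindex_self (C.BX i) (Equiv.ofBijective f hf) x) ?_
  rcases x with c | a
  · change (C.BX i (Sum.inl c) : T.W.H (C.X i)) = C.rr (some i) (C.φ (Sum.inr ⟨i, c⟩))
    rw [rr_φ]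
    exact (C.rr1_V i c).symm
  · change (C.BX i (Sum.inr a) : T.W.H (C.X i)) =
      C.rr (some i) (C.φ (Sum.inl ⟨Sum.inr ⟨i, a⟩, ⟨0, h0 a⟩⟩))
    rw [rr_φ]
    exact (C.rr1_A i a _).symm

end Cfg

end Run7.h853.Cg
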