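import Pool.Agent.Run7.h853.Cg.A6

/-!
# The theorem for systems of classes
-/

set_option linter.unusedSectionVars false

open CategoryTheory AlgebraicGeometry TensorProduct

universe u

namespace Run7.h853.Cg

open Module
open Pool.Agent.H914 Pool.Agent.H914.VarClass Pool.Agent.H914.VarClass.Obj
  Pool.Agent.H914.WeilCohomology
open Pool.Agent.Y133.Half Pool.Agent.Y121.AH Pool.Agent.N996.BP.Geo
open Pool.Agent.W437.HC (actk act act_eq_sum cst)
open Pool.Agent.W437.HP (cK)
open Pool.Agent.W437.CY Run7.h853.Cy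

section Pair

variable {ι : Type} [Fintype ι] [DecidableEq ι] {ww N : ι → ℕ} {d l : ℕ} (M : LowHS d l)
  (V : ∀ i, PolHS (ww i) (N i))

lemma pair_zero {i j : ι} {m : Matrix (Fin (N i)) (Fin (N j)) ℚ} {I : Fin 2 → Bas l N}
    (h : pairClass l i j m I ≠ 0) : ∃ b b', I 0 = Sum.inr ⟨i, b⟩ ∧ I 1 = Sum.inr ⟨j, b'⟩ := by
  by_contra h0
  push Not at h0
  apply h
  unfold pairClass
  refine Finset.sum_eq_zero fun b _ => Finset.sum_eq_zero fun b' _ => ?_
  rw [if_neg]
  rintro ⟨h1, h2⟩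
  exact h0 b b' h1 h2

lemma pair_val (i j : ι) (m : Matrix (Fin (N i)) (Fin (N j)) ℚ) {I : Fin 2 → Bas l N}
    {b : Fin (N i)} {b' : Fin (N j)} (h0 : I 0 = Sum.inr ⟨i, b⟩) (h1 : I 1 = Sum.inr ⟨j, b'⟩) :
    pairClass l i j m I = m b b' := by
  unfold pairClass
  rw [Finset.sum_eq_single b, Finset.sum_eq_single b', if_pos ⟨h0, h1⟩]
  · intro c' _ hc'
    rw [if_neg]
    rintro ⟨-, h2⟩
    rw [h1] at h2
    exact hc' (eq_of_heq (Sigma.mk.inj (Sum.inr.inj h2)).2).symm
  · intro h; exact absurd (Finset.mem_univ _) h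
  · intro c _ hc
    refine Finset.sum_eq_zero fun c' _ => ?_
    rw [if_neg]
    rintro ⟨h2, -⟩
    rw [h0] at h2
    exact hc (eq_of_heq (Sigma.mk.inj (Sum.inr.inj h2)).2).symm
  · intro h; exact absurd (Finset.mem_univ _) h

lemma sum_inr (i : ι) (f : Bas l N → ℂ) (hf : ∀ z, (∀ c, z ≠ Sum.inr ⟨i, c⟩) → f z = 0) :
    ∑ z, f z = ∑ c, f (Sum.inr ⟨i, c⟩) := by
  have h0 : ∑ a₁ : Fin l, f (Sum.inl a₁) = 0 :=
    Finset.sum_eq_zero fun z _ => hf _ (fun c h => by cases h)
  rw [Fintype.sum_sum_type, h0, zero_add, Fintype.sum_sigma, Finset.sum_eq_single i]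
  · intro i' _ hi'
    refine Finset.sum_eq_zero fun c _ => hf _ fun c' h => hi' ?_
    exact congrArg Sigma.fst (Sum.inr.inj h)
  · intro h; exact absurd (Finset.mem_univ _) h

/-- The matrix of a Hodge class with two places. -/
lemma pair_eq {i j : ι} {m : Matrix (Fin (N i)) (Fin (N j)) ℚ}
    (h : IsHodgeClass M V (pairClass l i j m)) :
    (V i).D * cK ℂ m + cK ℂ m * (V j).D.transpose = 0 := by
  have h1 := act_hodge M V h
  ext b b'
  have h2 := congrFun h1 ![Sum.inr ⟨i, b⟩, Sum.inr ⟨j, b'⟩]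
  unfold act at h2
  rw [Fin.sum_univ_two] at h2
  rw [Matrix.add_apply, Matrix.mul_apply, Matrix.mul_apply, Matrix.zero_apply]
  refine Eq.trans ?_ h2
  congr 1
  · rw [sum_inr i]
    · refine Finset.sum_congr rfl fun c _ => ?_
      have h3 : (DM M V).transpose (Sum.inr ⟨i, c⟩) (Sum.inr ⟨i, b⟩) = (V i).D b c := by
        have h4 : (DM M V).transpose (Sum.inr ⟨i, c⟩) (Sum.inr ⟨i, b⟩) =
          gD V ⟨i, b⟩ ⟨i, c⟩ := rfl
        rw [h4, gD_block]
        exact Matrix.blockDiagonal'_apply_eq _ _ _ _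
      have h5 : cst ℂ (pairClass l i j m) (Function.update ![Sum.inr ⟨i, b⟩,
          Sum.inr ⟨j, b'⟩] 0 (Sum.inr ⟨i, c⟩)) = cK ℂ m c b' := by
        change ((pairClass l i j m _ : ℚ) : ℂ) = ((m c b' : ℚ) : ℂ)
        rw [pair_val (b := c) (b' := b')]
        · rw [Function.update_self]
        · rw [Function.update_of_ne (by decide)]
          rfl
      have h6 : ((![Sum.inr ⟨i, b⟩, Sum.inr ⟨j, b'⟩] : Fin 2 → Bas l N) 0) =
        Sum.inr ⟨i, b⟩ := rfl
      rw [h6, h3, h5]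
    · intro z hz
      have h5 : cst ℂ (pairClass l i j m) (Function.update ![Sum.inr ⟨i, b⟩,
          Sum.inr ⟨j, b'⟩] 0 z) = 0 := by
        change ((pairClass l i j m _ : ℚ) : ℂ) = 0
        by_contra h6
        have h7 : pairClass l i j m (Function.update ![Sum.inr ⟨i, b⟩,
          Sum.inr ⟨j, b'⟩] 0 z) ≠ 0 := fun h8 => h6 (by rw [h8, Rat.cast_zero])
        obtain ⟨c, c', h9, -⟩ := pair_zero h7
        rw [Function.update_self] at h9
        exact hz c h9
      rw [h5, mul_zero]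
  · rw [sum_inr j]
    · refine Finset.sum_congr rfl fun c _ => ?_
      have h3 : (DM M V).transpose (Sum.inr ⟨j, c⟩) (Sum.inr ⟨j, b'⟩) = (V j).D b' c := by
        have h4 : (DM M V).transpose (Sum.inr ⟨j, c⟩) (Sum.inr ⟨j, b'⟩) =
          gD V ⟨j, b'⟩ ⟨j, c⟩ := rfl
        rw [h4, gD_block]
        exact Matrix.blockDiagonal'_apply_eq _ _ _ _
      have h5 : cst ℂ (pairClass l i j m) (Function.update ![Sum.inr ⟨i, b⟩,
          Sum.inr ⟨j, b'⟩] 1 (Sum.inr ⟨j, c⟩)) = cK ℂ m b c := by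
        change ((pairClass l i j m _ : ℚ) : ℂ) = ((m b c : ℚ) : ℂ)
        rw [pair_val (b := b) (b' := c)]
        · rw [Function.update_of_ne (by decide)]
          rfl
        · rw [Function.update_self]
      have h6 : ((![Sum.inr ⟨i, b⟩, Sum.inr ⟨j, b'⟩] : Fin 2 → Bas l N) 1) =
        Sum.inr ⟨j, b'⟩ := rfl
      rw [h6, h3, h5, Matrix.transpose_apply, mul_comm]
    · intro z hz
      have h5 : cst ℂ (pairClass l i j m) (Function.update ![Sum.inr ⟨i, b⟩,
          Sum.inr ⟨j, b'⟩] 1 z) = 0 := by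
        change ((pairClass l i j m _ : ℚ) : ℂ) = 0
        by_contra h6
        have h7 : pairClass l i j m (Function.update ![Sum.inr ⟨i, b⟩,
          Sum.inr ⟨j, b'⟩] 1 z) ≠ 0 := fun h8 => h6 (by rw [h8, Rat.cast_zero])
        obtain ⟨c, c', -, h9⟩ := pair_zero h7
        rw [Function.update_self] at h9
        exact hz c' h9
      rw [h5, mul_zero]

end Pair

variable {k : Type u} [Field k] {𝒱 : VarClass k} {ops : CycleOps 𝒱}

section

variable {W : WeilCohomology.{u, 0} ops} {Y : 𝒱.Obj} {ι : Type} [Fintype ι] [DecidableEq ι]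
  {N : ι → ℕ} {l : ℕ}

/-- The class of a tensor with two places. -/
lemma wcl_pair (ev : Fin 2 → Bas l N → W.H Y) (i j : ι)
    (m : Matrix (Fin (N i)) (Fin (N j)) ℚ) : wcl ev [0, 1] (pairClass l i j m) =
      ∑ b, ∑ b', ((m b b' : ℚ) : W.K) • (ev 0 (Sum.inr ⟨i, b⟩) * ev 1 (Sum.inr ⟨j, b'⟩)) := by
  have h1 : ∀ I : Fin 2 → Bas l N, ((pairClass l i j m I : ℚ) : W.K) • wd ev [0, 1] I =
      ∑ b, ∑ b', if I = ![Sum.inr ⟨i, b⟩, Sum.inr ⟨j, b'⟩] then
        ((m b b' : ℚ) : W.K) • (ev 0 (Sum.inr ⟨i, b⟩) * ev 1 (Sum.inr ⟨j, b'⟩)) else 0 := by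
    intro I
    unfold pairClass
    rw [Rat.cast_sum, Finset.sum_smul]
    refine Finset.sum_congr rfl fun b _ => ?_
    rw [Rat.cast_sum, Finset.sum_smul]
    refine Finset.sum_congr rfl fun b' _ => ?_
    by_cases h : I 0 = Sum.inr ⟨i, b⟩ ∧ I 1 = Sum.inr ⟨j, b'⟩
    · have h2 : I = ![Sum.inr ⟨i, b⟩, Sum.inr ⟨j, b'⟩] := by
        funext s
        fin_cases s
        · exact h.1
        · exact h.2
      rw [if_pos h, if_pos h2, wd_cons, wd_cons, wd_nil, mul_one, h.1, h.2]
    · have h2 : I ≠ ![Sum.inr ⟨i, b⟩, Sum.inr ⟨j, b'⟩] := by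
        intro h2
        apply h
        rw [h2]
        exact ⟨rfl, rfl⟩
      rw [if_neg h, if_neg h2, Rat.cast_zero, zero_smul]
  rw [wcl, Finset.sum_congr rfl fun I _ => h1 I, Finset.sum_comm]
  refine Finset.sum_congr rfl fun b _ => ?_
  rw [Finset.sum_comm]
  refine Finset.sum_congr rfl fun b' _ => ?_
  rw [Finset.sum_ite_eq', if_pos (Finset.mem_univ _)]

end

namespace Cfg

variable {T : HodgeTheory ops} {ι : Type} [Fintype ι] [DecidableEq ι] (C : Cfg T ι)

/-- The class with two places. -/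
noncomputable def prc (i j : ι) (q : Matrix (Fin (C.N i)) (Fin (C.N j)) ℚ) :
    T.W.H ((C.X i).prod (C.X j)) :=
  ∑ b, ∑ b', ((q b b' : ℚ) : T.W.K) • xp T.W (C.BX i (Sum.inl b)) (C.BX j (Sum.inl b'))

lemma vert {v : Option ι} {i : ι} (h : v ≠ some i) (b : Fin (C.N i)) :
    C.rr v (Sum.inr ⟨i, b⟩) = 0 := by
  have h0 : (Sum.inr ⟨i, b⟩ : C.β) = C.φ (Sum.inr ⟨i, b⟩) := rfl
  rw [h0, rr_φ]
  rcases v with _ | i'
  · rfl
  · have h1 : i ≠ i' := fun h' => h (by rw [h'])
    exact (dif_neg h1 : C.rr1 (some i') (Sum.inr ⟨i, b⟩) = (0 : T.W.H (C.X i')))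

lemma rr_V (i : ι) (b : Fin (C.N i)) : C.rr (some i) (Sum.inr ⟨i, b⟩) =
    (C.BX i (Sum.inl b) : T.W.H (C.X i)) := by
  have h0 : (Sum.inr ⟨i, b⟩ : C.β) = C.φ (Sum.inr ⟨i, b⟩) := rfl
  rw [h0, rr_φ]
  exact C.rr1_V i b

variable {C} {S : Sys T.W} {n : ℕ}

/-- The family is a system. -/
lemma isSys (hX : ∀ i, (hodgePred T).sp (C.X i) ≤ S.C (C.X i))
    (hZ : ∀ m < n, (hodgePred T).sp (pw C.Z m) ≤ S.C (pw C.Z m))
    (hP : ∀ i j (q : Matrix (Fin (C.N i)) (Fin (C.N j)) ℚ),
      (C.V i).D * cK ℂ q + cK ℂ q * (C.V j).D.transpose = 0 →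
        C.prc i j q ∈ S.C ((C.X i).prod (C.X j))) (n' : ℕ) :
    IsSys C.M C.V n' (Fam S C.rr C.p none n) where
  mul _ _ _ _ _ _ hc hc' := fam_mul C.rr_par hc hc'
  perm _ _ _ e _ hc := fam_perm e hc
  low κ _ c _ hc hM := by
    refine fam_low C.rr_par C.comp (fun _ _ h => C.D_p h) hZ (Ml := fun b => b.isLeft = true)
      (Al := C.Alg) (fun v b h1 h2 h3 => C.rr_low h1 h2 h3)
      (fun b hb => ⟨fun j => C.D_alg hb j, fun v => C.rr_alg hX hb v⟩) ?_ ?_
    · intro I hI a
      rcases h : I a with z | z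
      · rfl
      · exact absurd (hM I ⟨a, z, h⟩) hI
    · intro _
      have h1 := act_hodge C.M C.V hc
      rw [act_eq_sum] at h1
      exact h1
  pair i j q hq := by
    refine fam_two (v0 := some i) (v1 := some j) ?_ ?_ ?_
    · intro I hI v hv
      obtain ⟨b, b', h0, h1⟩ := pair_zero hI
      rw [h0]
      exact C.vert hv b
    · intro I hI v hv
      obtain ⟨b, b', h0, h1⟩ := pair_zero hI
      rw [h1]
      exact C.vert hv b'
    · intro L ε hL1 hL2
      have hL' : ([0, 1] : List (Fin 2)).Nodup := by decide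
      have hL'' : ∀ a : Fin 2, a ∈ ([0, 1] : List (Fin 2)) := by decide
      have hpar : ∀ (a : Fin 2) (b : C.β), (if a = 0 then
          T.W.map (fst (C.XX (some i)) (C.XX (some j))) (C.rr (some i) b) else
            T.W.map (snd (C.XX (some i)) (C.XX (some j))) (C.rr (some j) b)) ∈
              PH T.W ((C.XX (some i)).prod (C.XX (some j))) (C.p b : ℕ) := by
        intro a b
        split_ifs
        · exact PH.map _ (C.rr_par _ _)
        · exact PH.map _ (C.rr_par _ _)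
      obtain ⟨s, -, hs⟩ := wcl_perm hpar (perm_of hL1 hL' hL2 hL'') ε
      rw [hs]
      refine Submodule.smul_mem _ _ ?_
      by_cases hε : ∃ I, prt C.p ε (pairClass (sl C.e') i j q) I ≠ 0
      · have h1 : prt C.p ε (pairClass (sl C.e') i j q) = pairClass (sl C.e') i j q := by
          obtain ⟨I, hI⟩ := hε
          have hIε : C.p ∘ I = ε := by
            by_contra h
            exact hI (if_neg h)
          have hI0 : pairClass (sl C.e') i j q I ≠ 0 := by
            rwa [prt, if_pos hIε] at hI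
          funext I'
          rw [prt]
          by_cases h0 : pairClass (sl C.e') i j q I' = 0
          · rw [h0, ite_self]
          · rw [if_pos]
            rw [← hIε]
            obtain ⟨b, b', h2, h3⟩ := pair_zero hI0
            obtain ⟨c, c', h4, h5⟩ := pair_zero h0
            funext s
            fin_cases s
            · change C.p (I' 0) = C.p (I 0)
              rw [h2, h4]
              rfl
            · change C.p (I' 1) = C.p (I 1)
              rw [h3, h5]
              rfl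
        rw [h1, wcl_pair]
        have h2 := hP i j q (pair_eq C.M C.V hq)
        have h3 : C.prc i j q = ∑ b, ∑ b', ((q b b' : ℚ) : T.W.K) •
            ((if (0 : Fin 2) = 0 then T.W.map (fst (C.XX (some i)) (C.XX (some j)))
              (C.rr (some i) (Sum.inr ⟨i, b⟩)) else
                T.W.map (snd (C.XX (some i)) (C.XX (some j)))
                  (C.rr (some j) (Sum.inr ⟨i, b⟩))) *
            (if (1 : Fin 2) = 0 then T.W.map (fst (C.XX (some i)) (C.XX (some j)))
              (C.rr (some i) (Sum.inr ⟨j, b'⟩)) else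
                T.W.map (snd (C.XX (some i)) (C.XX (some j)))
                  (C.rr (some j) (Sum.inr ⟨j, b'⟩)))) := by
          unfold prc
          refine Finset.sum_congr rfl fun b _ => Finset.sum_congr rfl fun b' _ => ?_
          rw [if_pos rfl, if_neg (by decide), C.rr_V i b, C.rr_V j b']
          rfl
        rw [← h3]
        exact h2
      · push Not at hε
        have h1 : prt C.p ε (pairClass (sl C.e') i j q) = 0 := funext hε
        rw [h1, wcl_zero]
        exact Submodule.zero_mem _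

/-- **The theorem for systems of classes.** -/
theorem main_sys (hV : ∀ i, CYGen (C.V i)) (hi : ∀ i j, Indep (C.V i) (C.W j))
    (hX : ∀ i, (hodgePred T).sp (C.X i) ≤ S.C (C.X i))
    (hZ : ∀ m < n, (hodgePred T).sp (pw C.Z m) ≤ S.C (pw C.Z m))
    (hP : ∀ i j (q : Matrix (Fin (C.N i)) (Fin (C.N j)) ℚ),
      (C.V i).D * cK ℂ q + cK ℂ q * (C.V j).D.transpose = 0 →
        C.prc i j q ∈ S.C ((C.X i).prod (C.X j)))
    {Y : 𝒱.Obj} (hY : HasFrame C.rr C.vt none n Y) : (hodgePred T).sp Y ≤ S.C Y := by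
  refine frame_hodge (D := C.D) (p := C.p) hY C.comp (fun _ _ h => C.D_vt h) ?_
  intro κ _ _ c hc
  have hK : Kx C.M C.V := kx_of_sum C.M C.V C.hodd C.W' (sumHS_isSum C.W') (fun i j => by
    rcases j with j | a
    · exact hi i j
    · exact triv_indep _ (C.hodd i)) (fun i => (hV i).1) fun i => (hV i).2.1
  refine main' C.M C.V C.hodd hK (fun i => gd_gen (C.hodd i) (C.V i) (hV i))
    (isSys hX hZ hP (Fintype.card κ)) c ?_ ?_
  · apply hodge_of_act
    rw [act_eq_sum]
    exact hc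
  · intro I _
    exact Finset.card_le_univ _

end Cfg

end Run7.h853.Cg
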