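import Pool.Agent.Run7.h853.Cg.A7

/-!
# The classes with two places
-/

set_option linter.unusedSectionVars false

open CategoryTheory AlgebraicGeometry TensorProduct

universe u

namespace Run7.h853.Cg

open Module
open Pool.Agent.H914 Pool.Agent.H914.VarClass Pool.Agent.H914.VarClass.Obj
  Pool.Agent.H914.WeilCohomology
open Pool.Agent.Y133.Half Pool.Agent.Y121.AH Pool.Agent.N996.BP.Geo
open Pool.Agent.W437.HP (cK)
open Pool.Agent.W437.CY Run7.h853.Cy

variable {k : Type u} [Field k] {𝒱 : VarClass k} {ops : CycleOps 𝒱}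

section W

variable {W : WeilCohomology.{u, 0} ops} {X Y : 𝒱.Obj} {β γ : Type} [Fintype β] [Fintype γ]

lemma xp_sum_left {α : Type*} (s : Finset α) (f : α → W.H X) (y : W.H Y) :
    xp W (∑ a ∈ s, f a) y = ∑ a ∈ s, xp W (f a) y := by
  rw [xp, map_sum, Finset.sum_mul]
  rfl

lemma xp_sum_right {α : Type*} (s : Finset α) (x : W.H X) (f : α → W.H Y) :
    xp W x (∑ a ∈ s, f a) = ∑ a ∈ s, xp W x (f a) := by
  rw [xp, map_sum, Finset.mul_sum]
  rfl

/-- The coordinates of a class on a product. -/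
lemma expand (B : Basis β W.K (W.H X)) (B' : Basis γ W.K (W.H Y)) (c : W.H (X.prod Y)) :
    ∃ K : β → γ → W.K, c = ∑ a, ∑ b, K a b • xp W (B a) (B' b) := by
  refine ⟨fun a b => ((B.tensorProduct B').map (kappa W X Y)).repr c (a, b), ?_⟩
  conv_lhs => rw [← ((B.tensorProduct B').map (kappa W X Y)).sum_repr c]
  rw [Fintype.sum_prod_type]
  refine Finset.sum_congr rfl fun a _ => Finset.sum_congr rfl fun b _ => ?_
  rw [Basis.map_apply, Basis.tensorProduct_apply, kappa_tmul]
  rfl

end W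

section T

variable {T : HodgeTheory ops} {X Y : 𝒱.Obj} {β γ : Type} [Fintype β] [Fintype γ]

/-- The products are linearly independent over the complex numbers. -/
lemma xp_indep (B : Basis β T.W.K (T.W.H X)) (B' : Basis γ T.W.K (T.W.H Y))
    {z : β → γ → ℂ} (h : ∑ a, ∑ b, cc T (z a b) • em T.W ℂ (xp T.W (B a) (B' b)) = 0)
    (a : β) (b : γ) : z a b = 0 := by
  have h5 : (∑ x : β × γ, z x.1 x.2 •
      (((B.tensorProduct B').map (kappa T.W X Y)).baseChange ℂ) x :
        ℂ ⊗[T.W.K] T.W.H (X.prod Y)) = 0 := by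
    rw [Fintype.sum_prod_type]
    refine Eq.trans ?_ h
    refine Finset.sum_congr rfl fun a _ => Finset.sum_congr rfl fun b _ => ?_
    rw [Basis.baseChange_apply, Basis.map_apply, Basis.tensorProduct_apply, kappa_tmul]
    rfl
  exact Fintype.linearIndependent_iff.1
    (((B.tensorProduct B').map (kappa T.W X Y)).baseChange ℂ).linearIndependent
      (fun x => z x.1 x.2) h5 (a, b)

end T

namespace Cfg

variable {T : HodgeTheory ops} {ι : Type} [Fintype ι] [DecidableEq ι] (C : Cfg T ι)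

lemma comp_X (i : ι) : Comp (C.V i).D fun b => (C.BX i (Sum.inl b) : T.W.H (C.X i)) := by
  intro b
  refine lin_comp (C.V i) (fun c => (C.BX i (Sum.inl c) : T.W.H (C.X i))) (fun p x hx => ?_) b
  have h1 := dop_pq (C.hXtype i p x hx)
  have h2 : ((p : ℤ) + C.mm i - (C.ww i - p + C.mm i)) = 2 * (p : ℤ) - C.ww i := by ring
  rw [h2] at h1
  exact h1

/-- The derivation of the classes with two places. -/
lemma dop_prc (i j : ι) (q : Matrix (Fin (C.N i)) (Fin (C.N j)) ℚ) :
    dop T ((C.X i).prod (C.X j)) (em T.W ℂ (C.prc i j q)) = ∑ b, ∑ b',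
      cc T (((C.V i).D * cK ℂ q + cK ℂ q * (C.V j).D.transpose) b b') •
        em T.W ℂ (xp T.W (C.BX i (Sum.inl b)) (C.BX j (Sum.inl b'))) := by
  have h1 : ∀ b b', dop T ((C.X i).prod (C.X j)) (em T.W ℂ (((q b b' : ℚ) : T.W.K) •
      xp T.W (C.BX i (Sum.inl b)) (C.BX j (Sum.inl b')))) =
      (∑ c, cc T ((C.V i).D c b * (q b b' : ℂ)) •
        em T.W ℂ (xp T.W (C.BX i (Sum.inl c)) (C.BX j (Sum.inl b')))) +
      ∑ c, cc T ((q b b' : ℂ) * (C.V j).D c b') •
        em T.W ℂ (xp T.W (C.BX i (Sum.inl b)) (C.BX j (Sum.inl c))) := by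
    intro b b'
    rw [em_smul, map_smul, xp, em_mul, dop_mul, smul_add,
      (C.comp_X i).map (fst (C.X i) (C.X j)) b, (C.comp_X j).map (snd (C.X i) (C.X j)) b',
      Finset.sum_mul, Finset.mul_sum, Finset.smul_sum, Finset.smul_sum, ex_rat]
    congr 1
    · refine Finset.sum_congr rfl fun c _ => ?_
      rw [smul_mul_assoc, xp, em_mul, smul_smul, mul_comm]
      rfl
    · refine Finset.sum_congr rfl fun c _ => ?_
      rw [mul_smul_comm, xp, em_mul, smul_smul]
      rfl
  rw [prc, em_sum, map_sum]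
  simp only [em_sum, map_sum, h1, Finset.sum_add_distrib]
  have h2 : ∀ b b', cc T (((C.V i).D * cK ℂ q + cK ℂ q * (C.V j).D.transpose) b b') •
      em T.W ℂ (xp T.W (C.BX i (Sum.inl b)) (C.BX j (Sum.inl b'))) =
      (∑ c, cc T ((C.V i).D b c * (q c b' : ℂ)) •
        em T.W ℂ (xp T.W (C.BX i (Sum.inl b)) (C.BX j (Sum.inl b')))) +
      ∑ c, cc T ((q b c : ℂ) * (C.V j).D b' c) •
        em T.W ℂ (xp T.W (C.BX i (Sum.inl b)) (C.BX j (Sum.inl b'))) := by
    intro b b'
    rw [← Finset.sum_smul, ← Finset.sum_smul, ← add_smul]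
    rfl
  simp only [h2, Finset.sum_add_distrib]
  congr 1
  · rw [Finset.sum_comm]
    conv_rhs => rw [Finset.sum_comm]
    refine Finset.sum_congr rfl fun b' _ => ?_
    rw [Finset.sum_comm]
  · refine Finset.sum_congr rfl fun b _ => ?_
    rw [Finset.sum_comm]

/-- The classes with two places which are Hodge classes. -/
lemma prc_sp_iff (i j : ι) (q : Matrix (Fin (C.N i)) (Fin (C.N j)) ℚ) :
    C.prc i j q ∈ (hodgePred T).sp ((C.X i).prod (C.X j)) ↔
      (C.V i).D * cK ℂ q + cK ℂ q * (C.V j).D.transpose = 0 := by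
  rw [← dop_iff, dop_prc]
  constructor
  · intro h
    ext b b'
    have h1 : ∑ a, ∑ a', cc T ((fun (a : Fin (C.N i) ⊕ Fin (C.Al i))
        (a' : Fin (C.N j) ⊕ Fin (C.Al j)) => match a, a' with
          | Sum.inl b, Sum.inl b' =>
            ((C.V i).D * cK ℂ q + cK ℂ q * (C.V j).D.transpose) b b'
          | _, _ => 0) a a') • em T.W ℂ (xp T.W (C.BX i a) (C.BX j a')) = 0 := by
      rw [Fintype.sum_sum_type]
      have h2 : ∀ (x : Fin (C.Al i)), ∑ a', cc T ((fun (a : Fin (C.N i) ⊕ Fin (C.Al i))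
          (a' : Fin (C.N j) ⊕ Fin (C.Al j)) => match a, a' with
            | Sum.inl b, Sum.inl b' =>
              ((C.V i).D * cK ℂ q + cK ℂ q * (C.V j).D.transpose) b b'
            | _, _ => 0) (Sum.inr x) a') •
              em T.W ℂ (xp T.W (C.BX i (Sum.inr x)) (C.BX j a')) = 0 :=
        fun x => Finset.sum_eq_zero fun a' _ => zero_smul (CW T).K _
      rw [Finset.sum_congr rfl fun x _ => h2 x, Finset.sum_const_zero, add_zero]
      refine Eq.trans ?_ h
      refine Finset.sum_congr rfl fun b _ => ?_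
      rw [Fintype.sum_sum_type]
      have h3 : ∑ (x : Fin (C.Al j)), cc T ((fun (a : Fin (C.N i) ⊕ Fin (C.Al i))
          (a' : Fin (C.N j) ⊕ Fin (C.Al j)) => match a, a' with
            | Sum.inl b, Sum.inl b' =>
              ((C.V i).D * cK ℂ q + cK ℂ q * (C.V j).D.transpose) b b'
            | _, _ => 0) (Sum.inl b) (Sum.inr x)) •
              em T.W ℂ (xp T.W (C.BX i (Sum.inl b)) (C.BX j (Sum.inr x))) = 0 :=
        Finset.sum_eq_zero fun a' _ => zero_smul (CW T).K _
      rw [h3, add_zero]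
    exact xp_indep (C.BX i) (C.BX j) h1 (Sum.inl b) (Sum.inl b')
  · intro h
    refine Finset.sum_eq_zero fun b _ => Finset.sum_eq_zero fun b' _ => ?_
    rw [h]
    exact zero_smul (CW T).K _

lemma prc_smul (i j : ι) (r : ℚ) (q : Matrix (Fin (C.N i)) (Fin (C.N j)) ℚ) :
    C.prc i j (r • q) = (r : T.W.K) • C.prc i j q := by
  unfold prc
  rw [Finset.smul_sum]
  refine Finset.sum_congr rfl fun b _ => ?_
  rw [Finset.smul_sum]
  refine Finset.sum_congr rfl fun b' _ => ?_
  rw [Matrix.smul_apply, smul_eq_mul, Rat.cast_mul, mul_smul]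

lemma prc_zero (i j : ι) : C.prc i j 0 = 0 := by
  unfold prc
  exact Finset.sum_eq_zero fun b _ => Finset.sum_eq_zero fun b' _ => by
    rw [Matrix.zero_apply, Rat.cast_zero, zero_smul]

end Cfg

end Run7.h853.Cg
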