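import Pool.Agent.Run7.h853.Cg.A8
import Pool.Agent.Run7.h853.Cg.Bridge

/-!
# The Hodge classes with two places
-/

set_option linter.unusedSectionVars false

open CategoryTheory AlgebraicGeometry TensorProduct

universe u

namespace Run7.h853.Cg

open Module
open Pool.Agent.H914 Pool.Agent.H914.VarClass Pool.Agent.H914.VarClass.Obj
  Pool.Agent.H914.WeilCohomology
open Pool.Agent.Y133.Half Pool.Agent.Y121.AH Pool.Agent.N996.BP.Geo
open Pool.Agent.W437.HP (cK)
open Pool.Agent.W437.CY Run7.h853.Cy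

section HS

variable {k N w e : ℕ} {V : PolHS k N} {W : PolHS w e} {q : Matrix (Fin N) (Fin e) ℚ}

lemma cK_mul' {a b c : Type} [Fintype b] (A : Matrix a b ℚ) (B : Matrix b c ℚ) :
    cK ℂ (A * B) = cK ℂ A * cK ℂ B := by
  ext i j
  change (((A * B) i j : ℚ) : ℂ) = _
  rw [Matrix.mul_apply, Matrix.mul_apply, Rat.cast_sum]
  exact Finset.sum_congr rfl fun x _ => Rat.cast_mul _ _

lemma cK_tr {a b : Type} (A : Matrix a b ℚ) : cK ℂ A.transpose = (cK ℂ A).transpose := rfl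

/-- The morphism defined by a class with two places. -/
lemma mor_of_eq (h : V.D * cK ℂ q + cK ℂ q * W.D.transpose = 0) :
    IsMor V W (q.transpose * V.Q) := by
  intro a x hx
  rcases part_cases (V := V) a with ⟨p, rfl⟩ | h0
  · rw [part_eq] at hx
    have h1 : W.D * cK ℂ q.transpose + cK ℂ q.transpose * V.D.transpose = 0 := by
      have h2 := congrArg Matrix.transpose h
      rw [Matrix.transpose_add, Matrix.transpose_mul, Matrix.transpose_mul,
        Matrix.transpose_transpose, Matrix.transpose_zero, ← cK_tr, add_comm] at h2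
      exact h2
    have h3 : W.D * cK ℂ (q.transpose * V.Q) = cK ℂ (q.transpose * V.Q) * V.D := by
      rw [cK_mul', ← Matrix.mul_assoc, eq_neg_of_add_eq_zero_left h1, Matrix.neg_mul,
        Matrix.mul_assoc, eq_neg_of_add_eq_zero_left V.spD, Matrix.mul_neg, neg_neg,
        Matrix.mul_assoc]
    have h4 : W.D.mulVec ((cK ℂ (q.transpose * V.Q)).mulVec x) =
        ((2 * (p : ℤ) - k : ℤ) : ℂ) • (cK ℂ (q.transpose * V.Q)).mulVec x := by
      rw [Matrix.mulVec_mulVec, h3, ← Matrix.mulVec_mulVec, V.D_vec hx, Matrix.mulVec_smul]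
    change (cK ℂ (q.transpose * V.Q)).mulVec x ∈ _
    by_cases h5 : (cK ℂ (q.transpose * V.Q)).mulVec x = 0
    · rw [h5]
      exact Submodule.zero_mem _
    · obtain ⟨p', hp', h6⟩ := W.eig_mem h4 h5
      rw [← hp', part_eq]
      exact h6
  · rw [h0] at hx
    rw [(Submodule.mem_bot ℂ).1 hx, Matrix.mulVec_zero]
    exact Submodule.zero_mem _

lemma eq_of_mul_Q {A : Matrix (Fin e) (Fin N) ℚ} (h : q.transpose * V.Q = A) :
    q = (A * V.Q⁻¹).transpose := by
  have h1 : V.Q * V.Q⁻¹ = 1 := Matrix.mul_nonsing_inv _ ((Matrix.isUnit_iff_isUnit_det _).1 V.unit)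
  rw [← h, Matrix.mul_assoc, h1, Matrix.mul_one, Matrix.transpose_transpose]

/-- The classes with two places, if all endomorphisms are scalars. -/
lemma scalar_class (hE : ∀ A, IsEnd V A → ∃ t : ℚ, A = t • 1) {q : Matrix (Fin N) (Fin N) ℚ}
    (h : V.D * cK ℂ q + cK ℂ q * V.D.transpose = 0) :
    ∃ t : ℚ, q = t • (V.Q⁻¹).transpose := by
  obtain ⟨t, ht⟩ := hE (q.transpose * V.Q) (mor_of_eq h)
  refine ⟨t, ?_⟩
  rw [eq_of_mul_Q ht, Matrix.smul_mul, Matrix.one_mul, Matrix.transpose_smul]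

end HS

variable {k : Type u} [Field k] {𝒱 : VarClass k} {ops : CycleOps 𝒱}

namespace Cfg

variable {T : HodgeTheory ops} {ι : Type} [Fintype ι] [DecidableEq ι] (C : Cfg T ι)

lemma BX_odd (i : ι) (b : Fin (C.N i)) :
    (C.BX i (Sum.inl b) : T.W.H (C.X i)) ∈ PH T.W (C.X i) 1 := by
  refine PH.of' ?_ (C.hXdeg i _)
  obtain ⟨r, hr⟩ := C.hodd i
  omega

lemma BX_even (i : ι) (a : Fin (C.Al i)) :
    (C.BX i (Sum.inr a) : T.W.H (C.X i)) ∈ PH T.W (C.X i) 0 :=
  ClassPred.sp_even (Q := hodgePred T) (C.hA i a)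

/-- The part of the diagonal. -/
lemma diag_block {S : Sys T.W} (i : ι) (h0 : 0 < C.N i)
    (hX : (hodgePred T).sp (C.X i) ≤ S.C (C.X i)) :
    ∃ q : Matrix (Fin (C.N i)) (Fin (C.N i)) ℚ, q ≠ 0 ∧
      C.prc i i q ∈ S.C ((C.X i).prod (C.X i)) ∧
        C.prc i i q ∈ (hodgePred T).sp ((C.X i).prod (C.X i)) := by
  obtain ⟨δ, hδ⟩ : ∃ δ, δ = T.W.push (diag (C.X i)) (1 : T.W.H (C.X i)) := ⟨_, rfl⟩
  have hδS : ∀ S' : Sys T.W, δ ∈ S'.C ((C.X i).prod (C.X i)) := fun S' => by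
    rw [hδ]
    exact S'.push _ (S'.one _)
  have hδ0 : δ ∈ PH T.W ((C.X i).prod (C.X i)) 0 := S.even (hδS S)
  obtain ⟨K, hK⟩ := expand (C.BX i) (C.BX i) δ
  rw [Fintype.sum_sum_type] at hK
  simp only [Fintype.sum_sum_type, Finset.sum_add_distrib] at hK
  obtain ⟨vv, hvv⟩ : ∃ x, x = ∑ b, ∑ b', K (Sum.inl b) (Sum.inl b') •
    xp T.W (C.BX i (Sum.inl b)) (C.BX i (Sum.inl b')) := ⟨_, rfl⟩
  obtain ⟨va, hva⟩ : ∃ x, x = ∑ b, ∑ b', K (Sum.inl b) (Sum.inr b') •
    xp T.W (C.BX i (Sum.inl b)) (C.BX i (Sum.inr b')) := ⟨_, rfl⟩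
  obtain ⟨av, hav⟩ : ∃ x, x = ∑ b, ∑ b', K (Sum.inr b) (Sum.inl b') •
    xp T.W (C.BX i (Sum.inr b)) (C.BX i (Sum.inl b')) := ⟨_, rfl⟩
  obtain ⟨aa, haa⟩ : ∃ x, x = ∑ b, ∑ b', K (Sum.inr b) (Sum.inr b') •
    xp T.W (C.BX i (Sum.inr b)) (C.BX i (Sum.inr b')) := ⟨_, rfl⟩
  rw [← hvv, ← hva, ← hav, ← haa] at hK
  have pvv : vv ∈ PH T.W ((C.X i).prod (C.X i)) 0 := by
    rw [hvv]
    refine Submodule.sum_mem _ fun b _ => Submodule.sum_mem _ fun b' _ =>
      Submodule.smul_mem _ _ ?_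
    exact PH.congr (by norm_num) (xp_mem (C.BX_odd i b) (C.BX_odd i b'))
  have paa : aa ∈ PH T.W ((C.X i).prod (C.X i)) 0 := by
    rw [haa]
    refine Submodule.sum_mem _ fun b _ => Submodule.sum_mem _ fun b' _ =>
      Submodule.smul_mem _ _ ?_
    exact PH.congr (by norm_num) (xp_mem (C.BX_even i b) (C.BX_even i b'))
  have pva : va + av ∈ PH T.W ((C.X i).prod (C.X i)) 1 := by
    rw [hva, hav]
    refine Submodule.add_mem _ ?_ ?_
    · refine Submodule.sum_mem _ fun b _ => Submodule.sum_mem _ fun b' _ =>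
        Submodule.smul_mem _ _ ?_
      exact PH.congr (by norm_num) (xp_mem (C.BX_odd i b) (C.BX_even i b'))
    · refine Submodule.sum_mem _ fun b _ => Submodule.sum_mem _ fun b' _ =>
        Submodule.smul_mem _ _ ?_
      exact PH.congr (by norm_num) (xp_mem (C.BX_even i b) (C.BX_odd i b'))
  have hmix : va + av = 0 := by
    have h1 : va + av = δ - (vv + aa) := by rw [hK]; abel
    have h2 : va + av ∈ PH T.W ((C.X i).prod (C.X i)) 0 := by
      rw [h1]
      exact Submodule.sub_mem _ hδ0 (Submodule.add_mem _ pvv paa)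
    have h3 := PH.par pva
    rw [PH.par h2, pow_zero, pow_one, one_smul, neg_smul, one_smul] at h3
    have h4 : (2 : T.W.K) • (va + av) = 0 := by
      rw [two_smul]
      nth_rewrite 1 [h3]
      exact neg_add_cancel _
    exact (smul_eq_zero.1 h4).resolve_left two_ne_zero
  have hK' : vv = δ - aa := by
    have h1 : δ = vv + aa + (va + av) := by rw [hK]; abel
    rw [hmix, add_zero] at h1
    rw [h1]
    abel
  have haaS : ∀ S' : Sys T.W, (hodgePred T).sp (C.X i) ≤ S'.C (C.X i) →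
      aa ∈ S'.C ((C.X i).prod (C.X i)) := by
    intro S' hS'
    rw [haa]
    refine Submodule.sum_mem _ fun b _ => Submodule.sum_mem _ fun b' _ =>
      Submodule.smul_mem _ _ ?_
    exact S'.mul (S'.map _ (hS' (C.hA i b))) (S'.map _ (hS' (C.hA i b')))
  choose q hq using fun (b b' : Fin (C.N i)) => T.rat (K (Sum.inl b) (Sum.inl b'))
  have hprc : C.prc i i (Matrix.of q) = vv := by
    rw [hvv, prc]
    refine Finset.sum_congr rfl fun b _ => Finset.sum_congr rfl fun b' _ => ?_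
    rw [Matrix.of_apply, hq]
  refine ⟨Matrix.of q, ?_, ?_, ?_⟩
  · intro h
    rw [h, prc_zero] at hprc
    rw [← hprc] at hK'
    have h1 : aa = δ := (sub_eq_zero.1 hK'.symm).symm
    obtain ⟨z, hz⟩ : ∃ z, z = (C.BX i (Sum.inl ⟨0, h0⟩) : T.W.H (C.X i)) := ⟨_, rfl⟩
    have hz1 : z ∈ PH T.W (C.X i) 1 := by rw [hz]; exact C.BX_odd i _
    have hz0 : z ≠ 0 := by rw [hz]; exact (C.BX i).ne_zero _
    apply hz0
    have h2 : T.W.corr δ z = z := by
      rw [hδ, Sys.corr_diag_one]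
      rfl
    have h4 : ∀ b b', T.W.corr (xp T.W (C.BX i (Sum.inr b)) (C.BX i (Sum.inr b'))) z = 0 := by
      intro b b'
      rw [corr_xp _ (C.BX_even i b') hz1]
      have h5 : T.W.tr (C.X i) (C.BX i (Sum.inr b) * z) = 0 :=
        PH.tr_odd (PH.mul (C.BX_even i b) hz1) (by norm_num)
      rw [h5, mul_zero, zero_smul]
    rw [← h2, ← h1, haa]
    have h6 : ∀ c, T.W.corr c z = T.W.push (snd (C.X i) (C.X i))
        (c * T.W.map (fst (C.X i) (C.X i)) z) := fun c => corr_apply _ _ _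
    rw [h6, Finset.sum_mul, map_sum]
    refine Finset.sum_eq_zero fun b _ => ?_
    rw [Finset.sum_mul, map_sum]
    refine Finset.sum_eq_zero fun b' _ => ?_
    rw [smul_mul_assoc, map_smul, ← h6, h4, smul_zero]
  · rw [hprc, hK']
    exact Submodule.sub_mem _ (hδS S) (haaS S hX)
  · rw [hprc, hK']
    exact Submodule.sub_mem _ (hδS (hodgePred T).sys) (haaS (hodgePred T).sys le_rfl)

variable {C}

/-- The classes with two places are in the system. -/
theorem hP_of {S : Sys T.W} (h0 : ∀ i, 0 < C.N i)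
    (hX : ∀ i, (hodgePred T).sp (C.X i) ≤ S.C (C.X i))
    (hL : ∀ i j, Linked C.V i j →
      (hodgePred T).sp ((C.X i).prod (C.X j)) ≤ S.C ((C.X i).prod (C.X j)))
    (i j : ι) (q : Matrix (Fin (C.N i)) (Fin (C.N j)) ℚ)
    (hq : (C.V i).D * cK ℂ q + cK ℂ q * (C.V j).D.transpose = 0) :
    C.prc i j q ∈ S.C ((C.X i).prod (C.X j)) := by
  by_cases hl : Linked C.V i j
  · exact hL i j hl ((C.prc_sp_iff i j q).2 hq)
  · rw [Linked, not_or] at hl
    by_cases hij : i = j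
    · subst hij
      have hE : ∀ A, IsEnd (C.V i) A → ∃ t : ℚ, A = t • 1 := by
        intro A hA
        by_contra h
        push Not at h
        exact hl.1 ⟨rfl, A, hA, h⟩
      obtain ⟨q0, h1, h2, h3⟩ := C.diag_block i (h0 i) (hX i)
      obtain ⟨t0, ht0⟩ := scalar_class hE ((C.prc_sp_iff i i q0).1 h3)
      obtain ⟨t, ht⟩ := scalar_class hE hq
      have ht00 : t0 ≠ 0 := by
        rintro rfl
        rw [zero_smul] at ht0
        exact h1 ht0
      have h4 : q = (t / t0) • q0 := by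
        rw [ht0, smul_smul, div_mul_cancel₀ _ ht00, ht]
      rw [h4, prc_smul]
      exact Submodule.smul_mem _ _ h2
    · have h1 : q.transpose * (C.V i).Q = 0 := by
        by_contra h
        exact hl.2 ⟨hij, _, h, mor_of_eq hq⟩
      have h2 : q = 0 := by
        rw [eq_of_mul_Q h1, Matrix.zero_mul, Matrix.transpose_zero]
      rw [h2, prc_zero]
      exact Submodule.zero_mem _

/-- **The theorem for systems of classes, second form.** -/
theorem main_sys' {S : Sys T.W} {n : ℕ} (hV : ∀ i, CYGen (C.V i))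
    (hi : ∀ i j, Indep (C.V i) (C.W j))
    (hX : ∀ i, (hodgePred T).sp (C.X i) ≤ S.C (C.X i))
    (hZ : ∀ m < n, (hodgePred T).sp (pw C.Z m) ≤ S.C (pw C.Z m))
    (hL : ∀ i j, Linked C.V i j →
      (hodgePred T).sp ((C.X i).prod (C.X j)) ≤ S.C ((C.X i).prod (C.X j)))
    {Y : 𝒱.Obj} (hY : HasFrame C.rr C.vt none n Y) : (hodgePred T).sp Y ≤ S.C Y := by
  refine main_sys hV hi hX hZ (hP_of (fun i => ?_) hX hL) hY
  by_contra h
  have h1 : C.N i = 0 := by omega
  have h2 := (hV i).2.1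
  have h3 : Module.finrank ℂ ((C.V i).H (Fin.last (C.ww i))) ≤
      Module.finrank ℂ (Fin (C.N i) → ℂ) := Submodule.finrank_le _
  rw [h2, Module.finrank_fin_fun] at h3
  omega

end Cfg

end Run7.h853.Cg
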